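import Pool.Agent.Helper97.SL.Ssl
import Pool.Agent.Helper25.EC.AL

/-! STATIC SHEET LEMMA, final forms: blindness from small information, exactness on an event of large probability,
labels without leak. (SSL, ns_notes_26b sect. 1) -/

set_option autoImplicit false

namespace Pool.Agent.Helper97.SL

open Finset Filter Topology
open Pool.Agent.Helper3.LF Pool.Agent.Helper69.RK Pool.Agent.Helper31.EC Pool.Agent.Helper25.EC

noncomputable section

variable {S T : Sp} {N D : ℕ}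

/-- informations on an event of probability `P` are at most `1 / P` times the old ones -/
theorem rest_I_le (E : ∀ k, (T.F k).Ω → Prop) (hE : 0 < ul (T.pr E)) (x y z : T.L) :
    ul (T.pr E) * I (Sp.restL E hE x) (Sp.restL E hE y) (Sp.restL E hE z) ≤ I x y z := by
  rcases Sp.typ_or E with ht | hE'
  · have h1 := Sp.ul_pr_typ E ht
    have h2 : I (Sp.restL E hE x) (Sp.restL E hE y) (Sp.restL E hE z) = I x y z := by
      unfold I
      rw [← Sp.restL_sup, ← Sp.restL_sup, ← Sp.restL_sup, ← Sp.restL_sup, Sp.H_restL_typ E ht, Sp.H_restL_typ E ht,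
        Sp.H_restL_typ E ht, Sp.H_restL_typ E ht]
    rw [h1, h2, one_mul]
  · have h1 := Sp.I_split E hE hE' x y z
    have h2 := I_nonneg (Sp.restL (fun k ω => ¬ E k ω) hE' x) (Sp.restL (fun k ω => ¬ E k ω) hE' y)
      (Sp.restL (fun k ω => ¬ E k ω) hE' z)
    have h3 : 0 ≤ 1 - ul (T.pr E) := by linarith [Sp.ul_pr_le_one E]
    nlinarith [mul_nonneg h3 h2]

/-- deficits on an event of probability `P` are at most `1 / P` times the old ones -/
theorem rest_h_ge (E : ∀ k, (T.F k).Ω → Prop) (hE : 0 < ul (T.pr E)) (x c : T.L) (M : ℝ)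
    (hM : ∀ (E' : ∀ k, (T.F k).Ω → Prop) (hE' : 0 < ul (T.pr E')), h (Sp.restL E' hE' x) (Sp.restL E' hE' c) ≤ M) :
    h x c - (1 - ul (T.pr E)) * M ≤ ul (T.pr E) * h (Sp.restL E hE x) (Sp.restL E hE c) := by
  rcases Sp.typ_or E with ht | hE'
  · have h1 := Sp.ul_pr_typ E ht
    have h2 : h (Sp.restL E hE x) (Sp.restL E hE c) = h x c := by
      unfold h
      rw [← Sp.restL_sup, Sp.H_restL_typ E ht, Sp.H_restL_typ E ht]
    rw [h1, h2]
    linarith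
  · have h1 := Sp.h_split E hE hE' x c
    have h2 := hM _ hE'
    have h3 : 0 ≤ 1 - ul (T.pr E) := by linarith [Sp.ul_pr_le_one E]
    nlinarith [mul_le_mul_of_nonneg_left h2 h3]

/-- BLINDNESS from a small information, with loss `1 / p` -/
theorem bl_of_I {m : ℕ} (y : S.VV m) (F Yt : S.L) (g p ε : ℝ) (hp : 0 < p) (hYt : y.dg g ≤ Yt)
    (h1 : m * g - ε ≤ H (y.dg g)) (h2 : I F Yt ⊥ ≤ ε) : Bl y F Yt g p (2 * ε / p) := by
  have hε : 0 ≤ ε := (I_nonneg _ _ _).trans h2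
  intro T π E hE hpE
  set P := ul (T.pr E) with hP
  have hP1 : P ≤ 1 := Sp.ul_pr_le_one E
  constructor
  · intro s e hs he hse
    -- fullness given F
    have a0 : m * g - 2 * ε ≤ h (y.dg g) F := by
      have b1 : I F (y.dg g) ⊥ ≤ ε := (I_mono_right (by rw [sup_bot_eq]; exact hYt)).trans h2
      have b2 := I_eq' F (y.dg g) ⊥
      rw [h_bot, sup_bot_eq] at b2
      linarith
    have a1 : m * e - 2 * ε ≤ h (y.dg (s + e)) (y.dg s ⊔ F) := by
      have c1 : y.dg s ⊔ y.dg (s + e) = y.dg (s + e) := sup_eq_right.mpr (y.dg_mono (by linarith))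
      have c2 : y.dg (s + e) ⊔ y.dg g = y.dg g := sup_eq_right.mpr (y.dg_mono hse)
      have b1 := h_chain (y.dg (s + e)) (y.dg g) F
      rw [c2] at b1
      have b2 := h_chain (y.dg s) (y.dg (s + e)) F
      rw [c1] at b2
      have b3 : h (y.dg s) F ≤ m * s := (h_le_H _ _).trans (y.H_dg_le hs)
      have b4 : h (y.dg g) (y.dg (s + e) ⊔ F) ≤ m * (g - (s + e)) := (h_anti le_sup_left).trans (y.h_dg_dg hse)
      nlinarith
    have a2 := rest_h_ge E hE (π.map (y.dg (s + e))) (π.map (y.dg s) ⊔ π.map F) (m * e) (fun E' hE' => by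
      rw [Sp.restL_sup, Pj.map_dg, Pj.map_dg, ← Sp.VV.rest_dg E' hE', ← Sp.VV.rest_dg E' hE']
      refine (h_anti le_sup_left).trans ?_
      have := ((π.vv y).rest E').h_dg_dg (show s ≤ s + e by linarith)
      rwa [add_sub_cancel_left] at this)
    rw [← Pj.map_sup, Pj.h_map, Pj.map_sup, Sp.restL_sup] at a2
    have a3 : P * (m * e - 2 * ε / p) ≤ P * h (Sp.restL E hE (π.map (y.dg (s + e))))
        (Sp.restL E hE (π.map (y.dg s)) ⊔ Sp.restL E hE (π.map F)) := by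
      refine le_trans ?_ a2
      have e1 : 2 * ε ≤ P * (2 * ε / p) := by
        rw [← mul_div_assoc, le_div_iff₀ hp]
        nlinarith
      nlinarith
    exact le_of_mul_le_mul_left a3 hE
  · intro s hs hsg
    have b1 : I F Yt (y.dg s) ≤ ε := by
      have c1 : I Yt F (y.dg s ⊔ ⊥) ≤ I Yt F ⊥ := I_cond_le ((y.dg_mono hsg).trans hYt)
      rw [sup_bot_eq, I_comm, I_comm Yt F ⊥] at c1
      exact c1.trans h2
    have b2 := rest_I_le E hE (π.map F) (π.map Yt) (π.map (y.dg s))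
    rw [Pj.I_map] at b2
    have b3 : P * I (Sp.restL E hE (π.map F)) (Sp.restL E hE (π.map Yt)) (Sp.restL E hE (π.map (y.dg s))) ≤
        P * (2 * ε / p) := by
      refine (b2.trans b1).trans ?_
      rw [← mul_div_assoc, le_div_iff₀ hp]
      nlinarith
    exact le_of_mul_le_mul_left b3 hE

/-- agreement of the sheets of all pairs of points with the same `V` makes the sheet a function of `V` -/
theorem exact_of_agree (y : S.VV (N + 1)) (z : TR S) (f : Mon (N + 1) D → TR S) (g s q : ℝ)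
    (hmain : ∀ (T : Sp) (a b : Pj T S),
      (∀ᶠ k in UF, ∀ ω, (T.F k).μ ω ≠ 0 → ∀ i, |(a.vv y).v k ω i - (b.vv y).v k ω i| ≤ T.dl g k) →
      (∀ᶠ k in UF, ∀ ω, (T.F k).μ ω ≠ 0 → |TR.ev (a.tr z) k ω - TR.ev (b.tr z) k ω| ≤ T.dl g k) →
      ul (T.pr (fun k ω => ∃ i, T.dl s k < |TR.ev (b.tr (f i) - a.tr (f i)) k ω|)) ≤ q)
    {α : ℕ → Type} (V : ∀ k, (S.F k).Ω → α k) (hV : Sp.Bdd V)
    (hcl : ∀ᶠ k in UF, ∀ ω ω', (S.F k).μ ω ≠ 0 → (S.F k).μ ω' ≠ 0 → (S.F k).Z ω ω' → V k ω = V k ω' →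
      (∀ i, |y.v k ω i - y.v k ω' i| ≤ S.dl g k) ∧ |TR.ev z k ω - TR.ev z k ω'| ≤ S.dl g k) :
    ∃ E : ∀ k, (S.F k).Ω → Prop, 1 - q ≤ ul (S.pr E) ∧
      ∀ (F : ∀ k, (S.F k).Ω → Prop) (hF : 0 < ul (S.pr F)), (∀ k ω, F k ω → E k ω) →
        Sp.restL F hF ((cv f).dg s) ≤ Sp.restL F hF (Sp.io V) := by
  have hfst : ∀ k w, ((two V).F k).μ w ≠ 0 → V k ((two1 V).π k w) = V k ((two2 V).π k w) :=
    fun k w hw => Pj.join_supp (Pj.id S) V k w hw
  have hbase : ∀ k w, ((two V).F k).μ w ≠ 0 → (S.F k).Z ((two1 V).π k w) ((two2 V).π k w) := by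
    intro k w hw
    have h1 := (((Pj.id S).join V).supp k w hw).1
    have h2 : (V k w.1, Quotient.mk (S.F k).Z w.1) = (V k w.2, Quotient.mk (S.F k).Z w.2) := h1
    rw [Prod.mk.injEq] at h2
    exact Quotient.exact h2.2
  have hb : ∀ᶠ k in UF, ∀ w, ((two V).F k).μ w ≠ 0 →
      (∀ i, |y.v k ((two1 V).π k w) i - y.v k ((two2 V).π k w) i| ≤ S.dl g k) ∧
        |TR.ev z k ((two1 V).π k w) - TR.ev z k ((two2 V).π k w)| ≤ S.dl g k := by
    filter_upwards [hcl] with k hk w hw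
    exact hk _ _ ((two1 V).supp k w hw) ((two2 V).supp k w hw) (hbase k w hw) (hfst k w hw)
  have h1 := hmain (two V) (two1 V) (two2 V)
    (by
      filter_upwards [hb] with k hk w hw i
      rw [dl_pj (two1 V)]
      exact (hk w hw).1 i)
    (by
      filter_upwards [hb] with k hk w hw
      rw [dl_pj (two1 V)]
      exact (hk w hw).2)
  obtain ⟨E, hE1, -, hE3⟩ := agree_one V hV (cv f) s (fun _ => 1) (S.Sub_const zero_le_one)
  refine ⟨E, ?_, hE3⟩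
  have h2 : ∀ k, (S.F k).pb (fun ω => ¬ E k ω) ≤
      (two V).pr (fun k w => ∃ i, (two V).dl s k <
        |TR.ev ((two2 V).tr (f i) - (two1 V).tr (f i)) k w|) k := by
    intro k
    refine (hE1 k).trans ?_
    refine FSp.pb_mono _ fun w _ hw => ?_
    push Not at hw
    obtain ⟨i, hi⟩ := hw
    refine ⟨(Fintype.equivFin (Mon (N + 1) D)).symm i, ?_⟩
    rw [one_mul] at hi
    rw [dl_pj (two1 V), abs_sub_comm] at *
    exact hi
  have h3 := ul_mono (Sp.UB_pr (fun k ω => ¬ E k ω)) (Sp.UB_pr _) (Eventually.of_forall h2)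
  rw [Sp.ul_pr_compl] at h3
  linarith

/-- STATIC SHEET LEMMA, exact form: `V` is any variable which determines the base and `z` up to level `g`; there is an
event of probability at least `1 - C (g / R) p` on which (and on all subevents of which) the coefficients of the sheet
up to level `g - R` are a function of `V`. -/
theorem ssl_exact (N D : ℕ) (ρ : ℝ) (hρ : 0 < ρ) (hρ1 : ρ ≤ 1) : ∃ C : ℝ, 1 ≤ C ∧
    ∀ (S : Sp) (y : S.VV (N + 1)) (z : TR S) (f : Mon (N + 1) D → TR S) (Yt : S.L) (g R p κ ε : ℝ),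
    0 < R → R ≤ g → 0 ≤ p → C * ε ≤ R → C * κ ≤ R → y.dg g ≤ Yt → TR.Ag g z (pe f (TR.cor y)) →
    Bl y ((cv f).dg g) Yt g p ε → DD Yt z g p ρ κ →
    ∀ {α : ℕ → Type} (V : ∀ k, (S.F k).Ω → α k), Sp.Bdd V →
    (∀ᶠ k in UF, ∀ ω ω', (S.F k).μ ω ≠ 0 → (S.F k).μ ω' ≠ 0 → (S.F k).Z ω ω' → V k ω = V k ω' →
      (∀ i, |y.v k ω i - y.v k ω' i| ≤ S.dl g k) ∧ |TR.ev z k ω - TR.ev z k ω'| ≤ S.dl g k) →
    ∃ E : ∀ k, (S.F k).Ω → Prop, 1 - C * (g / R) * p ≤ ul (S.pr E) ∧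
      ∀ (F : ∀ k, (S.F k).Ω → Prop) (hF : 0 < ul (S.pr F)), (∀ k ω, F k ω → E k ω) →
        Sp.restL F hF ((cv f).dg (g - R)) ≤ Sp.restL F hF (Sp.io V) := by
  obtain ⟨C, hC, hmain⟩ := ssl N D ρ hρ hρ1
  exact ⟨C, hC, fun S y z f Yt g R p κ ε hR hRg hp hε hκ hYt hz hBl hDD α V hV hcl =>
    exact_of_agree y z f g (g - R) _ (hmain S y z f Yt g R p κ ε hR hRg hp hε hκ hYt hz hBl hDD) V hV hcl⟩

/-- STATIC SHEET LEMMA, exact form, deficit on the levels between `L` and `g` only -/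
theorem ssl_exactL (N D : ℕ) (ρ : ℝ) (hρ : 0 < ρ) (hρ1 : ρ ≤ 1) : ∃ C : ℝ, 1 ≤ C ∧
    ∀ (S : Sp) (y : S.VV (N + 1)) (z : TR S) (f : Mon (N + 1) D → TR S) (Yt : S.L) (L g R p κ ε : ℝ),
    0 < R → 0 ≤ L → L + R ≤ g → 0 ≤ p → C * ε ≤ R → C * κ ≤ R → y.dg g ≤ Yt → TR.Ag g z (pe f (TR.cor y)) →
    Bl y ((cv f).dg g) Yt g p ε → DDL Yt z L g p ρ κ →
    ∀ {α : ℕ → Type} (V : ∀ k, (S.F k).Ω → α k), Sp.Bdd V →
    (∀ᶠ k in UF, ∀ ω ω', (S.F k).μ ω ≠ 0 → (S.F k).μ ω' ≠ 0 → (S.F k).Z ω ω' → V k ω = V k ω' →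
      (∀ i, |y.v k ω i - y.v k ω' i| ≤ S.dl g k) ∧ |TR.ev z k ω - TR.ev z k ω'| ≤ S.dl g k) →
    ∃ E : ∀ k, (S.F k).Ω → Prop, 1 - C * (g / R) ^ pw N D * p ≤ ul (S.pr E) ∧
      ∀ (F : ∀ k, (S.F k).Ω → Prop) (hF : 0 < ul (S.pr F)), (∀ k ω, F k ω → E k ω) →
        Sp.restL F hF ((cv f).dg (g - R)) ≤ Sp.restL F hF (Sp.io V) := by
  obtain ⟨C, hC, hmain⟩ := sslL N D ρ hρ hρ1
  exact ⟨C, hC, fun S y z f Yt L g R p κ ε hR hL hLR hp hε hκ hYt hz hBl hDD α V hV hcl =>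
    exact_of_agree y z f g (g - R) _ (hmain S y z f Yt L g R p κ ε hR hL hLR hp hε hκ hYt hz hBl hDD) V hV hcl⟩

/-- STATIC SHEET LEMMA for labels without leak: `A` (the line) and the height `Tt` determine `V` (the point), and the
coefficients are independent of the height given `A`: the coefficients up to level `g - R` are a function of `V` and a
function of `A` on an event of large probability. -/
theorem ssl_main (N D : ℕ) (ρ : ℝ) (hρ : 0 < ρ) (hρ1 : ρ ≤ 1) : ∃ C : ℝ, 1 ≤ C ∧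
    ∀ (S : Sp) (y : S.VV (N + 1)) (z : TR S) (f : Mon (N + 1) D → TR S) (Yt A Tt : S.L) (g R p κ ε : ℝ),
    0 < R → R ≤ g → 0 < p → C * ε ≤ p * R → C * κ ≤ R → y.dg g ≤ Yt → TR.Ag g z (pe f (TR.cor y)) →
    (N + 1) * g - ε ≤ H (y.dg g) → I ((cv f).dg g) Yt ⊥ ≤ ε → DD Yt z g p ρ κ →
    I ((cv f).dg (g - R)) Tt A = 0 →
    ∀ {α : ℕ → Type} (V : ∀ k, (S.F k).Ω → α k), Sp.Bdd V → Sp.io V ≤ Tt ⊔ A →
    (∀ᶠ k in UF, ∀ ω ω', (S.F k).μ ω ≠ 0 → (S.F k).μ ω' ≠ 0 → (S.F k).Z ω ω' → V k ω = V k ω' →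
      (∀ i, |y.v k ω i - y.v k ω' i| ≤ S.dl g k) ∧ |TR.ev z k ω - TR.ev z k ω'| ≤ S.dl g k) →
    ∃ E : ∀ k, (S.F k).Ω → Prop, 1 - C * (g / R) * p ≤ ul (S.pr E) ∧
      ∀ (F : ∀ k, (S.F k).Ω → Prop) (hF : 0 < ul (S.pr F)), (∀ k ω, F k ω → E k ω) →
        Sp.restL F hF ((cv f).dg (g - R)) ≤ Sp.restL F hF (Sp.io V) ∧
        Sp.restL F hF ((cv f).dg (g - R)) ≤ Sp.restL F hF A := by
  obtain ⟨C, hC, hmain⟩ := ssl_exact N D ρ hρ hρ1
  refine ⟨2 * C, by linarith, ?_⟩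
  intro S y z f Yt A Tt g R p κ ε hR hRg hp hε hκ hYt hz hfull hI hDD hA α V hV hVA hcl
  have hε0 : 0 ≤ ε := (I_nonneg _ _ _).trans hI
  have hBl := bl_of_I y ((cv f).dg g) Yt g p ε hp hYt (by push_cast; exact hfull) hI
  have hκ' : C * κ ≤ R := by
    rcases le_or_gt κ 0 with h0 | h0
    · have : C * κ ≤ 0 := mul_nonpos_of_nonneg_of_nonpos (by linarith) h0
      linarith
    · nlinarith
  obtain ⟨E, hE, hEF⟩ := hmain S y z f Yt g R p κ (2 * ε / p) hR hRg hp.le (by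
    rw [← mul_div_assoc, div_le_iff₀ hp]
    linarith) hκ' hYt hz hBl hDD V hV hcl
  refine ⟨E, ?_, fun F hF hFE => ⟨hEF F hF hFE, ?_⟩⟩
  · have h1 : 0 ≤ C * (g / R) * p := by
      have : 0 ≤ g / R := div_nonneg (by linarith) hR.le
      positivity
    linarith
  · have h1 := hEF F hF hFE
    have h2 := Sp.I_rest_zero F hF hA
    have h3 : Sp.restL F hF (Sp.io V) ≤ Sp.restL F hF Tt ⊔ Sp.restL F hF A := by
      rw [← Sp.restL_sup]
      exact Sp.restL_mono F hF hVA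
    exact le_of_I_zero (h1.trans h3) h2

/-- STATIC SHEET LEMMA for labels without leak, deficit on the levels between `L` and `g` only: `A` (the line) and the height `Tt` determine `V` (the point), and the
coefficients are independent of the height given `A`: the coefficients up to level `g - R` are a function of `V` and a
function of `A` on an event of large probability. -/
theorem ssl_mainL (N D : ℕ) (ρ : ℝ) (hρ : 0 < ρ) (hρ1 : ρ ≤ 1) : ∃ C : ℝ, 1 ≤ C ∧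
    ∀ (S : Sp) (y : S.VV (N + 1)) (z : TR S) (f : Mon (N + 1) D → TR S) (Yt A Tt : S.L) (L g R p κ ε : ℝ),
    0 < R → 0 ≤ L → L + R ≤ g → 0 < p → C * ε ≤ p * R → C * κ ≤ R → y.dg g ≤ Yt → TR.Ag g z (pe f (TR.cor y)) →
    (N + 1) * g - ε ≤ H (y.dg g) → I ((cv f).dg g) Yt ⊥ ≤ ε → DDL Yt z L g p ρ κ →
    I ((cv f).dg (g - R)) Tt A = 0 →
    ∀ {α : ℕ → Type} (V : ∀ k, (S.F k).Ω → α k), Sp.Bdd V → Sp.io V ≤ Tt ⊔ A →
    (∀ᶠ k in UF, ∀ ω ω', (S.F k).μ ω ≠ 0 → (S.F k).μ ω' ≠ 0 → (S.F k).Z ω ω' → V k ω = V k ω' →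
      (∀ i, |y.v k ω i - y.v k ω' i| ≤ S.dl g k) ∧ |TR.ev z k ω - TR.ev z k ω'| ≤ S.dl g k) →
    ∃ E : ∀ k, (S.F k).Ω → Prop, 1 - C * (g / R) ^ pw N D * p ≤ ul (S.pr E) ∧
      ∀ (F : ∀ k, (S.F k).Ω → Prop) (hF : 0 < ul (S.pr F)), (∀ k ω, F k ω → E k ω) →
        Sp.restL F hF ((cv f).dg (g - R)) ≤ Sp.restL F hF (Sp.io V) ∧
        Sp.restL F hF ((cv f).dg (g - R)) ≤ Sp.restL F hF A := by
  obtain ⟨C, hC, hmain⟩ := ssl_exactL N D ρ hρ hρ1
  refine ⟨2 * C, by linarith, ?_⟩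
  intro S y z f Yt A Tt L g R p κ ε hR hL hLR hp hε hκ hYt hz hfull hI hDD hA α V hV hVA hcl
  have hε0 : 0 ≤ ε := (I_nonneg _ _ _).trans hI
  have hBl := bl_of_I y ((cv f).dg g) Yt g p ε hp hYt (by push_cast; exact hfull) hI
  have hκ' : C * κ ≤ R := by
    rcases le_or_gt κ 0 with h0 | h0
    · have : C * κ ≤ 0 := mul_nonpos_of_nonneg_of_nonpos (by linarith) h0
      linarith
    · nlinarith
  obtain ⟨E, hE, hEF⟩ := hmain S y z f Yt L g R p κ (2 * ε / p) hR hL hLR hp.le (by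
    rw [← mul_div_assoc, div_le_iff₀ hp]
    linarith) hκ' hYt hz hBl hDD V hV hcl
  refine ⟨E, ?_, fun F hF hFE => ⟨hEF F hF hFE, ?_⟩⟩
  · have h1 : 0 ≤ C * (g / R) ^ pw N D * p := by
      have : 0 ≤ g / R := div_nonneg (by linarith) hR.le
      positivity
    linarith
  · have h1 := hEF F hF hFE
    have h2 := Sp.I_rest_zero F hF hA
    have h3 : Sp.restL F hF (Sp.io V) ≤ Sp.restL F hF Tt ⊔ Sp.restL F hF A := by
      rw [← Sp.restL_sup]
      exact Sp.restL_mono F hF hVA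
    exact le_of_I_zero (h1.trans h3) h2

end

end Pool.Agent.Helper97.SL
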