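import Pool.Agent.Helper97.SL.Full
import Pool.Agent.Helper31.EC.AmS
import Pool.Agent.Helper31.EC.DensS

/-! The projection between the restricted spaces; entropies of almost full variables. (SSL, tools) -/

set_option autoImplicit false

namespace Pool.Agent.Helper97.SL

open Finset Filter Topology
open Pool.Agent.Helper3.LF Pool.Agent.Helper69.RK Pool.Agent.Helper31.EC

noncomputable section

variable {T S : Sp}

theorem push_res {Ω Ω' : Type} [Fintype Ω] [Fintype Ω'] (π : Ω' → Ω) (μ' : Ω' → ℝ) (E : Ω → Prop) :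
    push π (res μ' (fun ω => E (π ω))) = res (push π μ') E := by
  classical
  funext ω
  unfold push res
  by_cases hE : E ω
  · rw [if_pos hE]
    refine Finset.sum_congr rfl fun x _ => ?_
    by_cases hx : π x = ω
    · subst hx
      simp [hE]
    · simp [hx]
  · rw [if_neg hE]
    refine Finset.sum_eq_zero fun x _ => ?_
    by_cases hx : π x = ω
    · subst hx
      simp [hE]
    · simp [hx]

theorem pb_comp (p : Pj T S) (E : ∀ k, (S.F k).Ω → Prop) (k : ℕ) :
    (T.F k).pb (fun ω => E k (p.π k ω)) = (S.F k).pb (E k) := by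
  unfold FSp.pb
  rw [← p.law k, ← push_res, push_ms]
  intro ω
  exact (T.F k).res_nonneg _ ω

theorem pr_comp (p : Pj T S) (E : ∀ k, (S.F k).Ω → Prop) : T.pr (fun k ω => E k (p.π k ω)) = S.pr E := by
  funext k
  exact pb_comp p E k

/-- the projection between the restricted spaces -/
def rj (p : Pj T S) (E : ∀ k, (S.F k).Ω → Prop) : Pj (T.rest (fun k ω => E k (p.π k ω))) (S.rest E) where
  π := p.π
  law := by
    intro k
    show push (p.π k) ((T.F k).restμ (fun ω => E k (p.π k ω))) = (S.F k).restμ (E k)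
    by_cases h0 : (S.F k).pb (E k) = 0
    · have h1 : (T.F k).pb (fun ω => E k (p.π k ω)) = 0 := by rw [pb_comp]; exact h0
      rw [FSp.restμ_eq' _ _ h0, FSp.restμ_eq' _ _ h1]
      exact p.law k
    · have h1 : (T.F k).pb (fun ω => E k (p.π k ω)) ≠ 0 := by rw [pb_comp]; exact h0
      rw [FSp.restμ_eq _ _ h0, FSp.restμ_eq _ _ h1, pb_comp, ← p.law k, ← push_res]
      funext ω
      unfold push
      rw [Finset.mul_sum]
      refine Finset.sum_congr rfl fun x _ => ?_
      split_ifs
      · rfl
      · rw [mul_zero]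
  hZ := fun k ω ω' h h' => p.hZ k ω ω' ((T.F k).rest_supp _ ω h).1 ((T.F k).rest_supp _ ω' h').1
  hn := p.hn

theorem rj_pos (p : Pj T S) (E : ∀ k, (S.F k).Ω → Prop) (hE : 0 < ul (S.pr E)) :
    0 < ul (T.pr (fun k ω => E k (p.π k ω))) := by
  rw [pr_comp]
  exact hE

theorem rj_map (p : Pj T S) (E : ∀ k, (S.F k).Ω → Prop) (hE : 0 < ul (S.pr E)) (x : S.L) :
    (rj p E).map (Sp.restL E hE x) = Sp.restL _ (rj_pos p E hE) (p.map x) := by
  induction x using Sp.cl_ind with
  | h A => rfl

end

end Pool.Agent.Helper97.SL
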