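import Pool.Agent.Helper97.SL.Nsh

/-! Row `B_NSH`: in the frozen structure of case B the fresh form `OutZ` of the output gives the literal form `OutL`
(window `0`). -/

set_option autoImplicit false

namespace Pool.Agent.Helper97.SL

open Finset Filter Topology
open Pool.Agent.Helper3.LF Pool.Agent.Helper69.RK Pool.Agent.Helper31.EC Pool.Agent.Helper25.EC
open Pool.Agent.Helper82.TP Pool.Agent.Helper31.NSB

noncomputable section

open QS

/-! ### polynomials in box coordinates -/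

section ring
variable {A B : Type*} [CommRing A] [CommRing B] {D : ℕ}

/-- the polynomial with given coefficients -/
def bxP (c : Mon 3 D → A) : MvPolynomial (Fin 3) A := ∑ a, MvPolynomial.monomial (tf a) (c a)

theorem map_bxP (φ : A →+* B) (c : Mon 3 D → A) : MvPolynomial.map φ (bxP c) = bxP fun a => φ (c a) := by
  unfold bxP
  rw [map_sum]
  exact Finset.sum_congr rfl fun a _ => MvPolynomial.map_monomial _ _ _

theorem eval_bxP (c : Mon 3 D → A) (x : Fin 3 → A) : MvPolynomial.eval x (bxP c) = ∑ a, c a * ∏ i, x i ^ ((a.1 i : ℕ)) := by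
  unfold bxP
  rw [map_sum]
  refine Finset.sum_congr rfl fun a _ => ?_
  rw [MvPolynomial.eval_monomial, Finsupp.prod_fintype _ _ (fun i => pow_zero _)]
  rfl

/-- the coordinates `t, y, R` as polynomials in the box coordinates -/
def bxu (t0 y0 r0 rt ry : A) : Fin 3 → MvPolynomial (Fin 3) A :=
  ![MvPolynomial.C t0 + MvPolynomial.X 0, MvPolynomial.C y0 + MvPolynomial.X 1,
    MvPolynomial.C (r0 + rt * t0 + ry * y0) + MvPolynomial.C rt * MvPolynomial.X 0 +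
      MvPolynomial.C ry * MvPolynomial.X 1 + MvPolynomial.X 2]

theorem map_bxu (φ : A →+* B) (t0 y0 r0 rt ry : A) (i : Fin 3) :
    MvPolynomial.map φ (bxu t0 y0 r0 rt ry i) = bxu (φ t0) (φ y0) (φ r0) (φ rt) (φ ry) i := by
  unfold bxu
  fin_cases i
  · show MvPolynomial.map φ (MvPolynomial.C t0 + MvPolynomial.X 0) = MvPolynomial.C (φ t0) + MvPolynomial.X 0
    rw [map_add, MvPolynomial.map_C, MvPolynomial.map_X]
  · show MvPolynomial.map φ (MvPolynomial.C y0 + MvPolynomial.X 1) = MvPolynomial.C (φ y0) + MvPolynomial.X 1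
    rw [map_add, MvPolynomial.map_C, MvPolynomial.map_X]
  · show MvPolynomial.map φ (MvPolynomial.C (r0 + rt * t0 + ry * y0) + MvPolynomial.C rt * MvPolynomial.X 0 +
      MvPolynomial.C ry * MvPolynomial.X 1 + MvPolynomial.X 2) = MvPolynomial.C (φ r0 + φ rt * φ t0 + φ ry * φ y0) +
      MvPolynomial.C (φ rt) * MvPolynomial.X 0 + MvPolynomial.C (φ ry) * MvPolynomial.X 1 + MvPolynomial.X 2
    simp only [map_add, map_mul, MvPolynomial.map_C, MvPolynomial.map_X]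

theorem bxu_deg (t0 y0 r0 rt ry : A) (i : Fin 3) : (bxu t0 y0 r0 rt ry i).totalDegree ≤ 1 := by
  have hX : ∀ j : Fin 3, (MvPolynomial.X j : MvPolynomial (Fin 3) A).totalDegree ≤ 1 := by
    intro j
    have h1 : (MvPolynomial.X j : MvPolynomial (Fin 3) A) = MvPolynomial.monomial (Finsupp.single j 1) 1 := rfl
    rw [h1]
    refine (MvPolynomial.totalDegree_monomial_le _ _).trans ?_
    rw [Finsupp.sum_single_index rfl, id]
  have hC : ∀ a : A, (MvPolynomial.C a : MvPolynomial (Fin 3) A).totalDegree ≤ 1 := by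
    intro a
    rw [MvPolynomial.totalDegree_C]
    exact Nat.zero_le _
  have hm : ∀ (a : A) (j : Fin 3), (MvPolynomial.C a * MvPolynomial.X j : MvPolynomial (Fin 3) A).totalDegree ≤ 1 := by
    intro a j
    refine (MvPolynomial.totalDegree_mul _ _).trans ?_
    rw [MvPolynomial.totalDegree_C, zero_add]
    exact hX j
  have ha : ∀ u v : MvPolynomial (Fin 3) A, u.totalDegree ≤ 1 → v.totalDegree ≤ 1 → (u + v).totalDegree ≤ 1 :=
    fun u v h1 h2 => (MvPolynomial.totalDegree_add _ _).trans (max_le h1 h2)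
  unfold bxu
  fin_cases i
  · exact ha _ _ (hC _) (hX _)
  · exact ha _ _ (hC _) (hX _)
  · exact ha _ _ (ha _ _ (ha _ _ (hC _) (hm _ _)) (hm _ _)) (hX _)

theorem eval_bxu {t0 y0 r0 rt ry t y R : A} {x : Fin 3 → A} (h0 : t - t0 = x 0) (h1 : y - y0 = x 1)
    (h2 : R - (r0 + rt * t + ry * y) = x 2) (i : Fin 3) :
    MvPolynomial.eval x (bxu t0 y0 r0 rt ry i) = (![t, y, R] : Fin 3 → A) i := by
  unfold bxu
  fin_cases i
  · show MvPolynomial.eval x (MvPolynomial.C t0 + MvPolynomial.X 0) = t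
    rw [map_add, MvPolynomial.eval_C, MvPolynomial.eval_X, ← h0]
    ring
  · show MvPolynomial.eval x (MvPolynomial.C y0 + MvPolynomial.X 1) = y
    rw [map_add, MvPolynomial.eval_C, MvPolynomial.eval_X, ← h1]
    ring
  · show MvPolynomial.eval x (MvPolynomial.C (r0 + rt * t0 + ry * y0) + MvPolynomial.C rt * MvPolynomial.X 0 +
      MvPolynomial.C ry * MvPolynomial.X 1 + MvPolynomial.X 2) = R
    simp only [map_add, map_mul, MvPolynomial.eval_C, MvPolynomial.eval_X]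
    rw [← h0, ← h1, ← h2]
    ring

/-- the polynomial in box coordinates, minus the frame -/
def bxQ (t0 y0 r0 rt ry z0 k0 k1 c : A) (a : Mon 3 D → A) : MvPolynomial (Fin 3) A :=
  MvPolynomial.bind₁ (bxu t0 y0 r0 rt ry) (bxP a) - (MvPolynomial.C z0 +
    MvPolynomial.C k0 * bxu t0 y0 r0 rt ry 0 + MvPolynomial.C k1 * bxu t0 y0 r0 rt ry 1 +
    MvPolynomial.C c * bxu t0 y0 r0 rt ry 2)

theorem map_bxQ (φ : A →+* B) (t0 y0 r0 rt ry z0 k0 k1 c : A) (a : Mon 3 D → A) :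
    MvPolynomial.map φ (bxQ t0 y0 r0 rt ry z0 k0 k1 c a) =
      bxQ (φ t0) (φ y0) (φ r0) (φ rt) (φ ry) (φ z0) (φ k0) (φ k1) (φ c) fun i => φ (a i) := by
  unfold bxQ
  rw [map_sub, MvPolynomial.map_bind₁, map_bxP, map_add, map_add, map_add, map_mul, map_mul, map_mul,
    MvPolynomial.map_C, MvPolynomial.map_C, MvPolynomial.map_C, MvPolynomial.map_C, map_bxu, map_bxu, map_bxu]
  congr 3
  funext i
  exact map_bxu φ _ _ _ _ _ i

theorem eval_bxQ {t0 y0 r0 rt ry t y R : A} {x : Fin 3 → A} (h0 : t - t0 = x 0) (h1 : y - y0 = x 1)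
    (h2 : R - (r0 + rt * t + ry * y) = x 2) (z0 k0 k1 c : A) (a : Mon 3 D → A) :
    MvPolynomial.eval x (bxQ t0 y0 r0 rt ry z0 k0 k1 c a) =
      (∑ i, a i * ∏ j, (![t, y, R] : Fin 3 → A) j ^ ((i.1 j : ℕ))) - (z0 + k0 * t + k1 * y + c * R) := by
  have hb : MvPolynomial.eval x (MvPolynomial.bind₁ (bxu t0 y0 r0 rt ry) (bxP a)) =
      MvPolynomial.eval (![t, y, R] : Fin 3 → A) (bxP a) := by
    show MvPolynomial.eval₂Hom (RingHom.id A) x (MvPolynomial.bind₁ (bxu t0 y0 r0 rt ry) (bxP a)) = _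
    rw [MvPolynomial.eval₂Hom_bind₁]
    show MvPolynomial.eval₂Hom (RingHom.id A) (fun i => MvPolynomial.eval x (bxu t0 y0 r0 rt ry i)) (bxP a) = _
    have e : (fun i => MvPolynomial.eval x (bxu t0 y0 r0 rt ry i)) = (![t, y, R] : Fin 3 → A) := by
      funext i
      exact eval_bxu h0 h1 h2 i
    rw [e]
    rfl
  have e0 := eval_bxu h0 h1 h2 0
  have e1 := eval_bxu h0 h1 h2 1
  have e2 := eval_bxu h0 h1 h2 2
  unfold bxQ
  rw [map_sub, hb, eval_bxP, map_add, map_add, map_add, map_mul, map_mul, map_mul, MvPolynomial.eval_C,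
    MvPolynomial.eval_C, MvPolynomial.eval_C, MvPolynomial.eval_C, e0, e1, e2]
  rfl

theorem bxQ_deg (hD : 1 ≤ D) (t0 y0 r0 rt ry z0 k0 k1 c : A) (a : Mon 3 D → A) :
    (bxQ t0 y0 r0 rt ry z0 k0 k1 c a).totalDegree ≤ D := by
  have hu := bxu_deg t0 y0 r0 rt ry
  have ha : ∀ u v : MvPolynomial (Fin 3) A, u.totalDegree ≤ D → v.totalDegree ≤ D → (u + v).totalDegree ≤ D :=
    fun u v h1 h2 => (MvPolynomial.totalDegree_add _ _).trans (max_le h1 h2)
  have hm : ∀ (b : A) (i : Fin 3), (MvPolynomial.C b * bxu t0 y0 r0 rt ry i).totalDegree ≤ D := by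
    intro b i
    refine (MvPolynomial.totalDegree_mul _ _).trans ?_
    rw [MvPolynomial.totalDegree_C, zero_add]
    exact (hu i).trans hD
  unfold bxQ
  refine (MvPolynomial.totalDegree_sub _ _).trans (max_le ?_ (ha _ _ (ha _ _ (ha _ _ ?_ (hm _ _)) (hm _ _)) (hm _ _)))
  · unfold bxP
    rw [map_sum]
    apply MvPolynomial.totalDegree_finsetSum_le
    intro i _
    rw [MvPolynomial.bind₁_monomial]
    refine (MvPolynomial.totalDegree_mul _ _).trans ?_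
    rw [MvPolynomial.totalDegree_C, zero_add]
    rw [Finset.prod_subset (Finset.subset_univ _) (fun j _ hj => by
      rw [Finsupp.notMem_support_iff.mp hj, pow_zero])]
    refine (MvPolynomial.totalDegree_finsetProd _ _).trans ?_
    refine le_trans (Finset.sum_le_sum fun j _ => ?_) i.2
    refine (MvPolynomial.totalDegree_pow _ _).trans ?_
    calc tf i j * (bxu t0 y0 r0 rt ry j).totalDegree ≤ tf i j * 1 := Nat.mul_le_mul_left _ (hu j)
      _ = (i.1 j : ℕ) := by rw [mul_one, tf_apply]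
  · rw [MvPolynomial.totalDegree_C]
    exact Nat.zero_le _

end ring

variable {S : Sp}

/-- literal functions form a subring -/
def LitR {β : ℕ → Type} (V : ∀ k, (S.F k).Ω → β k) : Subring (QS S) where
  carrier := {f | Lit V f}
  mul_mem' := fun hf hg => Lit.mul hf hg
  one_mem' := ⟨1, map_one _, Eventually.of_forall fun _ _ _ _ _ _ _ => rfl⟩
  add_mem' := fun hf hg => Lit.add hf hg
  zero_mem' := ⟨0, map_zero _, Eventually.of_forall fun _ _ _ _ _ _ _ => rfl⟩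
  neg_mem' := fun hf => Lit.neg hf

/-- the coefficients in box coordinates are literal -/
theorem bxQ_lit {β : ℕ → Type} (V : ∀ k, (S.F k).Ω → β k) {D : ℕ} {t0 y0 r0 rt ry z0 k0 k1 c : QS S}
    {a : Mon 3 D → QS S} (h0 : Lit V t0) (h1 : Lit V y0) (h2 : Lit V r0) (h3 : Lit V rt) (h4 : Lit V ry)
    (h5 : Lit V z0) (h6 : Lit V k0) (h7 : Lit V k1) (h8 : Lit V c) (h9 : ∀ i, Lit V (a i)) (m : Fin 3 →₀ ℕ) :
    Lit V ((bxQ t0 y0 r0 rt ry z0 k0 k1 c a).coeff m) := by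
  have e := map_bxQ (LitR V).subtype ⟨t0, h0⟩ ⟨y0, h1⟩ ⟨r0, h2⟩ ⟨rt, h3⟩ ⟨ry, h4⟩ ⟨z0, h5⟩ ⟨k0, h6⟩ ⟨k1, h7⟩ ⟨c, h8⟩
    (fun i => (⟨a i, h9 i⟩ : LitR V))
  have e' : bxQ t0 y0 r0 rt ry z0 k0 k1 c a = MvPolynomial.map (LitR V).subtype
      (bxQ ⟨t0, h0⟩ ⟨y0, h1⟩ ⟨r0, h2⟩ ⟨rt, h3⟩ ⟨ry, h4⟩ ⟨z0, h5⟩ ⟨k0, h6⟩ ⟨k1, h7⟩ ⟨c, h8⟩
        (fun i => (⟨a i, h9 i⟩ : LitR V))) := by
    rw [e]
    rfl
  rw [e', MvPolynomial.coeff_map]
  exact (MvPolynomial.coeff m (bxQ _ _ _ _ _ _ _ _ _ _ : MvPolynomial (Fin 3) (LitR V))).2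

/-- close coefficients remain close -/
theorem bxQ_close {T : Sp} (φ : QS S →+* QS T) {r : ℝ} {D : ℕ} {a b : Mon 3 D → QS S}
    (h : ∀ i, φ (a i - b i) ∈ QS.Id T r) (t0 y0 r0 rt ry z0 k0 k1 c : QS S) (m : Fin 3 →₀ ℕ) :
    φ ((bxQ t0 y0 r0 rt ry z0 k0 k1 c a).coeff m - (bxQ t0 y0 r0 rt ry z0 k0 k1 c b).coeff m) ∈ QS.Id T r := by
  obtain ⟨ψ, hψ⟩ : ∃ ψ : QS S →+* QS T ⧸ QS.Id T r, ψ = (Ideal.Quotient.mk (QS.Id T r)).comp φ := ⟨_, rfl⟩
  have hz : ∀ u : QS S, φ u ∈ QS.Id T r ↔ ψ u = 0 := by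
    intro u
    rw [hψ]
    show _ ↔ Ideal.Quotient.mk (QS.Id T r) (φ u) = 0
    rw [Ideal.Quotient.eq_zero_iff_mem]
  have hab : (fun i => ψ (a i)) = fun i => ψ (b i) := by
    funext i
    have h1 := (hz _).mp (h i)
    rw [map_sub, sub_eq_zero] at h1
    exact h1
  rw [hz, map_sub, sub_eq_zero, ← MvPolynomial.coeff_map, ← MvPolynomial.coeff_map, map_bxQ, map_bxQ, hab]

/-- **ROW `B_NSH`**: a sheet in the fresh form is a sheet in the literal form, with arbitrarily small loss of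
precision. -/
theorem nsh {H : RD S} {f : FR S} {w1 w ρ : ℝ} {Sc : Set ℝ} (hc : CC H f w1 w ρ Sc) {D : ℕ} (hD : 1 ≤ D) {m v : ℝ}
    (ho : OutZ H D m v) {v' : ℝ} (h0 : 0 < v') (hv' : v' < v) : OutL H f w1 w D 0 0 v' := by
  classical
  have hB := hc.lB
  obtain ⟨hv, hvm, hm, W, p, V, g, hgV, hgD, hbl, hsh⟩ := ho
  have hv1 : v ≤ 1 := hvm.trans hm
  have hvd : ∀ r : ℝ, vd (![H.t, H.y, H.R] : Fin 3 → QS S) r = H.iso r := by
    intro r
    apply le_antisymm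
    · rw [vd_le]
      intro i
      unfold Pool.Agent.Helper79.NF.HD0.iso
      fin_cases i
      · exact le_sup_left.trans le_sup_left
      · exact le_sup_right.trans le_sup_left
      · exact le_sup_right
    · have g := dg_le_vd (![H.t, H.y, H.R] : Fin 3 → QS S) r
      exact sup_le (sup_le (g 0) (g 1)) (g 2)
  have hisom : ∀ {r s : ℝ}, r ≤ s → H.iso r ≤ H.iso s := by
    intro r s h
    unfold Pool.Agent.Helper79.NF.HD0.iso
    exact sup_le_sup (sup_le_sup (dg_mono _ h) (dg_mono _ h)) (dg_mono _ h)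
  have hfull1 : 3 ≤ PM.H (H.iso 1) := by
    have h1 := hc.full 0 hc.zero (by rw [mul_zero]; exact zero_le_one) S (Pj.id S) (fun _ _ => True)
      (Sp.ul_pr_typ_pos _ Sp.Typ_true)
    rw [Sp.h_restL_typ _ Sp.Typ_true, hc.κ0, Pj.map_bot, h_bot, Pj.H_map, mul_zero, sub_zero] at h1
    exact h1
  have hfull : ((2 : ℕ) + 1) * v ≤ PM.H (vd (![H.t, H.y, H.R] : Fin 3 → QS S) v) := by
    have h1 := h_dg_levels (bv (![H.t, H.y, H.R] : Fin 3 → QS S)) hv1
    rw [bv_dg _ le_rfl, bv_dg _ hv1, hvd 1] at h1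
    push_cast at h1 ⊢
    linarith
  obtain ⟨E, hE, cA, cB, hA, hB', hab, hz⟩ := fresh_lit (N := 2) (D := D) (VAs H 0) (VBs H 0)
    (y := (![H.t, H.y, H.R] : Fin 3 → QS S)) (z := H.z)
    (fun i => by
      have h1 : ∀ u : QS S, Lit H.VB u → Lit (VBs H 0) u := fun u hu =>
        hu.of_fun (Eventually.of_forall fun k ω ω' _ _ _ e => congrArg Prod.fst e)
      fin_cases i
      · exact h1 _ hB.1
      · exact h1 _ hB.2.1
      · exact h1 _ hB.2.2.1)
    (hB.2.2.2.of_fun (Eventually.of_forall fun k ω ω' _ _ _ e => congrArg Prod.fst e)) p V g 0 v ρ (v - v') le_rfl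
    (by linarith) (by linarith) hv1 hc.hρ (fun i => (dg_mono _ hv1).trans (hgV i)) hgD
    (by
      rw [hc.κ0, Pj.map_bot] at hbl
      refine le_antisymm ((I_mono_right ?_).trans hbl.le) (I_nonneg _ _ _)
      rw [sup_bot_eq, hvd]
      exact Pj.map_mono _ (hisom hvm)) hsh hfull
    (fun T q E hE a b h1 h2 h3 => by
      refine le_trans (h_anti (Sp.restL_mono E hE (q.map_mono (sup_le_sup_left ?_ _))))
        (hc.uns T q E hE a b h1 h2 (h3.trans hv1))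
      rw [hvd]
      exact hisom h3)
  have hvv : v - (v - v') = v' := by ring
  rw [hvv] at hab hz
  have hKA : ∀ u : QS S, Lit (H.K 0) u → Lit (VAs H 0) u := fun u hu =>
    hu.of_fun (Eventually.of_forall fun k ω ω' _ _ _ e => congrArg Prod.snd e)
  have hKB : ∀ u : QS S, Lit (H.K 0) u → Lit (VBs H 0) u := fun u hu =>
    hu.of_fun (Eventually.of_forall fun k ω ω' _ _ _ e => congrArg Prod.snd e)
  obtain ⟨a1, a2⟩ := hc.lt 0 hc.zero
  obtain ⟨a3, a4, a5⟩ := hc.lr 0 hc.zero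
  obtain ⟨a6, a7, a8, a9⟩ := hc.lz 0 hc.zero
  set x : Fin 3 → QS S := ![H.t - f.t0 0, H.y - f.y0 0, H.R - (f.r0 0 + f.rt 0 * H.t + f.ry 0 * H.y)] with hx
  have x0 : H.t - f.t0 0 = x 0 := rfl
  have x1 : H.y - f.y0 0 = x 1 := rfl
  have x2 : H.R - (f.r0 0 + f.rt 0 * H.t + f.ry 0 * H.y) = x 2 := rfl
  refine ⟨h0, le_rfl, by rw [mul_zero, zero_add]; linarith, E, hE,
    fun i => (bxQ (f.t0 0) (f.y0 0) (f.r0 0) (f.rt 0) (f.ry 0) (f.z0 0) (f.k0 0) (f.k1 0) (f.c 0) cA).coeff (tf i),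
    fun i => (bxQ (f.t0 0) (f.y0 0) (f.r0 0) (f.rt 0) (f.ry 0) (f.z0 0) (f.k0 0) (f.k1 0) (f.c 0) cB).coeff (tf i),
    x, fun i => ?_, fun i => ?_, fun i => ?_, ⟨?_, ?_, ?_⟩, ?_⟩
  · exact bxQ_lit _ (hKA _ a1) (hKA _ a2) (hKA _ a3) (hKA _ a4) (hKA _ a5) (hKA _ a6) (hKA _ a7) (hKA _ a8)
      (hKA _ a9) hA _
  · exact bxQ_lit _ (hKB _ a1) (hKB _ a2) (hKB _ a3) (hKB _ a4) (hKB _ a5) (hKB _ a6) (hKB _ a7) (hKB _ a8)
      (hKB _ a9) hB' _
  · rw [sub_self, mul_zero, zero_add]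
    exact bxQ_close (QS.rest E hE) hab _ _ _ _ _ _ _ _ _ _
  · rw [Pool.Agent.Helper57.TA.sc_zero, one_mul, x0]
  · rw [Pool.Agent.Helper57.TA.sc_zero, one_mul, x1]
  · rw [mul_zero, Pool.Agent.Helper57.TA.sc_zero, one_mul, x2]
  · rw [mul_zero, zero_add, Pool.Agent.Helper57.TA.sc_zero, one_mul]
    have e1 := eval_bxQ x0 x1 x2 (f.z0 0) (f.k0 0) (f.k1 0) (f.c 0) cB
    rw [eval_tf _ (bxQ_deg hD _ _ _ _ _ _ _ _ _ _)] at e1
    rw [e1]
    refine Eq.subst (motive := fun u => QS.rest E hE u ∈ QS.Id (S.rest E) v') ?_ hz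
    ring

/-- row `B_NSH` -/
theorem st_nsh : ST_NSH := by
  intro S H f w1 w ρ Sc hc m v ho
  have hv : 0 < v := ho.1
  exact ⟨v / 2, nsh hc le_rfl ho (by linarith) (by linarith)⟩

end

end Pool.Agent.Helper97.SL
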