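import Pool.Agent.Helper97.SL.Ssl2
import Pool.Agent.Helper31.EC.Uns

/-! STATIC SHEET LEMMA in the exact calculus: a polynomial sheet whose label is blind for the base is a function of the
point. (SSL_Q) -/

set_option autoImplicit false

namespace Pool.Agent.Helper97.SL

open Finset Filter Topology
open Pool.Agent.Helper3.LF Pool.Agent.Helper69.RK Pool.Agent.Helper31.EC Pool.Agent.Helper25.EC

noncomputable section

variable {S : Sp} {N D : ℕ}

/-- exponents of a monomial -/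
def tf (a : Mon N D) : Fin N →₀ ℕ := Finsupp.equivFunOnFinite.symm fun i => (a.1 i : ℕ)

theorem tf_apply (a : Mon N D) (i : Fin N) : tf a i = (a.1 i : ℕ) := rfl

theorem tf_inj {a b : Mon N D} (h : tf a = tf b) : a = b := by
  apply Subtype.ext
  funext i
  apply Fin.ext
  rw [← tf_apply, ← tf_apply, h]

theorem exists_tf {R : Type*} [CommSemiring R] {f : MvPolynomial (Fin N) R} (hf : f.totalDegree ≤ D)
    {m : Fin N →₀ ℕ} (hm : m ∈ f.support) : ∃ a : Mon N D, tf a = m := by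
  have h1 : ∑ i, m i ≤ D := by
    have h2 := (MvPolynomial.le_totalDegree hm).trans hf
    rwa [Finsupp.sum_fintype _ _ (fun _ => rfl)] at h2
  refine ⟨⟨fun i => ⟨m i, ?_⟩, h1⟩, ?_⟩
  · have := Finset.single_le_sum (f := fun i => m i) (fun _ _ => Nat.zero_le _) (Finset.mem_univ i)
    omega
  · ext i
    rfl

theorem eval_tf {R : Type*} [CommSemiring R] (f : MvPolynomial (Fin N) R) (hf : f.totalDegree ≤ D) (x : Fin N → R) :
    MvPolynomial.eval x f = ∑ a : Mon N D, f.coeff (tf a) * ∏ i, x i ^ ((a.1 i : ℕ)) := by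
  classical
  rw [MvPolynomial.eval_eq']
  have h1 : ∑ a : Mon N D, f.coeff (tf a) * ∏ i, x i ^ ((a.1 i : ℕ)) =
      ∑ m ∈ Finset.univ.image (tf (N := N) (D := D)), f.coeff m * ∏ i, x i ^ (m i) := by
    rw [Finset.sum_image fun a _ b _ h => tf_inj h]
    rfl
  rw [h1]
  refine Finset.sum_subset (fun m hm => ?_) fun m _ hm => ?_
  · obtain ⟨a, ha⟩ := exists_tf hf hm
    exact Finset.mem_image.mpr ⟨a, Finset.mem_univ _, ha⟩
  · rw [MvPolynomial.notMem_support_iff.mp hm, zero_mul]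

theorem mk_pe (c : Mon N D → TR S) (x : Fin N → TR S) :
    QS.mk (pe c x) = ∑ a, QS.mk (c a) * ∏ i, QS.mk (x i) ^ ((a.1 i : ℕ)) := by
  unfold pe
  rw [map_sum]
  refine Finset.sum_congr rfl fun a _ => ?_
  rw [map_mul, map_prod]
  congr 1

/-- representatives of the coefficients of a polynomial -/
def cf (D : ℕ) (f : MvPolynomial (Fin N) (QS S)) (a : Mon N D) : TR S := QS.rep (f.coeff (tf a))

theorem mk_pe_cf (f : MvPolynomial (Fin N) (QS S)) (hf : f.totalDegree ≤ D) (x : Fin N → QS S) :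
    QS.mk (pe (cf D f) fun i => QS.rep (x i)) = MvPolynomial.eval x f := by
  rw [mk_pe, eval_tf f hf]
  refine Finset.sum_congr rfl fun a _ => ?_
  unfold cf
  rw [QS.mk_rep]
  congr 1
  refine Finset.prod_congr rfl fun i _ => ?_
  rw [QS.mk_rep]

theorem mk_sub_mem {f g : TR S} {r : ℝ} (hr : r ≤ 1) : QS.mk f - QS.mk g ∈ QS.Id S r ↔ TR.Ag r f g := by
  rw [← map_sub, QS.mk_mem_Id hr]
  constructor
  · intro h
    have h1 := h.add (TR.Ag.refl r g)
    rwa [sub_add_cancel, zero_add] at h1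
  · intro h
    have h1 := h.sub (TR.Ag.refl r g)
    rwa [sub_self] at h1

theorem rep_dg (f : QS S) {r : ℝ} (hr : r ≤ 1) : TR.dg (QS.rep f) r = QS.dg f r := by
  rw [← QS.dg_mk _ hr, QS.mk_rep]

/-- the base as a vector -/
def bv {m : ℕ} (y : Fin m → QS S) : S.VV m := TR.vec fun i => QS.rep (y i)

theorem bv_dg {m : ℕ} (y : Fin m → QS S) {r : ℝ} (hr : r ≤ 1) : (bv y).dg r = QS.vd y r := by
  unfold bv
  rw [TR.vec_dg_eq]
  unfold QS.vd
  congr 1
  funext i
  exact rep_dg (y i) hr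

theorem cv_cf_dg_le (f : MvPolynomial (Fin N) (QS S)) {r : ℝ} (hr : r ≤ 1) (A : S.L)
    (h : ∀ m, QS.dg (f.coeff m) r ≤ A) : (cv (cf D f)).dg r ≤ A :=
  cv_dg_le _ _ _ fun a => by
    unfold cf
    rw [rep_dg _ hr]
    exact h _

/-- events of small upper probability for all `p` -/
theorem typ_of_le (B : ∀ k, (S.F k).Ω → Prop) (M : ℝ) (hM : 0 ≤ M) (h : ∀ p : ℝ, 0 < p → ul (S.pr B) ≤ M * p) :
    Sp.Typ fun k ω => ¬ B k ω := by
  rcases Sp.typ_or (fun k ω => ¬ B k ω) with ht | h0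
  · exact ht
  · exfalso
    have e : (fun k ω => ¬ ¬ B k ω) = B := by
      funext k ω
      exact propext not_not
    rw [e] at h0
    have h1 := h (ul (S.pr B) / (2 * (M + 1))) (by positivity)
    have h2 : M * (ul (S.pr B) / (2 * (M + 1))) ≤ ul (S.pr B) / 2 := by
      rw [← mul_div_assoc, div_le_div_iff₀ (by positivity) two_pos]
      nlinarith
    linarith

/-- STATIC SHEET LEMMA in the exact calculus, tame functions -/
theorem ssl_tr (y : S.VV (N + 1)) (z : TR S) (f : Mon (N + 1) D → TR S) (Yt : S.L) (L g ρ : ℝ) (hρ : 0 < ρ)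
    (hL : 0 ≤ L) (hLg : L < g) (hYt : y.dg g ≤ Yt) (hz : TR.Ag g z (pe f (TR.cor y)))
    (hfull : (N + 1) * g ≤ H (y.dg g)) (hI : I ((cv f).dg g) Yt ⊥ = 0) (hD : ∀ p, 0 < p → DDL Yt z L g p ρ 0)
    (T : Sp) (a b : Pj T S) (hy : ∀ i, TR.Ag g (a.tr (TR.cor y i)) (b.tr (TR.cor y i)))
    (hzc : TR.Ag g (a.tr z) (b.tr z)) (i : Mon (N + 1) D) : TR.Ag g (a.tr (f i)) (b.tr (f i)) := by
  have hD1 : ∀ p, 0 < p → DDL Yt z L g p (min ρ 1) 0 := by
    intro p hp T π E hE hpE r s h1 h2 h3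
    refine (hD p hp T π E hE hpE r s h1 h2 h3).trans ?_
    have h4 : (1 - ρ) * (s - r) ≤ (1 - min ρ 1) * (s - r) :=
      mul_le_mul_of_nonneg_right (by linarith [min_le_left ρ 1]) (by linarith)
    linarith
  obtain ⟨C, hC, hmain⟩ := sslA N D (min ρ 1) (lt_min hρ one_pos) (min_le_right _ _)
  rw [TR.ag_iff_levels]
  intro δ hδ
  set R := min δ (g - L) with hRdef
  have hR : 0 < R := lt_min hδ (by linarith)
  have hRδ : R ≤ δ := min_le_left _ _
  have hRL : L + R ≤ g := by linarith [min_le_right δ (g - L)]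
  have hM : 0 ≤ C * (g / R) ^ pw N D := by
    have : 0 ≤ g / R := div_nonneg (by linarith) hR.le
    positivity
  have key := typ_of_le (S := T) (fun k ω => ∃ i, T.dl (g - R) k < |TR.ev (b.tr (f i) - a.tr (f i)) k ω|) _ hM
    fun p hp => hmain S y z f Yt L g R p 0 0 hR hL hRL hp.le (by rw [mul_zero]; exact hR.le)
      (by rw [mul_zero]; exact hR.le) hYt hz
      (by
        have h1 := bl_of_I y ((cv f).dg g) Yt g p 0 hp hYt (by rw [sub_zero]; push_cast; exact hfull) hI.le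
        rwa [mul_zero, zero_div] at h1)
      (hD1 p hp) T a b hy hzc
  refine key.mono (Eventually.of_forall fun k ω _ h => ?_)
  have h1 : |TR.ev (b.tr (f i) - a.tr (f i)) k ω| ≤ T.dl (g - R) k := by
    by_contra hc
    exact h ⟨i, not_le.mp hc⟩
  rw [TR.ev_sub, abs_sub_comm] at h1
  exact h1.trans (T.dl_anti (by linarith) k)

/-- STATIC SHEET LEMMA in the exact calculus: two points of an extension which agree in the base and in the top
coordinate up to level `g` lie on the same sheet up to level `g`. `V` contains the coefficients up to level `g` and is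
blind for `Yt`, all digits of the base; the top coordinate is unsaturated over `Yt` on the levels between `L` and
`g`. -/
theorem ssl_q (y : Fin (N + 1) → QS S) (z : QS S) (f : MvPolynomial (Fin (N + 1)) (QS S)) (V Yt : S.L) (L g ρ : ℝ)
    (hρ : 0 < ρ) (hL : 0 ≤ L) (hLg : L < g) (hg : g ≤ 1) (hYt : QS.vd y g ≤ Yt)
    (hz : z - MvPolynomial.eval y f ∈ QS.Id S g) (hfull : (N + 1) * g ≤ H (QS.vd y g))
    (hV : ∀ m, QS.dg (f.coeff m) g ≤ V) (hI : I V Yt ⊥ = 0)
    (hU : ∀ (T : Sp) (p : Pj T S) (E : ∀ k, (T.F k).Ω → Prop) (hE : 0 < ul (T.pr E)) (a b : ℝ), L ≤ a → a ≤ b →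
      b ≤ g → h (Sp.restL E hE (p.map (QS.dg z b))) (Sp.restL E hE (p.map (QS.dg z a ⊔ Yt))) ≤ (1 - ρ) * (b - a))
    {T : Sp} (a b : Pj T S) (hy : ∀ i, a.qs (y i) - b.qs (y i) ∈ QS.Id T g) (hzc : a.qs z - b.qs z ∈ QS.Id T g)
    (m : Fin (N + 1) →₀ ℕ) : a.qs (f.coeff m) - b.qs (f.coeff m) ∈ QS.Id T g := by
  by_cases hm : m ∈ f.support
  swap
  · rw [MvPolynomial.notMem_support_iff.mp hm, map_zero, map_zero, sub_zero]
    exact (QS.Id T g).zero_mem
  obtain ⟨i, rfl⟩ := exists_tf (D := f.totalDegree) le_rfl hm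
  have h1 := ssl_tr (bv y) (QS.rep z) (cf f.totalDegree f) Yt L g ρ hρ hL hLg (by rwa [bv_dg y hg])
    (by
      rw [← mk_sub_mem hg, QS.mk_rep]
      have h2 : QS.mk (pe (cf f.totalDegree f) (TR.cor (bv y))) = MvPolynomial.eval y f := mk_pe_cf f le_rfl y
      rw [h2]
      exact hz) (by rwa [bv_dg y hg])
    (le_antisymm ((I_mono_left ((cv_cf_dg_le f hg V hV).trans le_sup_left)).trans hI.le) (I_nonneg _ _ _))
    (by
      intro p _ T π E hE _ r s h3 h4 h5
      have h6 := hU T π E hE r s h3 h4 h5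
      rw [Pj.map_sup, Sp.restL_sup, sup_comm] at h6
      rw [rep_dg z (h5.trans hg), rep_dg z (h4.trans (h5.trans hg)), add_zero]
      exact h6) T a b
    (fun i => by
      rw [← mk_sub_mem hg, ← Pj.qs_mk, ← Pj.qs_mk]
      have h2 : QS.mk (TR.cor (bv y) i) = y i := QS.mk_rep _
      rw [h2]
      exact hy i)
    (by
      rw [← mk_sub_mem hg, ← Pj.qs_mk, ← Pj.qs_mk, QS.mk_rep]
      exact hzc) i
  rw [← mk_sub_mem hg, ← Pj.qs_mk, ← Pj.qs_mk] at h1
  unfold cf at h1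
  rwa [QS.mk_rep] at h1

/-- the coefficients of a blind sheet are functions of the point -/
theorem ssl_q_known (y : Fin (N + 1) → QS S) (z : QS S) (f : MvPolynomial (Fin (N + 1)) (QS S)) (V Yt : S.L)
    (L g ρ : ℝ) (hρ : 0 < ρ) (hL : 0 ≤ L) (hLg : L < g) (hg : g ≤ 1) (hYt : QS.vd y g ≤ Yt)
    (hz : z - MvPolynomial.eval y f ∈ QS.Id S g) (hfull : (N + 1) * g ≤ H (QS.vd y g))
    (hV : ∀ m, QS.dg (f.coeff m) g ≤ V) (hI : I V Yt ⊥ = 0)
    (hU : ∀ (T : Sp) (p : Pj T S) (E : ∀ k, (T.F k).Ω → Prop) (hE : 0 < ul (T.pr E)) (a b : ℝ), L ≤ a → a ≤ b →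
      b ≤ g → h (Sp.restL E hE (p.map (QS.dg z b))) (Sp.restL E hE (p.map (QS.dg z a ⊔ Yt))) ≤ (1 - ρ) * (b - a))
    (m : Fin (N + 1) →₀ ℕ) : QS.dg (f.coeff m) g ≤ QS.vd y g ⊔ QS.dg z g := by
  set X : S.VV (N + 2) := bv (Fin.snoc y z : Fin (N + 2) → QS S) with hX
  set U := X.cellv g with hU'
  have hUb : Sp.Bdd U := X.bdd g
  have hio : Sp.io U = QS.vd y g ⊔ QS.dg z g := by
    show X.dg g = _
    rw [hX, bv_dg _ hg]
    apply le_antisymm
    · rw [QS.vd_le]
      intro i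
      refine Fin.lastCases ?_ (fun j => ?_) i
      · rw [Fin.snoc_last]
        exact le_sup_right
      · rw [Fin.snoc_castSucc]
        exact (QS.dg_le_vd y g j).trans le_sup_left
    · apply sup_le
      · rw [QS.vd_le]
        intro j
        have h1 := QS.dg_le_vd (Fin.snoc y z : Fin (N + 2) → QS S) g j.castSucc
        rwa [Fin.snoc_castSucc] at h1
      · have h1 := QS.dg_le_vd (Fin.snoc y z : Fin (N + 2) → QS S) g (Fin.last _)
        rwa [Fin.snoc_last] at h1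
  have hcl : ∀ j : Fin (N + 2), (two1 U).qs ((Fin.snoc y z : Fin (N + 2) → QS S) j) -
      (two2 U).qs ((Fin.snoc y z : Fin (N + 2) → QS S) j) ∈ QS.Id (two U) g := by
    intro j
    have h0 : QS.mk (TR.cor X j) = (Fin.snoc y z : Fin (N + 2) → QS S) j := QS.mk_rep _
    rw [← h0, Pj.qs_mk, Pj.qs_mk, mk_sub_mem hg]
    refine ag_of_close (Eventually.of_forall fun k w hw => ?_)
    have h1 : U k ((two1 U).π k w) = U k ((two2 U).π k w) := Pj.join_supp (Pj.id S) U k w hw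
    rw [dl_pj (two1 U)]
    exact X.cellv_close g k _ _ h1 j
  have h1 := ssl_q y z f V Yt L g ρ hρ hL hLg hg hYt hz hfull hV hI hU (two1 U) (two2 U)
    (fun i => by
      have := hcl i.castSucc
      rwa [Fin.snoc_castSucc] at this)
    (by
      have := hcl (Fin.last _)
      rwa [Fin.snoc_last] at this) m
  rw [← hio]
  have h2 : QS.dg (f.coeff m) g = (TR.vec fun _ : Fin 1 => QS.rep (f.coeff m)).dg g := (rep_dg _ hg).symm
  rw [h2]
  refine agree_typ U hUb _ g fun δ hδ => ?_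
  have h3 : TR.Ag g ((two1 U).tr (QS.rep (f.coeff m))) ((two2 U).tr (QS.rep (f.coeff m))) := by
    rw [← mk_sub_mem hg, ← Pj.qs_mk, ← Pj.qs_mk, QS.mk_rep]
    exact h1
  refine (h3.levels hδ).mono (Eventually.of_forall fun k w _ hw _ => ?_)
  rw [dl_pj (two1 U)] at hw
  exact hw

/-- the exact form at full precision: the two sheets are equal -/
theorem ssl_q1 (y : Fin (N + 1) → QS S) (z : QS S) (f : MvPolynomial (Fin (N + 1)) (QS S)) (V Yt : S.L) (L ρ : ℝ)
    (hρ : 0 < ρ) (hL : 0 ≤ L) (hL1 : L < 1) (hYt : QS.vd y 1 ≤ Yt) (hz : z = MvPolynomial.eval y f)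
    (hfull : N + 1 ≤ H (QS.vd y 1)) (hV : f ∈ QS.PK V) (hI : I V Yt ⊥ = 0) (hU : UnS z Yt L ρ) {T : Sp} (a b : Pj T S)
    (hy : ∀ i, a.qs (y i) = b.qs (y i)) (hzc : a.qs z = b.qs z) :
    MvPolynomial.map a.qs f = MvPolynomial.map b.qs f := by
  ext m
  rw [MvPolynomial.coeff_map, MvPolynomial.coeff_map, ← sub_eq_zero, ← QS.mem_Id_one]
  refine ssl_q y z f V Yt L 1 ρ hρ hL hL1 le_rfl hYt ?_ (by rw [mul_one]; exact hfull) hV hI
    (fun T p E hE a b h1 h2 h3 => hU T p E hE a b h1 h2 h3) a b (fun i => ?_) ?_ m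
  · rw [hz, sub_self]
    exact (QS.Id S 1).zero_mem
  · rw [hy i, sub_self]
    exact (QS.Id T 1).zero_mem
  · rw [hzc, sub_self]
    exact (QS.Id T 1).zero_mem

/-- the exact form at full precision: the coefficients are functions of the point -/
theorem ssl_q1_known (y : Fin (N + 1) → QS S) (z : QS S) (f : MvPolynomial (Fin (N + 1)) (QS S)) (V Yt : S.L)
    (L ρ : ℝ) (hρ : 0 < ρ) (hL : 0 ≤ L) (hL1 : L < 1) (hYt : QS.vd y 1 ≤ Yt) (hz : z = MvPolynomial.eval y f)
    (hfull : N + 1 ≤ H (QS.vd y 1)) (hV : f ∈ QS.PK V) (hI : I V Yt ⊥ = 0) (hU : UnS z Yt L ρ) :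
    f ∈ QS.PK (QS.vd y 1 ⊔ QS.dg z 1) := by
  intro m
  refine ssl_q_known y z f V Yt L 1 ρ hρ hL hL1 le_rfl hYt ?_ (by rw [mul_one]; exact hfull) hV hI
    (fun T p E hE a b h1 h2 h3 => hU T p E hE a b h1 h2 h3) m
  rw [hz, sub_self]
  exact (QS.Id S 1).zero_mem

end

end Pool.Agent.Helper97.SL
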