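import Pool.Agent.Helper97.SL.Cls

/-! The class lemma: the inequality of the static sheet lemma on one class. (SSL) -/

set_option autoImplicit false

namespace Pool.Agent.Helper97.SL

open Finset Filter Topology
open Pool.Agent.Helper3.LF Pool.Agent.Helper69.RK Pool.Agent.Helper31.EC Pool.Agent.Helper25.EC

noncomputable section

variable {S T : Sp} {N D : ℕ}

/-- degree of a monomial -/
def mdeg (a : Mon N D) : ℕ := ∑ i, (a.1 i : ℕ)

theorem mdeg_le (a : Mon N D) : mdeg a ≤ D := a.2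

theorem vv_scale (t : ℝ) (v : Fin N → ℝ) (a : Mon N D) :
    vv (D := D) (fun i => t * v i) a = t ^ mdeg a * vv (D := D) v a := by
  rw [vv_apply, vv_apply, mdeg, ← Finset.prod_pow_eq_pow_sum, ← Finset.prod_mul_distrib]
  exact Finset.prod_congr rfl fun i _ => mul_pow _ _ _

theorem dl_pow (s : ℝ) (m : ℕ) (k : ℕ) : T.dl (m * s) k = T.dl s k ^ m := by
  induction m with
  | zero => rw [Nat.cast_zero, zero_mul, T.dl_zero, pow_zero]
  | succ m ih =>
    rw [pow_succ, ← ih, ← T.dl_add]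
    congr 1
    push_cast
    ring

theorem dl_pj (p : Pj T S) (r : ℝ) (k : ℕ) : T.dl r k = S.dl r k := by
  unfold Sp.dl
  rw [p.hn]

open Classical in
/-- normalised Taylor coefficients on an event -/
def nrm (u : Mon (N + 1) D → TR T) (E : ∀ k, (T.F k).Ω → Prop) (lev : Mon (N + 1) D → ℝ) (K : ℕ → ℝ) (hK : T.Sub K)
    (h : ∀ᶠ k in UF, ∀ ω, (T.F k).μ ω ≠ 0 → E k ω → ∀ i, i ≠ z0 (N + 1) D →
      |TR.ev (u i) k ω| ≤ K k * T.dl (lev i) k) (i : Mon (N + 1) D) : TR T :=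
  ⟨fun k ω => if E k ω ∧ i ≠ z0 (N + 1) D then TR.ev (u i) k ω / T.dl (lev i) k else 0, K, hK, by
    filter_upwards [h, hK.1] with k h1 h2 ω hω
    show |if E k ω ∧ i ≠ z0 (N + 1) D then TR.ev (u i) k ω / T.dl (lev i) k else 0| ≤ K k
    split_ifs with hc
    · rw [abs_div, abs_of_pos (T.dl_pos _ k), div_le_iff₀ (T.dl_pos _ k)]
      exact h1 ω hω hc.1 i hc.2
    · rw [abs_zero]
      exact h2⟩

theorem ev_nrm (u : Mon (N + 1) D → TR T) (E : ∀ k, (T.F k).Ω → Prop) (lev : Mon (N + 1) D → ℝ) (K : ℕ → ℝ)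
    (hK : T.Sub K) (h : ∀ᶠ k in UF, ∀ ω, (T.F k).μ ω ≠ 0 → E k ω → ∀ i, i ≠ z0 (N + 1) D →
      |TR.ev (u i) k ω| ≤ K k * T.dl (lev i) k) (i : Mon (N + 1) D) (k : ℕ) (ω : (T.F k).Ω) (hE : E k ω)
    (hi : i ≠ z0 (N + 1) D) : T.dl (lev i) k * TR.ev (nrm u E lev K hK h i) k ω = TR.ev (u i) k ω := by
  have : TR.ev (nrm u E lev K hK h i) k ω = TR.ev (u i) k ω / T.dl (lev i) k := if_pos ⟨hE, hi⟩
  rw [this, mul_div_cancel₀ _ (T.dl_pos _ k).ne']

theorem vv_cv (p : Pj T S) (f : Mon (N + 1) D → TR S) : p.vv (cv f) = cv (fun i => p.tr (f i)) := rfl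

/-- the value of the new sheet at the second point, in Taylor form -/
theorem taylor (c0 c1 : Mon (N + 1) D → ℝ) (xx yy : Fin (N + 1) → ℝ) (cc : Mon (N + 1) D → ℝ) (β s : ℝ) (hs : s ≠ 0)
    (hc0 : cc (z0 (N + 1) D) = 0)
    (hcc : ∀ i, i ≠ z0 (N + 1) D → β * cc i = shr (fun i => c1 i - c0 i) xx i * s ^ mdeg i) :
    MvPolynomial.eval yy (pol c1) = MvPolynomial.eval yy (pol c0) + shr (fun i => c1 i - c0 i) xx (z0 (N + 1) D) +
      β * MvPolynomial.eval (fun i => (yy i - xx i) / s) (pol cc) := by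
  have h1 : MvPolynomial.eval yy (pol c1) =
      MvPolynomial.eval yy (pol c0) + MvPolynomial.eval yy (pol fun i => c1 i - c0 i) := by
    rw [eval_pol, eval_pol, eval_pol, ← add_dotProduct]
    congr 1
    funext i
    simp
  have h2 : MvPolynomial.eval yy (pol fun i => c1 i - c0 i) =
      MvPolynomial.eval (fun i => yy i - xx i) (pol (shr (fun i => c1 i - c0 i) xx)) := by
    rw [shr_eval]
    congr 2
    funext i
    ring
  rw [h1, h2, eval_pol (fun i => yy i - xx i), eval_pol (fun i => (yy i - xx i) / s), add_assoc]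
  congr 1
  unfold dotProduct
  rw [Finset.mul_sum, ← Finset.sum_erase_add _ _ (Finset.mem_univ (z0 (N + 1) D)),
    ← Finset.sum_erase_add (s := Finset.univ) (f := fun i => β * (cc i * vv (fun i => (yy i - xx i) / s) i))
      (h := Finset.mem_univ (z0 (N + 1) D)), vv_z0, vv_z0, hc0]
  have h3 : ∀ i ∈ Finset.univ.erase (z0 (N + 1) D),
      shr (fun i => c1 i - c0 i) xx i * vv (fun i => yy i - xx i) i =
        β * (cc i * vv (fun i => (yy i - xx i) / s) i) := by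
    intro i hi
    have hi' := (Finset.mem_erase.mp hi).1
    have e1 : (fun i => yy i - xx i) = fun i => s * ((yy i - xx i) / s) := by
      funext i
      field_simp
    have e2 : vv (D := D) (fun i => yy i - xx i) i = s ^ mdeg i * vv (D := D) (fun i => (yy i - xx i) / s) i := by
      rw [← vv_scale, ← e1]
    rw [e2, ← mul_assoc, ← hcc i hi', mul_assoc]
  rw [Finset.sum_congr rfl h3]
  ring

/-- (D) deficit of `z` on all intervals of levels between `L` and `g`, given all digits `Yt` of the base, on all events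
of probability at least `p` of all extensions -/
def DDL (Yt : S.L) (z : TR S) (L g p ρ κ : ℝ) : Prop :=
  ∀ (T : Sp) (π : Pj T S) (E : ∀ k, (T.F k).Ω → Prop) (hE : 0 < ul (T.pr E)), p ≤ ul (T.pr E) →
    ∀ r s : ℝ, L ≤ r → r ≤ s → s ≤ g →
      h (Sp.restL E hE (π.map (TR.dg z s))) (Sp.restL E hE (π.map Yt) ⊔ Sp.restL E hE (π.map (TR.dg z r))) ≤
        (1 - ρ) * (s - r) + κ

theorem mdeg_pos {a : Mon (N + 1) D} (ha : a ≠ z0 (N + 1) D) : 1 ≤ mdeg a := by
  by_contra hcon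
  push Not at hcon
  have h0 : mdeg a = 0 := by omega
  apply ha
  apply Subtype.ext
  funext i
  have h1 := (Finset.sum_eq_zero_iff_of_nonneg (s := Finset.univ) (f := fun i => (a.1 i : ℕ)) fun i _ => Nat.zero_le _).mp
    h0 i (Finset.mem_univ i)
  exact Fin.ext h1

/-- the first window -/
theorem exists_s0 (j : Mon (N + 1) D → ℕ) (δ a b : ℝ) (i0 : Mon (N + 1) D) (hi0 : i0 ≠ z0 (N + 1) D) (hδ : 0 < δ)
    (hb : j i0 * δ ≤ b) : ∃ s0 : ℝ, 0 ≤ s0 ∧ s0 ≤ max 0 a ∧ (∀ i, i ≠ z0 (N + 1) D → a ≤ j i * δ + mdeg i * s0) ∧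
      ∃ i1, i1 ≠ z0 (N + 1) D ∧ j i1 * δ + mdeg i1 * s0 ≤ max b a := by
  classical
  obtain ⟨i1, hi1, hmax⟩ := Finset.exists_max_image (Finset.univ.filter (fun i => i ≠ z0 (N + 1) D))
    (fun i => (a - (j i : ℝ) * δ) / mdeg i) ⟨i0, by simp [hi0]⟩
  rw [Finset.mem_filter] at hi1
  have hm : ∀ i, i ≠ z0 (N + 1) D → (1 : ℝ) ≤ mdeg i := fun i hi => by exact_mod_cast mdeg_pos hi
  by_cases h0 : (a - (j i1 : ℝ) * δ) / mdeg i1 ≤ 0
  · refine ⟨0, le_rfl, le_max_left _ _, fun i hi => ?_, i0, hi0, ?_⟩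
    · have h1 := (hmax i (by simp [hi])).trans h0
      rw [div_le_iff₀ (by linarith [hm i hi])] at h1
      linarith
    · rw [mul_zero, add_zero]
      exact hb.trans (le_max_left _ _)
  · push Not at h0
    have hm1 := hm i1 hi1.2
    have h1 : 0 < a - (j i1 : ℝ) * δ := by
      by_contra hcon
      push Not at hcon
      exact absurd h0 (not_lt.mpr (div_nonpos_of_nonpos_of_nonneg hcon (by linarith)))
    have hj : 0 ≤ (j i1 : ℝ) * δ := by positivity
    refine ⟨(a - (j i1 : ℝ) * δ) / mdeg i1, h0.le, ?_, fun i hi => ?_, i1, hi1.2, ?_⟩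
    · refine le_trans ?_ (le_max_right _ _)
      rw [div_le_iff₀ (by linarith)]
      nlinarith
    · have h2 := hmax i (by simp [hi])
      have h3 := hm i hi
      rw [div_le_iff₀ (by linarith)] at h2
      linarith
    · refine le_trans (le_of_eq ?_) (le_max_right _ _)
      field_simp
      ring

/-- THE CLASS LEMMA, deficit on the levels from `L` on -/
theorem clsL (y : S.VV (N + 1)) (z : TR S) (f : Mon (N + 1) D → TR S) (Yt : S.L) (L g p ρ κ ε e δ θ τ α : ℝ)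
    (J J1 : ℕ) (j : Mon (N + 1) D → ℕ) (hYt : y.dg g ≤ Yt) (hz : TR.Ag g z (pe f (TR.cor y)))
    (hBl : Bl y ((cv f).dg g) Yt g p ε) (hDD : DDL Yt z L g p ρ κ) (T1 : Sp) (a b : Pj T1 S)
    (hy : ∀ i, TR.Ag g (TR.cor (a.vv y) i) (TR.cor (b.vv y) i)) (hzc : TR.Ag g (a.tr z) (b.tr z))
    (E : ∀ k, (T1.F k).Ω → Prop) (hE : 0 < ul (T1.pr E)) (hp : p ≤ ul (T1.pr E))
    (K : ℕ → ℝ) (hK : T1.Sub K) (hK1 : ∀ k, 1 ≤ K k)
    (h1 : ∀ᶠ k in UF, ∀ ω, (T1.F k).μ ω ≠ 0 → E k ω → ∃ i, T1.dl (α + τ) k < |TR.ev (b.tr (f i) - a.tr (f i)) k ω|)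
    (h2 : ∀ᶠ k in UF, ∀ ω, (T1.F k).μ ω ≠ 0 → E k ω → ∀ i, i ≠ z0 (N + 1) D →
      |TR.ev (sh (fun i => b.tr (f i) - a.tr (f i)) (TR.cor (b.vv y)) i) k ω| ≤ K k * T1.dl (α + j i * δ) k)
    (h3 : ∀ᶠ k in UF, ∀ ω, (T1.F k).μ ω ≠ 0 → E k ω → ∀ i, i ≠ z0 (N + 1) D → j i < J1 →
      K k * T1.dl (α + (j i + 1) * δ) k <
        |TR.ev (sh (fun i => b.tr (f i) - a.tr (f i)) (TR.cor (b.vv y)) i) k ω|)
    (he : 0 < e) (hδ : 0 < δ) (hθ : 0 < θ) (hθe : θ ≤ e) (hα : 0 ≤ α) (hJ : 0 < J)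
    (hατ : α + τ < g)
    (hJ1 : max (τ + δ) (L - α) + D * (J * e) < J1 * δ ∨ (D ≤ 1 ∧ τ + δ < J1 * δ))
    (hlev : α + (τ + δ + D * (J * e)) + e ≤ g) (hlevL : L + D * (J * e) + e ≤ g) (hJe : J * e ≤ g)
    (hJeL : L + J * e ≤ g) :
    ρ * e ≤ κ + (2 * ε + Fintype.card (Mon (N + 1) D) * e / J) + δ + D * θ +
      (N + 1) * e * ((2 * ε + Fintype.card (Mon (N + 1) D) * e / J) / θ) := by
  classical
  have hD0 : (0 : ℝ) ≤ D := Nat.cast_nonneg D
  set X : T1.VV (N + 1) := b.vv y with hXdef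
  set u : Mon (N + 1) D → TR T1 := sh (fun i => b.tr (f i) - a.tr (f i)) (TR.cor X) with hu
  have hz0 := diff_small y z f g hz a b hy hzc
  obtain ⟨i0, hi0, hji0⟩ := exists_large _ (TR.cor X) g α τ δ hδ hατ hz0 E hE K hK hK1 j h1 h2
  set w : Mon (N + 1) D → TR T1 := nrm u E (fun i => α + j i * δ) K hK h2 with hw
  set W : T1.L := (cv w).dg e with hWdef
  set F0 : Mon (N + 1) D → TR T1 := fun i => a.tr (f i) with hF0
  set F : T1.L := (cv F0).dg g with hFdef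
  obtain ⟨s0, hs00, hs0a, hs0L, i1, hi1, hji1⟩ := exists_s0 j δ (L - α) (τ + δ) i0 hi0 hδ hji0
  -- windows
  have hXa : ∀ r, r ≤ g → (a.vv y).dg r = X.dg r := fun r hr => dg_eq_of_ag _ _ g r hr hy
  have hB1 : ∀ s, 0 ≤ s → s + e ≤ g → ((N + 1 : ℕ) : ℝ) * e - ε ≤
      h ((X.rest E).dg (s + e)) ((X.rest E).dg s ⊔ Sp.restL E hE F) := by
    intro s hs hse
    have := (hBl T1 a E hE hp).1 s e hs he.le hse
    rw [Pj.map_dg, Pj.map_dg, Pj.map_dg, hXa _ hse, hXa _ (by linarith), vv_cv] at this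
    rw [Sp.VV.rest_dg E hE, Sp.VV.rest_dg E hE]
    exact this
  have hW : H (Sp.restL E hE W) ≤ Fintype.card (Mon (N + 1) D) * e := by
    rw [hWdef, ← Sp.VV.rest_dg E hE]
    exact Sp.VV.H_dg_le _ he.le
  obtain ⟨i, hiJ, hi⟩ := window (fun i : ℕ => (X.rest E).dg (s0 + i * e)) (fun i => (X.rest E).dg_mono (by
    push_cast
    nlinarith)) (Sp.restL E hE F) (Sp.restL E hE W) J hJ _ hW
  set s : ℝ := s0 + i * e with hs
  have hie : 0 ≤ (i : ℝ) * e := by positivity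
  have hs0 : 0 ≤ s := by linarith
  have hse : s0 + (((i + 1 : ℕ) : ℝ) * e) = s + e := by rw [hs]; push_cast; ring
  have hsJ : s + e ≤ s0 + J * e := by
    rw [← hse]
    have : ((i + 1 : ℕ) : ℝ) ≤ J := by exact_mod_cast hiJ
    have := mul_le_mul_of_nonneg_right this he.le
    linarith
  have hse1 : s + e ≤ g := by
    rcases le_total 0 (L - α) with h0 | h0
    · rw [max_eq_right h0] at hs0a
      linarith
    · rw [max_eq_left h0] at hs0a
      linarith
  rw [hse] at hi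
  -- the second copy
  set V2 : ∀ k, (S.F k).Ω → (Fin (Fintype.card (Mon (N + 1) D)) → ℤ) × (Fin (N + 1) → ℤ) :=
    fun k ω => ((cv f).cellv g k ω, y.cellv s k ω) with hV2
  have hV2b : Sp.Bdd V2 := ((cv f).bdd g).pair (y.bdd s)
  have hV2io : Sp.io V2 = (cv f).dg g ⊔ y.dg s := Sp.io_pair ((cv f).bdd g) (y.bdd s)
  set T2 : Sp := (b.join V2).sp with hT2
  set P1 : Pj T2 T1 := (b.join V2).p1 with hP1
  set P2 : Pj T2 S := (b.join V2).p2 with hP2
  have hsupp : ∀ k w, (T2.F k).μ w ≠ 0 → V2 k (b.π k (P1.π k w)) = V2 k (P2.π k w) :=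
    fun k w hw => Pj.join_supp b V2 k w hw
  set E2 : ∀ k, (T2.F k).Ω → Prop := fun k w => E k (P1.π k w) with hE2def
  have hE2 : 0 < ul (T2.pr E2) := rj_pos P1 E hE
  have hp2 : p ≤ ul (T2.pr E2) := by
    rw [hE2def, pr_comp]
    exact hp
  have hq : ∀ x, (rj P1 E).map (Sp.restL E hE x) = Sp.restL E2 hE2 (P1.map x) := rj_map P1 E hE
  have hm1 : ∀ x x', h (Sp.restL E2 hE2 (P1.map x)) (Sp.restL E2 hE2 (P1.map x')) =
      h (Sp.restL E hE x) (Sp.restL E hE x') := by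
    intro x x'
    rw [← hq, ← hq, Pj.h_map]
  -- common informations
  have hclF : ∀ᶠ k in UF, ∀ w, (T2.F k).μ w ≠ 0 → ∀ i,
      |(P1.vv (b.vv (cv f))).v k w i - (P2.vv (cv f)).v k w i| ≤ T2.dl g k := by
    refine Eventually.of_forall fun k w hw i => ?_
    have h4 := congrArg Prod.fst (hsupp k w hw)
    rw [dl_pj P2]
    exact (cv f).cellv_close g k _ _ h4 i
  have hclX : ∀ᶠ k in UF, ∀ w, (T2.F k).μ w ≠ 0 → ∀ i, |(P1.vv X).v k w i - (P2.vv y).v k w i| ≤ T2.dl s k := by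
    refine Eventually.of_forall fun k w hw i => ?_
    have h4 := congrArg Prod.snd (hsupp k w hw)
    rw [dl_pj P2]
    exact y.cellv_close s k _ _ h4 i
  have hcF : P1.map (b.map ((cv f).dg g)) = P2.map ((cv f).dg g) := by
    rw [Pj.map_dg, Pj.map_dg, Pj.map_dg]
    exact dg_eq_of_close _ _ g g le_rfl hclF
  have hcX : P1.map (X.dg s) = P2.map (y.dg s) := by
    rw [Pj.map_dg, Pj.map_dg]
    exact dg_eq_of_close _ _ s s le_rfl hclX
  -- entropies
  have hI : I (Sp.restL E2 hE2 (P1.map (X.dg (s + e))) ⊔ Sp.restL E2 hE2 (P1.map F) ⊔ Sp.restL E2 hE2 (P1.map W))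
      (Sp.restL E2 hE2 (P2.map Yt))
      (Sp.restL E2 hE2 (P1.map (b.map ((cv f).dg g))) ⊔ Sp.restL E2 hE2 (P1.map (X.dg s))) = 0 := by
    have h4 := Sp.I_rest_zero E2 hE2 (Pj.join_indep b V2 hV2b (X.dg (s + e) ⊔ F ⊔ W) Yt)
    rw [hV2io, Pj.map_sup b, Pj.map_dg b y s] at h4
    simp only [Pj.map_sup, Sp.restL_sup] at h4
    exact h4
  have hB2 := (hBl T2 P2 E2 hE2 hp2).2 s hs0 (by linarith)
  rw [← hcF, ← hcX] at hB2
  have hYY : ∀ r, Sp.restL E2 hE2 (P2.map (y.dg r)) = ((P2.vv y).rest E2).dg r := fun r => by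
    rw [Pj.map_dg, Sp.VV.rest_dg E2 hE2]
  have hXX : ∀ r, Sp.restL E2 hE2 (P1.map (X.dg r)) = ((P1.vv X).rest E2).dg r := fun r => by
    rw [Pj.map_dg, Sp.VV.rest_dg E2 hE2]
  have hX1 : ((N + 1 : ℕ) : ℝ) * e - ε - Fintype.card (Mon (N + 1) D) * e / J ≤
      h (Sp.restL E2 hE2 (P1.map (X.dg (s + e))))
        (Sp.restL E2 hE2 (P1.map (X.dg s)) ⊔ Sp.restL E2 hE2 (P1.map F) ⊔ Sp.restL E2 hE2 (P1.map W)) := by
    have h4 : Sp.restL E2 hE2 (P1.map (X.dg s)) ⊔ Sp.restL E2 hE2 (P1.map F) ⊔ Sp.restL E2 hE2 (P1.map W) =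
        Sp.restL E2 hE2 (P1.map (X.dg s ⊔ F ⊔ W)) := by
      simp only [Pj.map_sup, Sp.restL_sup]
    rw [h4, hm1, Sp.restL_sup, Sp.restL_sup]
    have h5 := hB1 s hs0 hse1
    have h6 := I_eq ((X.rest E).dg (s + e)) (Sp.restL E hE W) ((X.rest E).dg s ⊔ Sp.restL E hE F)
    rw [← Sp.VV.rest_dg E hE, ← Sp.VV.rest_dg E hE, sup_comm _ (Sp.restL E hE W)]
    linarith
  have hent := ent _ _ _ _ _ _ _ _ hI hB2 hX1
  -- the exponent
  obtain ⟨im, him, hmin⟩ := Finset.exists_min_image (Finset.univ.filter (fun i => i ≠ z0 (N + 1) D))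
    (fun i => (j i : ℝ) * δ + mdeg i * s) ⟨i0, by simp [hi0]⟩
  rw [Finset.mem_filter] at him
  set lam : ℝ := (j im : ℝ) * δ + mdeg im * s with hlam
  have hlam0 : 0 ≤ lam := by positivity
  have hlam1 : lam ≤ max (τ + δ) (L - α) + D * (J * e) := by
    have h4 := hmin i1 (by simp [hi1])
    have h5 : (mdeg i1 : ℝ) ≤ D := by exact_mod_cast mdeg_le i1
    have h6 : (mdeg i1 : ℝ) * (i * e) ≤ D * (J * e) := mul_le_mul h5 (by linarith) hie hD0
    have h7 : (mdeg i1 : ℝ) * s = mdeg i1 * s0 + mdeg i1 * (i * e) := by rw [hs]; ring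
    linarith
  have hlamL : L ≤ α + lam := by
    have h4 := hs0L im him.2
    have h5 : 0 ≤ (mdeg im : ℝ) * (i * e) := by positivity
    have h7 : (mdeg im : ℝ) * s = mdeg im * s0 + mdeg im * (i * e) := by rw [hs]; ring
    linarith
  have hlamg : α + lam + e ≤ g := by
    rcases le_total (L - α) (τ + δ) with h0 | h0
    · rw [max_eq_left h0] at hlam1
      linarith
    · rw [max_eq_right h0] at hlam1
      linarith
  have hjim : j im < J1 := by
    by_contra hcon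
    push Not at hcon
    have h4 : (J1 : ℝ) ≤ j im := by exact_mod_cast hcon
    have h5 : (J1 : ℝ) * δ ≤ j im * δ := mul_le_mul_of_nonneg_right h4 hδ.le
    have h6 : 0 ≤ (mdeg im : ℝ) * s := by positivity
    rcases hJ1 with hJ1 | ⟨hD1, hJ1⟩
    · linarith
    · have h7 := hmin i0 (by simp [hi0])
      have h8 : ∀ i : Mon (N + 1) D, i ≠ z0 (N + 1) D → mdeg i = 1 := fun i hi => by
        have := mdeg_pos hi
        have := mdeg_le i
        omega
      have h9 : (j im : ℝ) * δ + mdeg im * s ≤ j i0 * δ + mdeg i0 * s := h7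
      rw [h8 im him.2, h8 i0 hi0] at h9
      linarith
  have hβ : 0 ≤ α + lam := by linarith
  -- the polynomial
  have hmem := rest_mem E2 hE2
  let V3 : (T2.rest E2).VV (N + 1) := Sp.VV.of (S := T2.rest E2) (fun k w i => ((P2.vv y).v k w i - (P1.vv X).v k w i) / (T2.rest E2).dl s k) (by
    refine ⟨1, ?_⟩
    filter_upwards [hmem, hclX] with k b1 b2 w hw i
    rw [abs_div, abs_of_pos ((T2.rest E2).dl_pos s k), div_le_one ((T2.rest E2).dl_pos s k), abs_sub_comm]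
    exact b2 w (b1 w hw).1 i)
  let cc : Mon (N + 1) D → TR (T2.rest E2) := fun i => if i = z0 (N + 1) D then 0 else
    cdl (max ((j i : ℝ) * δ + mdeg i * s - lam) 0) (le_max_right _ _) * rst E2 (P1.tr (w i))
  have hcore := core (T := T2.rest E2) ((P1.vv X).rest E2) ((P2.vv y).rest E2) V3 (fun i => rst E2 (P1.tr (F0 i))) cc
    (rst E2 (P2.tr z))
    (Sp.restL E2 hE2 (P1.map (X.dg s)) ⊔ Sp.restL E2 hE2 (P1.map F) ⊔ Sp.restL E2 hE2 (P1.map W) ⊔
      Sp.restL E2 hE2 (P2.map Yt)) (Sp.restL E2 hE2 (P2.map Yt))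
    e δ (2 * ε + Fintype.card (Mon (N + 1) D) * e / J) θ ρ κ g (α + lam) (s + e) he hδ.le hθ hθe hβ hlamg
    ?_ ?_ ?_ ?_ le_sup_right ?_ (fun _ => 1) ((T2.rest E2).Sub_const zero_le_one) ?_ ?_ ?_
  · exact hcore
  · -- hV
    have h4 : ((P1.vv X).rest E2).dg (s + e) ≤ V3.dg e ⊔ ((P2.vv y).rest E2).dg g := by
      refine Sp.VV.dg_le_dg2 _ V3 ((P2.vv y).rest E2) (s + e) e g (fun _ _ => True) Sp.Typ_true (fun _ => 2)
        ((T2.rest E2).Sub_const zero_le_two) (Eventually.of_forall fun k w w' _ _ _ _ _ f1 f2 i => ?_)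
      have g1 := f1 i
      have g2 := f2 i
      have hb := (T2.rest E2).dl_pos s k
      have e1 : ∀ w, ((P1.vv X).rest E2).v k w i = ((P2.vv y).rest E2).v k w i - (T2.rest E2).dl s k * V3.v k w i := by
        intro w
        show (P1.vv X).v k w i = (P2.vv y).v k w i - (T2.rest E2).dl s k * (((P2.vv y).v k w i - (P1.vv X).v k w i) / (T2.rest E2).dl s k)
        rw [mul_div_cancel₀ _ hb.ne']
        ring
      rw [e1, e1]
      have g3 : |(T2.rest E2).dl s k * V3.v k w i - (T2.rest E2).dl s k * V3.v k w' i| ≤ (T2.rest E2).dl (s + e) k := by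
        rw [← mul_sub, abs_mul, abs_of_pos hb, (T2.rest E2).dl_add s e]
        exact mul_le_mul_of_nonneg_left g1 hb.le
      have g4 : (T2.rest E2).dl g k ≤ (T2.rest E2).dl (s + e) k := (T2.rest E2).dl_anti hse1 k
      have g2' := abs_le.mp g2
      have g3' := abs_le.mp g3
      rw [abs_le]
      constructor <;> linarith [g2'.1, g2'.2, g3'.1, g3'.2]
    refine h4.trans (sup_le_sup_left ?_ _)
    rw [← hYY]
    exact (Sp.restL_mono E2 hE2 (P2.map_mono hYt)).trans le_sup_right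
  · -- hX
    rw [← hXX]
    refine le_trans (le_of_eq ?_) hent
    push_cast
    ring
  · -- hc
    intro i
    show TR.dg (if i = z0 (N + 1) D then 0 else
      cdl (max ((j i : ℝ) * δ + mdeg i * s - lam) 0) (le_max_right _ _) * rst E2 (P1.tr (w i))) e ≤ _
    split_ifs with hi
    · exact (TR.Kn (T2.rest E2) e _).zero_mem
    · refine (TR.mul_dg_le _ _ e).trans (sup_le ?_ ?_)
      · rw [cdl_dg]
        exact bot_le
      · rw [rst_dg E2 hE2, Pj.tr_dg]
        refine le_trans ?_ le_sup_left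
        refine le_trans ?_ le_sup_right
        exact Sp.restL_mono E2 hE2 (P1.map_mono (dg_le_cv w e i))
  · -- hY
    rw [← hYY]
    exact Sp.restL_mono E2 hE2 (P2.map_mono hYt)
  · -- hF
    intro i
    rw [rst_dg E2 hE2, Pj.tr_dg]
    refine le_trans ?_ le_sup_left
    refine le_trans ?_ le_sup_left
    refine le_trans ?_ le_sup_right
    exact Sp.restL_mono E2 hE2 (P1.map_mono (dg_le_cv F0 g i))
  · -- the large coefficient
    refine Sp.Typ_true.mono ?_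
    filter_upwards [hmem, h3] with k b1 b2 v hv _
    obtain ⟨c1, c2⟩ := b1 v hv
    refine ⟨im, him.2, ?_⟩
    have d1 := b2 (P1.π k v) (P1.supp k v c1) c2 im him.2 hjim
    have d2 := ev_nrm u E (fun i => α + j i * δ) K hK h2 im k (P1.π k v) c2 him.2
    have d3 : TR.ev (cc im) k v = (T2.rest E2).dl 0 k * TR.ev (w im) k (P1.π k v) := by
      have e1 : cc im = cdl (max ((j im : ℝ) * δ + mdeg im * s - lam) 0) (le_max_right _ _) *
        rst E2 (P1.tr (w im)) := if_neg him.2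
      rw [e1, TR.ev_mul, ev_cdl]
      have e2 : max ((j im : ℝ) * δ + mdeg im * s - lam) 0 = 0 := by
        rw [hlam, sub_self, max_self]
      rw [e2]
      rfl
    rw [d3, (T2.rest E2).dl_zero, one_mul, one_mul]
    have d4 : TR.ev (u im) k (P1.π k v) = T1.dl (α + j im * δ) k * TR.ev (w im) k (P1.π k v) := d2.symm
    rw [d4, abs_mul, abs_of_pos (T1.dl_pos _ k)] at d1
    have d5 : T1.dl (α + (j im + 1) * δ) k = T1.dl (α + j im * δ) k * T1.dl δ k := by
      rw [← T1.dl_add]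
      congr 1
      ring
    rw [d5] at d1
    have d6 := T1.dl_pos (α + j im * δ) k
    have d7 : T1.dl (α + j im * δ) k * (K k * T1.dl δ k) < T1.dl (α + j im * δ) k * |TR.ev (w im) k (P1.π k v)| := by
      linarith
    have d8 := lt_of_mul_lt_mul_left d7 d6.le
    have d9 : (T2.rest E2).dl δ k = T1.dl δ k := dl_pj P1 δ k
    rw [d9]
    have := T1.dl_pos δ k
    have := hK1 k
    nlinarith
  · -- the second point on the sheet
    have a1 : TR.Ag g (P2.tr z) (pe (fun i => P2.tr (f i)) (TR.cor (P2.vv y))) := by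
      have := P2.ag hz
      rwa [pe_tr] at this
    have a2 : TR.Ag g (pe (fun i => P2.tr (f i)) (TR.cor (P2.vv y)))
        (pe (fun i => P1.tr (b.tr (f i))) (TR.cor (P2.vv y))) := by
      refine Ag.pe (fun i => ?_) (fun _ => TR.Ag.refl g _)
      refine ag_of_close ?_
      filter_upwards [hclF] with k hk w hw
      have := hk w hw (Fintype.equivFin (Mon (N + 1) D) i)
      rw [abs_sub_comm] at this
      have e1 : (P1.vv (b.vv (cv f))).v k w (Fintype.equivFin (Mon (N + 1) D) i) =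
          TR.ev (P1.tr (b.tr (f i))) k w := by
        show TR.ev (f ((Fintype.equivFin (Mon (N + 1) D)).symm (Fintype.equivFin (Mon (N + 1) D) i))) k _ = _
        rw [Equiv.symm_apply_apply]
        rfl
      have e2 : (P2.vv (cv f)).v k w (Fintype.equivFin (Mon (N + 1) D) i) = TR.ev (P2.tr (f i)) k w := by
        show TR.ev (f ((Fintype.equivFin (Mon (N + 1) D)).symm (Fintype.equivFin (Mon (N + 1) D) i))) k _ = _
        rw [Equiv.symm_apply_apply]
        rfl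
      rwa [e1, e2] at this
    have a3 := ag_rst E2 hE2 (a1.trans a2)
    have a4 : TR.Ag g (rst E2 (P1.tr (u (z0 (N + 1) D)))) (rst E2 (P1.tr 0)) := ag_rst E2 hE2 (P1.ag hz0)
    obtain ⟨G1, L1, hG1, hL1, hl1⟩ := a3
    obtain ⟨G2, L2, hG2, hL2, hl2⟩ := a4
    refine ⟨fun k w => G1 k w ∧ G2 k w, fun k => L1 k + L2 k, hG1.and hG2, hL1.add hL2, ?_⟩
    filter_upwards [hl1, hl2, hmem] with k b1 b2 b3 v hv hG
    obtain ⟨c1, c2⟩ := b3 v hv
    have q1 : ∀ v2 : (T2.F k).Ω, TR.ev (pe (fun i => P1.tr (b.tr (f i))) (TR.cor (P2.vv y))) k v2 =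
        MvPolynomial.eval (y.v k (P2.π k v2)) (pol fun i => TR.ev (b.tr (f i)) k (P1.π k v2)) :=
      fun v2 => ev_pe _ _ k v2
    have t1 : |TR.ev z k (P2.π k v) - MvPolynomial.eval (y.v k (P2.π k v))
        (pol fun i => TR.ev (b.tr (f i)) k (P1.π k v))| ≤ L1 k * (T2.rest E2).dl g k := by
      have t0 := b1 v hv hG.1
      rw [← q1 v]
      exact t0
    have t2 : |TR.ev (u (z0 (N + 1) D)) k (P1.π k v)| ≤ L2 k * (T2.rest E2).dl g k := by
      have t0 := b2 v hv hG.2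
      have e1 : TR.ev (rst E2 (P1.tr (0 : TR T1))) k v = 0 := rfl
      rw [e1, sub_zero] at t0
      exact t0
    have t3 := taylor (fun i => TR.ev (a.tr (f i)) k (P1.π k v)) (fun i => TR.ev (b.tr (f i)) k (P1.π k v))
      (X.v k (P1.π k v)) (y.v k (P2.π k v)) (fun i => TR.ev (cc i) k v) ((T2.rest E2).dl (α + lam) k) ((T2.rest E2).dl s k)
      ((T2.rest E2).dl_pos s k).ne' (by
        have : cc (z0 (N + 1) D) = 0 := if_pos rfl
        rw [this]
        rfl) (fun i hi => by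
        have e1 : cc i = cdl (max ((j i : ℝ) * δ + mdeg i * s - lam) 0) (le_max_right _ _) *
          rst E2 (P1.tr (w i)) := if_neg hi
        have e2 : max ((j i : ℝ) * δ + mdeg i * s - lam) 0 = (j i : ℝ) * δ + mdeg i * s - lam := by
          refine max_eq_left ?_
          have := hmin i (by simp [hi])
          linarith
        rw [e1, TR.ev_mul, ev_cdl, e2]
        have e3 := ev_nrm u E (fun i => α + j i * δ) K hK h2 i k (P1.π k v) c2 hi
        have e4 : shr (fun i => TR.ev (b.tr (f i)) k (P1.π k v) - TR.ev (a.tr (f i)) k (P1.π k v))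
            (X.v k (P1.π k v)) i = TR.ev (u i) k (P1.π k v) := rfl
        rw [e4, ← e3]
        have e5 : TR.ev (rst E2 (P1.tr (w i))) k v = TR.ev (w i) k (P1.π k v) := rfl
        rw [e5]
        have e6 : T1.dl (α + j i * δ) k = (T2.rest E2).dl (α + j i * δ) k := (dl_pj P1 _ k).symm
        show (T2.rest E2).dl (α + lam) k * ((T2.rest E2).dl (j i * δ + mdeg i * s - lam) k * TR.ev (w i) k (P1.π k v)) =
          T1.dl (α + j i * δ) k * TR.ev (w i) k (P1.π k v) * (T2.rest E2).dl s k ^ mdeg i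
        rw [e6, ← dl_pow, ← mul_assoc, ← (T2.rest E2).dl_add, mul_right_comm, ← (T2.rest E2).dl_add]
        congr 2
        ring)
    have t4 : TR.ev (pe (fun i => rst E2 (P1.tr (F0 i))) (TR.cor ((P2.vv y).rest E2)) +
        cdl (α + lam) hβ * pe cc (TR.cor V3)) k v =
        MvPolynomial.eval (y.v k (P2.π k v)) (pol fun i => TR.ev (a.tr (f i)) k (P1.π k v)) +
          (T2.rest E2).dl (α + lam) k * MvPolynomial.eval (fun i => (y.v k (P2.π k v) i - X.v k (P1.π k v) i) / (T2.rest E2).dl s k)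
            (pol fun i => TR.ev (cc i) k v) := by
      rw [TR.ev_add, TR.ev_mul, ev_pe, ev_pe, ev_cdl]
      rfl
    rw [t4]
    rw [t3] at t1
    have t6 : shr (fun i => TR.ev (b.tr (f i)) k (P1.π k v) - TR.ev (a.tr (f i)) k (P1.π k v))
        (X.v k (P1.π k v)) (z0 (N + 1) D) = TR.ev (u (z0 (N + 1) D)) k (P1.π k v) := rfl
    rw [t6] at t1
    have t8 : TR.ev (rst E2 (P2.tr z)) k v = TR.ev z k (P2.π k v) := rfl
    rw [t8]
    have t1' := abs_le.mp t1
    have t2' := abs_le.mp t2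
    rw [add_mul, abs_le]
    constructor <;> linarith [t1'.1, t1'.2, t2'.1, t2'.2]
  · -- the deficit
    have h4 := hDD T2 P2 E2 hE2 hp2 (α + lam) (α + lam + e) hlamL (by linarith) hlamg
    rw [← Pj.tr_dg, ← Pj.tr_dg, ← rst_dg, ← rst_dg] at h4
    refine h4.trans (le_of_eq ?_)
    ring

/-- THE CLASS LEMMA -/
theorem cls (y : S.VV (N + 1)) (z : TR S) (f : Mon (N + 1) D → TR S) (Yt : S.L) (g p ρ κ ε e δ θ τ α : ℝ)
    (J J1 : ℕ) (j : Mon (N + 1) D → ℕ) (hYt : y.dg g ≤ Yt) (hz : TR.Ag g z (pe f (TR.cor y)))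
    (hBl : Bl y ((cv f).dg g) Yt g p ε) (hDD : DD Yt z g p ρ κ) (T1 : Sp) (a b : Pj T1 S)
    (hy : ∀ i, TR.Ag g (TR.cor (a.vv y) i) (TR.cor (b.vv y) i)) (hzc : TR.Ag g (a.tr z) (b.tr z))
    (E : ∀ k, (T1.F k).Ω → Prop) (hE : 0 < ul (T1.pr E)) (hp : p ≤ ul (T1.pr E))
    (K : ℕ → ℝ) (hK : T1.Sub K) (hK1 : ∀ k, 1 ≤ K k)
    (h1 : ∀ᶠ k in UF, ∀ ω, (T1.F k).μ ω ≠ 0 → E k ω → ∃ i, T1.dl (α + τ) k < |TR.ev (b.tr (f i) - a.tr (f i)) k ω|)
    (h2 : ∀ᶠ k in UF, ∀ ω, (T1.F k).μ ω ≠ 0 → E k ω → ∀ i, i ≠ z0 (N + 1) D →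
      |TR.ev (sh (fun i => b.tr (f i) - a.tr (f i)) (TR.cor (b.vv y)) i) k ω| ≤ K k * T1.dl (α + j i * δ) k)
    (h3 : ∀ᶠ k in UF, ∀ ω, (T1.F k).μ ω ≠ 0 → E k ω → ∀ i, i ≠ z0 (N + 1) D → j i < J1 →
      K k * T1.dl (α + (j i + 1) * δ) k <
        |TR.ev (sh (fun i => b.tr (f i) - a.tr (f i)) (TR.cor (b.vv y)) i) k ω|)
    (he : 0 < e) (hδ : 0 < δ) (hθ : 0 < θ) (hθe : θ ≤ e) (hα : 0 ≤ α) (hJ : 0 < J) (hτ : 0 ≤ τ)
    (hατ : α + τ < g) (hJ1 : τ + δ + D * (J * e) < J1 * δ) (hlev : α + (τ + δ + D * (J * e)) + e ≤ g)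
    (hJe : J * e ≤ g) :
    ρ * e ≤ κ + (2 * ε + Fintype.card (Mon (N + 1) D) * e / J) + δ + D * θ +
      (N + 1) * e * ((2 * ε + Fintype.card (Mon (N + 1) D) * e / J) / θ) :=
  clsL y z f Yt 0 g p ρ κ ε e δ θ τ α J J1 j hYt hz hBl
    (fun T π E hE hpE r s hr => hDD T π E hE hpE r s hr) T1 a b hy hzc E hE hp K hK hK1 h1 h2 h3 he hδ hθ hθe hα hJ hατ
    (Or.inl (by
      rw [max_eq_left (by linarith)]
      exact hJ1)) hlev (by linarith) hJe (by linarith)

end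

end Pool.Agent.Helper97.SL
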