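import Pool.Agent.Helper97.SL.Core

/-! One class of the static sheet lemma: the inequality on an event on which the sizes of the Taylor coefficients of
the difference of two sheets are fixed. (SSL) -/

set_option autoImplicit false

namespace Pool.Agent.Helper97.SL

open Finset Filter Topology
open Pool.Agent.Helper3.LF Pool.Agent.Helper69.RK Pool.Agent.Helper31.EC Pool.Agent.Helper25.EC

noncomputable section

variable {S T : Sp} {N D : ℕ}

/-- (B) BLINDNESS: the base is almost full given the information `F` up to level `g`, and `F` has almost no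
information about all digits `Yt` of the base, on all events of probability at least `p` of all extensions -/
def Bl {m : ℕ} (y : S.VV m) (F Yt : S.L) (g p ε : ℝ) : Prop :=
  ∀ (T : Sp) (π : Pj T S) (E : ∀ k, (T.F k).Ω → Prop) (hE : 0 < ul (T.pr E)), p ≤ ul (T.pr E) →
    (∀ s e : ℝ, 0 ≤ s → 0 ≤ e → s + e ≤ g →
      m * e - ε ≤ h (Sp.restL E hE (π.map (y.dg (s + e))))
        (Sp.restL E hE (π.map (y.dg s)) ⊔ Sp.restL E hE (π.map F))) ∧
    ∀ s : ℝ, 0 ≤ s → s ≤ g →
      I (Sp.restL E hE (π.map F)) (Sp.restL E hE (π.map Yt)) (Sp.restL E hE (π.map (y.dg s))) ≤ ε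

/-- (D) deficit of `z` on all intervals up to level `g`, given all digits `Yt` of the base, on all events of
probability at least `p` of all extensions -/
def DD (Yt : S.L) (z : TR S) (g p ρ κ : ℝ) : Prop :=
  ∀ (T : Sp) (π : Pj T S) (E : ∀ k, (T.F k).Ω → Prop) (hE : 0 < ul (T.pr E)), p ≤ ul (T.pr E) →
    ∀ r s : ℝ, 0 ≤ r → r ≤ s → s ≤ g →
      h (Sp.restL E hE (π.map (TR.dg z s))) (Sp.restL E hE (π.map Yt) ⊔ Sp.restL E hE (π.map (TR.dg z r))) ≤
        (1 - ρ) * (s - r) + κ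

theorem dg_le_of_close {m : ℕ} (y y' : T.VV m) (r s : ℝ) (hs : s ≤ r)
    (h : ∀ᶠ k in UF, ∀ ω, (T.F k).μ ω ≠ 0 → ∀ i, |y.v k ω i - y'.v k ω i| ≤ T.dl r k) : y.dg s ≤ y'.dg s := by
  refine Sp.VV.dg_le_dg y y' s s (fun _ _ => True) Sp.Typ_true (fun _ => 3) (T.Sub_const (by norm_num)) ?_
  filter_upwards [h] with k hk ω ω' a a' _ _ _ f i
  have h1 := abs_le.mp (hk ω a i)
  have h2 := abs_le.mp (hk ω' a' i)
  have h3 := abs_le.mp (f i)
  have h4 := T.dl_anti hs k
  rw [abs_le]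
  constructor <;> linarith [h1.1, h1.2, h2.1, h2.2, h3.1, h3.2]

theorem dg_eq_of_close {m : ℕ} (y y' : T.VV m) (r s : ℝ) (hs : s ≤ r)
    (h : ∀ᶠ k in UF, ∀ ω, (T.F k).μ ω ≠ 0 → ∀ i, |y.v k ω i - y'.v k ω i| ≤ T.dl r k) : y.dg s = y'.dg s := by
  refine le_antisymm (dg_le_of_close y y' r s hs h) (dg_le_of_close y' y r s hs ?_)
  filter_upwards [h] with k hk ω a i
  rw [abs_sub_comm]
  exact hk ω a i

theorem dg_eq_of_ag {m : ℕ} (y y' : T.VV m) (r s : ℝ) (hs : s ≤ r)
    (h : ∀ i, TR.Ag r (TR.cor y i) (TR.cor y' i)) : y.dg s = y'.dg s := by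
  apply le_antisymm
  · rw [TR.vv_dg_le_iff]
    intro i
    rw [(h i).dg_eq hs]
    exact TR.cor_dg_le y' i s
  · rw [TR.vv_dg_le_iff]
    intro i
    rw [← (h i).dg_eq hs]
    exact TR.cor_dg_le y i s

/-- the difference of the two sheets at the first point -/
theorem diff_small (y : S.VV (N + 1)) (z : TR S) (f : Mon (N + 1) D → TR S) (g : ℝ)
    (hz : TR.Ag g z (pe f (TR.cor y))) (a b : Pj T S)
    (hy : ∀ i, TR.Ag g (TR.cor (a.vv y) i) (TR.cor (b.vv y) i)) (hzc : TR.Ag g (a.tr z) (b.tr z)) :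
    TR.Ag g (sh (fun i => b.tr (f i) - a.tr (f i)) (TR.cor (b.vv y)) (z0 (N + 1) D)) 0 := by
  have e1 : sh (fun i => b.tr (f i) - a.tr (f i)) (TR.cor (b.vv y)) (z0 (N + 1) D) =
      pe (fun i => b.tr (f i) - a.tr (f i)) (TR.cor (b.vv y)) := by
    apply Subtype.ext
    funext k ω
    show TR.ev (sh _ _ _) k ω = TR.ev (pe _ _) k ω
    rw [ev_sh, shr_z0, ev_pe]
  rw [e1, pe_sub]
  have h1 : TR.Ag g (b.tr z) (pe (fun i => b.tr (f i)) (TR.cor (b.vv y))) := by
    have := b.ag hz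
    rwa [pe_tr] at this
  have h2 : TR.Ag g (a.tr z) (pe (fun i => a.tr (f i)) (TR.cor (a.vv y))) := by
    have := a.ag hz
    rwa [pe_tr] at this
  have h3 : TR.Ag g (pe (fun i => a.tr (f i)) (TR.cor (a.vv y))) (pe (fun i => a.tr (f i)) (TR.cor (b.vv y))) := by
    exact Ag.pe (fun _ => TR.Ag.refl g _) hy
  have h4 : TR.Ag g (a.tr z) (b.tr z) := hzc
  have h5 : TR.Ag g (pe (fun i => b.tr (f i)) (TR.cor (b.vv y))) (pe (fun i => a.tr (f i)) (TR.cor (b.vv y))) :=
    (h1.symm.trans h4.symm).trans (h2.trans h3)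
  have h6 := h5.sub (TR.Ag.refl g (pe (fun i => a.tr (f i)) (TR.cor (b.vv y))))
  rwa [sub_self] at h6

/-- one Taylor coefficient (not the constant one) is large -/
theorem exists_large (c : Mon (N + 1) D → TR T) (x : Fin (N + 1) → TR T) (g α τ δ : ℝ) (hδ : 0 < δ)
    (hατ : α + τ < g) (hz : TR.Ag g (sh c x (z0 (N + 1) D)) 0) (E : ∀ k, (T.F k).Ω → Prop) (hE : 0 < ul (T.pr E))
    (K : ℕ → ℝ) (hK : T.Sub K) (hK1 : ∀ k, 1 ≤ K k) (j : Mon (N + 1) D → ℕ)
    (h1 : ∀ᶠ k in UF, ∀ ω, (T.F k).μ ω ≠ 0 → E k ω → ∃ i, T.dl (α + τ) k < |TR.ev (c i) k ω|)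
    (h2 : ∀ᶠ k in UF, ∀ ω, (T.F k).μ ω ≠ 0 → E k ω → ∀ i, i ≠ z0 (N + 1) D →
      |TR.ev (sh c x i) k ω| ≤ K k * T.dl (α + j i * δ) k) :
    ∃ i, i ≠ z0 (N + 1) D ∧ j i * δ ≤ τ + δ := by
  obtain ⟨C, hC, hs⟩ := coeff_shift (N + 1) D
  obtain ⟨L, hL, hL1, hl⟩ := exists_bd x
  obtain ⟨E1, K1, hE1, hK1', hk1⟩ := hz
  have hLD : Ex T (fun k => L k ^ D) 0 := by
    have := (Ex_sub hL).pow (Eventually.of_forall fun k => by linarith [hL1 k]) D
    rwa [mul_zero] at this
  have hLDnn : ∀ k, 0 ≤ L k ^ D := fun k => pow_nonneg (by linarith [hL1 k]) D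
  -- typical points of the event
  have hne : ∀ᶠ k in UF, ∃ ω, (T.F k).μ ω ≠ 0 ∧ E k ω ∧ E1 k ω := by
    have t1 := typ_rest E hE hE1
    have t2 := rest_mem E hE
    have t3 : Tendsto (fun k => mass (res ((T.rest E).F k).μ (fun ω => ¬ E1 k ω))) UF (𝓝 0) := t1
    filter_upwards [t2, t3.eventually (gt_mem_nhds one_pos)] with k b1 b2
    by_contra hcon
    push Not at hcon
    have b3 : res ((T.rest E).F k).μ (fun ω => ¬ E1 k ω) = ((T.rest E).F k).μ := by
      funext ω
      unfold res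
      split_ifs with h0
      · rfl
      · by_contra hne
        have hne' : ((T.rest E).F k).μ ω ≠ 0 := fun h => hne h.symm
        obtain ⟨c1, c2⟩ := b1 ω hne'
        exact h0 (hcon ω c1 c2)
    rw [b3, ((T.rest E).F k).ms] at b2
    exact lt_irrefl _ b2
  -- exponents
  have ex1 : ∀ᶠ k in UF, C * L k ^ D * (K1 k * T.dl g k) ≤ T.dl (α + τ) k := by
    have a1 := ((Ex_const (S := T) C).mul hLD (Eventually.of_forall fun _ => by positivity)
      (Eventually.of_forall hLDnn)).mul ((Ex_sub hK1').mul (Ex_dl g) hK1'.1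
        (Eventually.of_forall fun k => (T.dl_pos g k).le)) (Eventually.of_forall fun k => by
          have := hLDnn k
          positivity) (hK1'.1.mono fun k hk => mul_nonneg hk (T.dl_pos g k).le)
    have a2 := (a1.mul (Ex_dl_inv (α + τ)) (hK1'.1.mono fun k hk => by
      have := hLDnn k
      have := T.dl_pos g k
      positivity) (Eventually.of_forall fun k => (inv_pos.mpr (T.dl_pos _ k)).le)).le_one (by linarith)
    filter_upwards [a2] with k hk
    have hp := T.dl_pos (α + τ) k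
    have := mul_le_mul_of_nonneg_right hk hp.le
    rwa [inv_mul_cancel_right₀ hp.ne', one_mul] at this
  have ex2 : ∀ᶠ k in UF, C * L k ^ D * K k < 2 ^ (δ * (T.F k).n) := by
    have a1 := ((Ex_const (S := T) C).mul hLD (Eventually.of_forall fun _ => by positivity)
      (Eventually.of_forall hLDnn)).mul (Ex_sub hK) (Eventually.of_forall fun k => by
        have := hLDnn k
        positivity) hK.1
    filter_upwards [a1 (δ / 2) (by linarith)] with k hk
    refine lt_of_le_of_lt hk (Real.rpow_lt_rpow_of_exponent_lt one_lt_two ?_)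
    have := (T.F k).pos
    nlinarith
  obtain ⟨k, ⟨ω, w1, w2, w3⟩, q1, q2, q3, q4, q5, q6, q7⟩ :=
    (hne.and (h1.and (h2.and (hl.and (hk1.and (ex1.and (ex2.and hK1'.1))))))).exists
  obtain ⟨i0, hi0⟩ := q1 ω w1 w2
  by_contra hcon
  push Not at hcon
  -- the coefficients are small
  have r1 : ∀ i, |TR.ev (sh c x i) k ω| * (C * L k ^ D) ≤ T.dl (α + τ) k := by
    intro i
    by_cases hi : i = z0 (N + 1) D
    · have s1 := q4 ω w1 w3
      rw [TR.ev_zero, sub_zero] at s1
      rw [hi]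
      have s2 : 0 ≤ C * L k ^ D := by
        have := hLDnn k
        positivity
      calc _ ≤ (K1 k * T.dl g k) * (C * L k ^ D) := mul_le_mul_of_nonneg_right s1 s2
        _ ≤ _ := by rw [mul_comm]; exact q5
    · have s1 := q2 ω w1 w2 i hi
      have s2 : 0 ≤ C * L k ^ D := by
        have := hLDnn k
        positivity
      have s3 := hcon i hi
      have s4 : T.dl (α + j i * δ) k ≤ T.dl (α + τ + δ) k := T.dl_anti (by linarith) k
      have s5 : T.dl (α + τ + δ) k = T.dl (α + τ) k * (2 ^ (δ * (T.F k).n))⁻¹ := by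
        rw [T.dl_add]
        congr 1
        unfold Sp.dl
        rw [Real.rpow_neg two_pos.le]
      have s6 : 0 < (2 : ℝ) ^ (δ * (T.F k).n) := Real.rpow_pos_of_pos two_pos _
      have hKk : 0 ≤ K k := by linarith [hK1 k]
      calc |TR.ev (sh c x i) k ω| * (C * L k ^ D) ≤ (K k * T.dl (α + j i * δ) k) * (C * L k ^ D) :=
            mul_le_mul_of_nonneg_right s1 s2
        _ ≤ (K k * T.dl (α + τ + δ) k) * (C * L k ^ D) :=
            mul_le_mul_of_nonneg_right (mul_le_mul_of_nonneg_left s4 hKk) s2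
        _ = (C * L k ^ D * K k) * (2 ^ (δ * (T.F k).n))⁻¹ * T.dl (α + τ) k := by rw [s5]; ring
        _ ≤ 1 * T.dl (α + τ) k := by
            refine mul_le_mul_of_nonneg_right ?_ (T.dl_pos _ k).le
            rw [← div_eq_mul_inv, div_le_one s6]
            exact q6.le
        _ = _ := one_mul _
  have hCL : 0 < C * L k ^ D := by
    have : 0 < L k := by linarith [hL1 k]
    positivity
  have r2 := hs (fun i => TR.ev (sh c x i) k ω) (fun i => TR.ev (c i) k ω) (fun i => -TR.ev (x i) k ω) (L k)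
    (T.dl (α + τ) k / (C * L k ^ D)) (hL1 k) (fun i => by rw [abs_neg]; exact q3 ω w1 i) (fun v => by
      have s1 : (fun i => TR.ev (sh c x i) k ω) = shr (fun a => TR.ev (c a) k ω) (fun i => TR.ev (x i) k ω) := rfl
      rw [s1, shr_eval]
      congr 2
      funext i
      ring) (fun i => by rw [le_div_iff₀ hCL]; exact r1 i) i0
  rw [mul_div_cancel₀ _ hCL.ne'] at r2
  linarith

end

end Pool.Agent.Helper97.SL
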