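import Pool.Agent.Helper97.SL.Wd

/-! Counting cubes: points with small gradient, points of a level set with large gradient. (SSL, tools) -/

set_option autoImplicit false

namespace Pool.Agent.Helper97.SL

open MvPolynomial Matrix
open Pool.Agent.Helper3.LF

variable {N D : ℕ}

/-- words of length at most `D` -/
def Wo (N D : ℕ) : Type := Σ k : Fin (D + 1), (Fin k → Fin N)

instance (N D : ℕ) : Fintype (Wo N D) := by unfold Wo; infer_instance

/-- the word as a list -/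
def Wo.l (w : Wo N D) : List (Fin N) := List.ofFn w.2

theorem exists_wo (l : List (Fin N)) (hl : l.length ≤ D) : ∃ w : Wo N D, w.l = l :=
  ⟨⟨⟨l.length, by omega⟩, l.get⟩, List.ofFn_get l⟩

/-- BAD COUNT: cubes which contain a point at which the gradient is small -/
theorem bad_count (N D : ℕ) : ∃ C : ℝ, 1 ≤ C ∧ ∀ (c : Mon (N + 1) D → ℝ) (K δ r ε m : ℝ), 1 ≤ K → 0 < δ → δ ≤ 1 →
    0 < r → r ≤ 1 → 0 ≤ ε → (∃ a, a ≠ z0 (N + 1) D ∧ m ≤ |c a|) → C * K ^ D * ε < m * r ^ D →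
    ∀ I : Finset (Fin (N + 1) → ℤ),
    (∀ x ∈ I, ∃ z : Fin (N + 1) → ℝ, (∀ i, |z i| ≤ K) ∧ (∀ i, ⌊z i / δ⌋ = x i) ∧
      ∀ i, |eval z (pderiv i (pol c))| ≤ ε) →
    (I.card : ℝ) ≤ C * ((K / δ) ^ N * (1 + r / δ)) := by
  obtain ⟨C1, hC1, h1⟩ := coeff_of_bad (N + 1) D
  obtain ⟨C2, hC2, h2⟩ := Pool.Agent.Helper80.LF.count_family N D
  set J := Fintype.card (Wo (N + 1) D) with hJ
  refine ⟨C1 + J * C2, by have : (0 : ℝ) ≤ J * C2 := by positivity
                          linarith, ?_⟩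
  intro c K δ r ε m hK hδ hδ1 hr hr1 hε ⟨a, ha, hma⟩ hlt I hI
  have hJC : (0 : ℝ) ≤ J * C2 := by positivity
  have hlt' : C1 * K ^ D * ε < m * r ^ D := by
    refine lt_of_le_of_lt ?_ hlt
    refine mul_le_mul_of_nonneg_right (mul_le_mul_of_nonneg_right (by linarith) (by positivity)) hε
  let q : Fin J → MvPolynomial (Fin (N + 1)) ℝ := fun k => wd (pol c) ((Fintype.equivFin (Wo (N + 1) D)).symm k).l
  have hq : ∀ k, (q k).totalDegree ≤ D := fun k => wd_deg_le (pol c) (pol_deg c) _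
  have h3 := h2 J q hq 0 K r δ hδ (hδ1.trans hK) hr.le (hr1.trans hK) I (by
    intro x hx
    obtain ⟨z, hz1, hz2, hz3⟩ := hI x hx
    refine ⟨z, fun i => by simpa using hz1 i, hz2, ?_⟩
    by_contra hcon
    push Not at hcon
    have h4 := h1 c z K r ε hK hz1 hr hr1 hε hz3 (fun l _ hl j => by
      obtain ⟨w, hw⟩ := exists_wo (D := D) l hl
      have h5 := hcon (Fintype.equivFin (Wo (N + 1) D) w) j
      have e : q (Fintype.equivFin (Wo (N + 1) D) w) = wd (pol c) l := by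
        show wd (pol c) ((Fintype.equivFin (Wo (N + 1) D)).symm (Fintype.equivFin (Wo (N + 1) D) w)).l = _
        rw [Equiv.symm_apply_apply, hw]
      rw [e] at h5
      by_cases h6 : eval z (pderiv j (wd (pol c) l)) = 0
      · rw [h6, abs_zero, mul_zero]
        exact abs_nonneg _
      · exact (h5 h6).le) a ha
    have h5 : m * r ^ D ≤ |c a| * r ^ D := mul_le_mul_of_nonneg_right hma (pow_nonneg hr.le _)
    linarith)
  refine h3.trans ?_
  have hpos : 0 ≤ (K / δ) ^ N * (1 + r / δ) := by positivity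
  calc (J : ℝ) * (C2 * ((K / δ) ^ N * (1 + r / δ))) = (J * C2) * ((K / δ) ^ N * (1 + r / δ)) := by ring
    _ ≤ _ := mul_le_mul_of_nonneg_right (by linarith) hpos

/-- LEVEL COUNT: cubes which contain a point of a level set at which the gradient is large -/
theorem lev_count (N D : ℕ) : ∃ C : ℝ, 1 ≤ C ∧ ∀ (q : MvPolynomial (Fin (N + 1)) ℝ), q.totalDegree ≤ D →
    ∀ (K δ κ η r0 : ℝ), 1 ≤ K → 0 < δ → δ ≤ 1 → 0 ≤ κ → 0 < η → κ * δ ≤ η →
    ∀ I : Finset (Fin (N + 1) → ℤ),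
    (∀ x ∈ I, ∃ z : Fin (N + 1) → ℝ, (∀ i, |z i| ≤ K) ∧ (∀ i, ⌊z i / δ⌋ = x i) ∧
      (∃ i, η ≤ |eval z (pderiv i q)|) ∧ |eval z q - r0| ≤ κ * δ) →
    (I.card : ℝ) ≤ C * ((K / δ) ^ N * (1 + κ / η)) := by
  obtain ⟨C2, hC2, h2⟩ := Pool.Agent.Helper80.LF.count N D
  refine ⟨1 + C2, by linarith, ?_⟩
  intro q hq K δ κ η r0 hK hδ hδ1 hκ hη hκη I hI
  have hr : 0 ≤ κ * δ / η := by positivity
  have hr1 : κ * δ / η ≤ 1 := (div_le_one hη).mpr hκη
  have hdeg : (q - C r0).totalDegree ≤ D := by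
    refine (totalDegree_sub q (C r0)).trans ?_
    rw [totalDegree_C]
    exact max_le hq (Nat.zero_le _)
  have h3 := h2 (q - C r0) hdeg 0 K (κ * δ / η) δ hδ (hδ1.trans hK) hr (hr1.trans hK) I (by
    intro x hx
    obtain ⟨z, hz1, hz2, ⟨i, hz3⟩, hz4⟩ := hI x hx
    refine ⟨z, fun i => by simpa using hz1 i, hz2, i, ?_⟩
    have e : pderiv i (q - C r0) = pderiv i q := by rw [map_sub, pderiv_C, sub_zero]
    rw [e]
    refine ⟨fun h0 => ?_, ?_⟩
    · rw [h0, abs_zero] at hz3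
      linarith
    · rw [map_sub, eval_C]
      refine hz4.trans ?_
      calc κ * δ = κ * δ / η * η := by rw [div_mul_cancel₀ _ hη.ne']
        _ ≤ _ := mul_le_mul_of_nonneg_left hz3 hr)
  have e1 : κ * δ / η / δ = κ / η := by
    rw [div_div, mul_comm η δ, mul_comm κ δ, mul_div_mul_left _ _ hδ.ne']
  rw [e1] at h3
  refine h3.trans ?_
  have hpos : 0 ≤ (K / δ) ^ N * (1 + κ / η) := by positivity
  exact mul_le_mul_of_nonneg_right (by linarith) hpos

/-- values of the monomials in a box -/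
theorem abs_vv_le (z : Fin N → ℝ) (K : ℝ) (hK : 1 ≤ K) (hz : ∀ i, |z i| ≤ K) (a : Mon N D) :
    |vv (D := D) z a| ≤ K ^ D := by
  rw [vv_apply, Finset.abs_prod]
  calc ∏ i, |z i ^ (a.1 i : ℕ)| ≤ ∏ i, K ^ (a.1 i : ℕ) := by
        refine Finset.prod_le_prod (fun i _ => abs_nonneg _) fun i _ => ?_
        rw [abs_pow]
        exact pow_le_pow_left₀ (abs_nonneg _) (hz i) _
    _ = K ^ (∑ i, (a.1 i : ℕ)) := Finset.prod_pow_eq_pow_sum _ _ _
    _ ≤ K ^ D := pow_le_pow_right₀ hK a.2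

/-- values of polynomials with close coefficients -/
theorem val_close (c c' : Mon N D → ℝ) (δ : ℝ) (hc : ∀ a, |c a - c' a| ≤ δ) (z : Fin N → ℝ) (K : ℝ)
    (hK : 1 ≤ K) (hz : ∀ i, |z i| ≤ K) :
    |eval z (pol c) - eval z (pol c')| ≤ Fintype.card (Mon N D) * K ^ D * δ := by
  rw [eval_pol, eval_pol, ← sub_dotProduct]
  unfold dotProduct
  refine (Finset.abs_sum_le_sum_abs _ _).trans ?_
  refine (Finset.sum_le_card_nsmul _ _ (K ^ D * δ) fun a _ => ?_).trans (le_of_eq ?_)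
  · rw [abs_mul, mul_comm]
    refine mul_le_mul (abs_vv_le z K hK hz a) (hc a) (abs_nonneg _) (by positivity)
  · rw [nsmul_eq_mul, Finset.card_univ]
    ring

/-- derivatives of the monomials in a box -/
theorem exists_dd (N D : ℕ) : ∃ C : ℝ, 1 ≤ C ∧ ∀ (z : Fin N → ℝ) (K : ℝ), 1 ≤ K → (∀ i, |z i| ≤ K) →
    ∀ (i : Fin N) (a : Mon N D), |dd (D := D) i z a| ≤ C * K ^ (N * D + D) := by
  have hnn := Cm_one N D
  refine ⟨Cm N D, hnn, fun z K hK hz i a => ?_⟩
  have h1 := cell_der D a.mon (mon_deg a) 0 1 K 1 one_pos hK (fun j => by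
    have h2 := abs_vv_le (D := D) (nodp D (0 : Fin N → ℝ) 1 j) 1 le_rfl (fun i => by
      unfold nodp
      rw [Pi.zero_apply, zero_add, one_mul, abs_of_nonneg (nod_nonneg D _)]
      exact nod_le D _ (by have := (j i).isLt; omega)) a
    rw [one_pow] at h2
    exact h2) z (fun i => by simpa using hz i) i
  rw [one_mul, mul_one] at h1
  exact h1

/-- derivatives of polynomials with close coefficients -/
theorem exists_der_close (N D : ℕ) : ∃ C : ℝ, 1 ≤ C ∧ ∀ (c c' : Mon N D → ℝ) (δ : ℝ), (∀ a, |c a - c' a| ≤ δ) →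
    ∀ (z : Fin N → ℝ) (K : ℝ), 1 ≤ K → (∀ i, |z i| ≤ K) → ∀ i : Fin N,
    |eval z (pderiv i (pol c)) - eval z (pderiv i (pol c'))| ≤ C * K ^ (N * D + D) * δ := by
  obtain ⟨C, hC, h⟩ := exists_dd N D
  have hcard : (1 : ℝ) ≤ Fintype.card (Mon N D) := by
    have : 0 < Fintype.card (Mon N D) := Fintype.card_pos
    exact_mod_cast this
  refine ⟨Fintype.card (Mon N D) * C, by nlinarith, fun c c' δ hc z K hK hz i => ?_⟩
  rw [eval_pderiv_pol, eval_pderiv_pol, ← sub_dotProduct]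
  unfold dotProduct
  refine (Finset.abs_sum_le_sum_abs _ _).trans ?_
  refine (Finset.sum_le_card_nsmul _ _ (C * K ^ (N * D + D) * δ) fun a _ => ?_).trans (le_of_eq ?_)
  · rw [abs_mul, mul_comm]
    refine mul_le_mul (h z K hK hz i a) (hc a) (abs_nonneg _) (by positivity)
  · rw [nsmul_eq_mul, Finset.card_univ]
    ring

end Pool.Agent.Helper97.SL
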