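import Pool.Agent.Helper97.SL.Sh

/-! The core inequality of the static sheet lemma; entropy bookkeeping; choice of the window. (SSL) -/

set_option autoImplicit false

namespace Pool.Agent.Helper97.SL

open Finset Filter Topology
open Pool.Agent.Helper3.LF Pool.Agent.Helper69.RK Pool.Agent.Helper31.EC

noncomputable section

variable {T : Sp} {N D : ℕ}

/-- CORE INEQUALITY: the second point sees a polynomial with known coefficients in the almost uniform first point -/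
theorem core (X Y V : T.VV (N + 1)) (F0 c : Mon (N + 1) D → TR T) (Z : TR T) (A : T.L)
    (Yt : T.L) (e δ d θ ρ κ g β s : ℝ) (he : 0 < e) (hδ : 0 ≤ δ) (hθ : 0 < θ) (hθe : θ ≤ e) (hβ : 0 ≤ β)
    (hβg : β + e ≤ g)
    (hV : X.dg s ≤ V.dg e ⊔ A) (hX : (N + 1) * e - d ≤ h (X.dg s) A)
    (hc : ∀ a, TR.dg (c a) e ≤ A) (hYt : Y.dg g ≤ Yt) (hY : Yt ≤ A) (hF : ∀ a, TR.dg (F0 a) g ≤ A)
    (K : ℕ → ℝ) (hK : T.Sub K)
    (h2 : Sp.Typ (fun k ω => ∃ a, a ≠ z0 (N + 1) D ∧ T.dl δ k ≤ K k * |TR.ev (c a) k ω|))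
    (hZ : TR.Ag g Z (pe F0 (TR.cor Y) + cdl β hβ * pe c (TR.cor V)))
    (hD : h (TR.dg Z (β + e)) (Yt ⊔ TR.dg Z β) ≤ (1 - ρ) * e + κ) :
    ρ * e ≤ κ + d + δ + D * θ + (N + 1) * e * (d / θ) := by
  have h3 : (N + 1) * e - d ≤ h (V.dg e) A := by
    refine hX.trans ?_
    calc h (X.dg s) A ≤ h (V.dg e ⊔ A) A := h_mono hV
      _ = h (V.dg e) A := h_sup_right_of_le le_rfl
  have h4 := fullpoly V c A e δ d θ he hδ hθ hθe hc K hK h2 h3
  set ψ : TR T := pe c (TR.cor V) with hψ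
  set G : TR T := pe F0 (TR.cor Y) with hG
  have hGA : TR.dg G g ≤ A := pe_mem F0 _ g A hF fun i => (TR.cor_dg_le Y i g).trans (hYt.trans hY)
  obtain ⟨E, L, hE, hL, hl⟩ := hZ
  have hL2 : T.Sub (fun k => 2 * L k + 2) := (((T.Sub_const zero_le_two).mul hL).add (T.Sub_const zero_le_two))
  have hβe : 0 ≤ β + e := by linarith
  -- ψ is known from Z and A
  have h5 : TR.dg ψ e ≤ TR.dg Z (β + e) ⊔ TR.dg G g := by
    refine Sp.VV.dg_le_dg2 (TR.vec fun _ : Fin 1 => ψ) (TR.vec fun _ : Fin 1 => Z) (TR.vec fun _ : Fin 1 => G)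
      e (β + e) g E hE (fun k => 2 * L k + 2) hL2 ?_
    filter_upwards [hl, hL.1] with k hk hLk ω ω' a a' b b' _ f1 f2 i
    have g1 : |TR.ev Z k ω - TR.ev Z k ω'| ≤ T.dl (β + e) k := f1 0
    have g2 : |TR.ev G k ω - TR.ev G k ω'| ≤ T.dl g k := f2 0
    show |TR.ev ψ k ω - TR.ev ψ k ω'| ≤ (2 * L k + 2) * T.dl e k
    have g3 := abs_le.mp (hk ω a b)
    have g4 := abs_le.mp (hk ω' a' b')
    have e1 : ∀ ω, TR.ev (G + cdl β hβ * ψ) k ω = TR.ev G k ω + T.dl β k * TR.ev ψ k ω := fun ω => rfl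
    rw [e1] at g3 g4
    have g1' := abs_le.mp g1
    have g2' := abs_le.mp g2
    have hb := T.dl_pos β k
    have m1 : T.dl g k ≤ T.dl (β + e) k := T.dl_anti hβg k
    have m3 := mul_le_mul_of_nonneg_left m1 hLk
    have g5 : |T.dl β k * TR.ev ψ k ω - T.dl β k * TR.ev ψ k ω'| ≤ (2 * L k + 2) * T.dl (β + e) k := by
      rw [abs_le]
      constructor <;> linarith [g3.1, g3.2, g4.1, g4.2, g1'.1, g1'.2, g2'.1, g2'.2]
    rw [← mul_sub, abs_mul, abs_of_pos hb, T.dl_add] at g5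
    have g6 : T.dl β k * |TR.ev ψ k ω - TR.ev ψ k ω'| ≤ T.dl β k * ((2 * L k + 2) * T.dl e k) := by linarith
    exact le_of_mul_le_mul_left g6 hb
  -- the first digits of Z are known
  obtain ⟨Kψ, hKψ, hψb⟩ := ψ.2
  have h6 : TR.dg Z β ≤ TR.dg G g := by
    refine Sp.VV.dg_le_dg (TR.vec fun _ : Fin 1 => Z) (TR.vec fun _ : Fin 1 => G) β g E hE
      (fun k => 2 * L k + 2 + 2 * Kψ k) (hL2.add ((T.Sub_const zero_le_two).mul hKψ)) ?_
    filter_upwards [hl, hL.1, hψb] with k hk hLk hψk ω ω' a a' b b' _ f2 i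
    have g2 : |TR.ev G k ω - TR.ev G k ω'| ≤ T.dl g k := f2 0
    show |TR.ev Z k ω - TR.ev Z k ω'| ≤ (2 * L k + 2 + 2 * Kψ k) * T.dl β k
    have g3 := abs_le.mp (hk ω a b)
    have g4 := abs_le.mp (hk ω' a' b')
    have e1 : ∀ ω, TR.ev (G + cdl β hβ * ψ) k ω = TR.ev G k ω + T.dl β k * TR.ev ψ k ω := fun ω => rfl
    rw [e1] at g3 g4
    have g2' := abs_le.mp g2
    have hb := T.dl_pos β k
    have m1 : T.dl g k ≤ T.dl β k := T.dl_anti (by linarith) k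
    have m3 := mul_le_mul_of_nonneg_left m1 hLk
    have p1 : |TR.ev ψ k ω| ≤ Kψ k := hψk ω a
    have p2 : |TR.ev ψ k ω'| ≤ Kψ k := hψk ω' a'
    have q1 : |T.dl β k * TR.ev ψ k ω| ≤ Kψ k * T.dl β k := by
      rw [abs_mul, abs_of_pos hb, mul_comm]
      exact mul_le_mul_of_nonneg_right p1 hb.le
    have q2 : |T.dl β k * TR.ev ψ k ω'| ≤ Kψ k * T.dl β k := by
      rw [abs_mul, abs_of_pos hb, mul_comm]
      exact mul_le_mul_of_nonneg_right p2 hb.le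
    have q1' := abs_le.mp q1
    have q2' := abs_le.mp q2
    rw [abs_le]
    constructor <;> linarith [g3.1, g3.2, g4.1, g4.2, g2'.1, g2'.2, q1'.1, q1'.2, q2'.1, q2'.2]
  have h7 : h (TR.dg ψ e) A ≤ h (TR.dg Z (β + e)) A := by
    have : TR.dg ψ e ≤ TR.dg Z (β + e) ⊔ A := h5.trans (sup_le_sup_left hGA _)
    calc h (TR.dg ψ e) A ≤ h (TR.dg Z (β + e) ⊔ A) A := h_mono this
      _ = _ := h_sup_right_of_le le_rfl
  have h8 : h (TR.dg Z (β + e)) A ≤ h (TR.dg Z (β + e)) (Yt ⊔ TR.dg Z β) :=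
    h_anti (sup_le hY (h6.trans hGA))
  linarith

/-- entropy bookkeeping -/
theorem ent {L : Type} [PM L] (x0 x1 F0 F1 W Y : L) (ε a : ℝ)
    (hI : I (x1 ⊔ F0 ⊔ W) Y (F1 ⊔ x0) = 0) (hB : I F1 Y x0 ≤ ε)
    (hX : a ≤ h x1 (x0 ⊔ F0 ⊔ W)) : a - ε ≤ h x1 (x0 ⊔ F0 ⊔ W ⊔ Y) := by
  have h2 : I (F1 ⊔ (x1 ⊔ F0 ⊔ W)) Y x0 ≤ ε := by
    rw [I_chain, hI]
    linarith
  have h3 : I x1 Y (x0 ⊔ F0 ⊔ W) ≤ ε := by
    have h4 : I x1 Y ((F0 ⊔ W) ⊔ x0) ≤ I (x1 ⊔ F0 ⊔ W) Y x0 := by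
      have h5 : I x1 Y ((F0 ⊔ W) ⊔ x0) ≤ I (x1 ⊔ F0 ⊔ W) Y ((F0 ⊔ W) ⊔ x0) :=
        I_mono_left (le_trans (le_sup_left.trans le_sup_left) le_sup_left)
      refine h5.trans (I_cond_le ?_)
      rw [sup_assoc]
      exact le_sup_right
    have e : x0 ⊔ F0 ⊔ W = (F0 ⊔ W) ⊔ x0 := by rw [sup_assoc, sup_comm]
    rw [e]
    refine h4.trans (le_trans (I_mono_left ?_) h2)
    exact le_trans le_sup_right le_sup_left
  have h4 := I_eq x1 Y (x0 ⊔ F0 ⊔ W)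
  have e : Y ⊔ (x0 ⊔ F0 ⊔ W) = x0 ⊔ F0 ⊔ W ⊔ Y := sup_comm _ _
  rw [e] at h4
  linarith

/-- choice of the window -/
theorem window {L : Type} [PM L] (x : ℕ → L) (hx : ∀ i, x i ≤ x (i + 1)) (F W : L) (J : ℕ) (hJ : 0 < J) (M : ℝ)
    (hW : H W ≤ M) : ∃ i < J, I (x (i + 1)) W (x i ⊔ F) ≤ M / J := by
  by_contra hcon
  push Not at hcon
  have h1 : ∀ i, I (x (i + 1)) W (x i ⊔ F) = I (x (i + 1)) W F - I (x i) W F := by
    intro i
    have h2 := I_chain (x i) (x (i + 1)) W F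
    have h3 : x i ⊔ x (i + 1) = x (i + 1) := sup_eq_right.mpr (hx i)
    rw [h3] at h2
    linarith
  have h2 : ∑ i ∈ Finset.range J, I (x (i + 1)) W (x i ⊔ F) = I (x J) W F - I (x 0) W F := by
    simp_rw [h1]
    exact Finset.sum_range_sub (fun i => I (x i) W F) J
  have h3 : ∑ i ∈ Finset.range J, (M / J) < ∑ i ∈ Finset.range J, I (x (i + 1)) W (x i ⊔ F) :=
    Finset.sum_lt_sum_of_nonempty (Finset.nonempty_range_iff.mpr hJ.ne') fun i hi => hcon i (Finset.mem_range.mp hi)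
  rw [h2, Finset.sum_const, Finset.card_range, nsmul_eq_mul] at h3
  have h4 : I (x J) W F ≤ M := (I_le_h_right _ _ _).trans ((h_le_H _ _).trans hW)
  have h5 := I_nonneg (x 0) W F
  have h6 : (0 : ℝ) < J := by exact_mod_cast hJ
  have h7 : (J : ℝ) * (M / J) = M := by field_simp
  linarith

/-- almost full variables have almost full digits -/
theorem full_win {m : ℕ} (X : T.VV m) (F : T.L) (ε s e : ℝ) (hs : 0 ≤ s) (he : 0 ≤ e) (hse : s + e ≤ 1)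
    (h1 : m - ε ≤ h (X.dg 1) F) : m * e - ε ≤ h (X.dg (s + e)) (X.dg s ⊔ F) := by
  have a1 : X.dg s ⊔ X.dg (s + e) = X.dg (s + e) := sup_eq_right.mpr (X.dg_mono (by linarith))
  have a2 : X.dg (s + e) ⊔ X.dg 1 = X.dg 1 := sup_eq_right.mpr (X.dg_mono hse)
  have b1 := h_chain (X.dg (s + e)) (X.dg 1) F
  rw [a2] at b1
  have b2 := h_chain (X.dg s) (X.dg (s + e)) F
  rw [a1] at b2
  have b3 : h (X.dg s) F ≤ m * s := (h_le_H _ _).trans (X.H_dg_le hs)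
  have b4 : h (X.dg 1) (X.dg (s + e) ⊔ F) ≤ m * (1 - (s + e)) := (h_anti le_sup_left).trans (X.h_dg_dg hse)
  nlinarith

theorem full_top {m : ℕ} (X : T.VV m) (F : T.L) (ε s : ℝ) (hs : 0 ≤ s)
    (h1 : m - ε ≤ h (X.dg 1) F) : m * (1 - s) - ε ≤ h (X.dg 1) (F ⊔ X.dg s) := by
  have b1 := h_triangle (X.dg 1) (X.dg s) F
  have b3 : h (X.dg s) F ≤ m * s := (h_le_H _ _).trans (X.H_dg_le hs)
  rw [sup_comm F]
  nlinarith

end

end Pool.Agent.Helper97.SL
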