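import Pool.Agent.Helper97.SL.FinF
import Pool.Agent.Helper31.EC.Quo
import Pool.Agent.Helper25.EC.Rst

/-! Exponents of sequences; polynomials with tame coefficients. (SSL, tools) -/

set_option autoImplicit false

namespace Pool.Agent.Helper97.SL

open Finset Filter Topology
open Pool.Agent.Helper3.LF Pool.Agent.Helper69.RK Pool.Agent.Helper31.EC

noncomputable section

variable {S : Sp}

/-- `f ≤ 2 ^ ((a + o(1)) n)` -/
def Ex (S : Sp) (f : ℕ → ℝ) (a : ℝ) : Prop := ∀ ζ : ℝ, 0 < ζ → ∀ᶠ k in UF, f k ≤ 2 ^ ((a + ζ) * (S.F k).n)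

theorem Ex.mono {f g : ℕ → ℝ} {a b : ℝ} (hg : Ex S g b) (h : ∀ᶠ k in UF, f k ≤ g k) (hab : b ≤ a) : Ex S f a := by
  intro ζ hζ
  filter_upwards [hg ζ hζ, h] with k h1 h2
  refine h2.trans (h1.trans ?_)
  exact Real.rpow_le_rpow_of_exponent_le one_le_two
    (mul_le_mul_of_nonneg_right (by linarith) (S.F k).pos.le)

theorem Ex.mul {f g : ℕ → ℝ} {a b : ℝ} (hf : Ex S f a) (hg : Ex S g b) (hf0 : ∀ᶠ k in UF, 0 ≤ f k)
    (hg0 : ∀ᶠ k in UF, 0 ≤ g k) : Ex S (fun k => f k * g k) (a + b) := by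
  intro ζ hζ
  filter_upwards [hf (ζ / 2) (by linarith), hg (ζ / 2) (by linarith), hf0, hg0] with k h1 h2 h3 h4
  calc f k * g k ≤ 2 ^ ((a + ζ / 2) * (S.F k).n) * 2 ^ ((b + ζ / 2) * (S.F k).n) :=
        mul_le_mul h1 h2 h4 (h3.trans h1)
    _ = 2 ^ ((a + b + ζ) * (S.F k).n) := by
        rw [← Real.rpow_add two_pos]
        congr 1
        ring

theorem Ex.add {f g : ℕ → ℝ} {a : ℝ} (hf : Ex S f a) (hg : Ex S g a) : Ex S (fun k => f k + g k) a := by
  intro ζ hζ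
  have h0 : ∀ᶠ k in UF, (2 : ℝ) ≤ 2 ^ ((ζ / 2) * (S.F k).n) := by
    have := (S.Sub_const zero_le_one).eventually_le (half_pos hζ)
    filter_upwards [this] with k hk
    linarith
  filter_upwards [hf (ζ / 2) (by linarith), hg (ζ / 2) (by linarith), h0] with k h1 h2 h3
  calc f k + g k ≤ 2 * 2 ^ ((a + ζ / 2) * (S.F k).n) := by linarith
    _ ≤ 2 ^ ((ζ / 2) * (S.F k).n) * 2 ^ ((a + ζ / 2) * (S.F k).n) :=
        mul_le_mul_of_nonneg_right h3 (Real.rpow_nonneg (by norm_num) _)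
    _ = 2 ^ ((a + ζ) * (S.F k).n) := by
        rw [← Real.rpow_add two_pos]
        congr 1
        ring

theorem Ex_sub {K : ℕ → ℝ} (hK : S.Sub K) : Ex S K 0 := by
  intro ζ hζ
  filter_upwards [hK.eventually_le hζ] with k hk
  rw [zero_add]
  linarith

theorem Ex_const (C : ℝ) : Ex S (fun _ => C) 0 :=
  (Ex_sub (S.Sub_const (abs_nonneg C))).mono (Eventually.of_forall fun _ => le_abs_self C) le_rfl

theorem Ex_dl (r : ℝ) : Ex S (fun k => S.dl r k) (-r) := by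
  intro ζ hζ
  refine Eventually.of_forall fun k => ?_
  unfold Sp.dl
  refine Real.rpow_le_rpow_of_exponent_le one_le_two ?_
  have := (S.F k).pos
  nlinarith

theorem Ex_dl_inv (r : ℝ) : Ex S (fun k => (S.dl r k)⁻¹) r := by
  intro ζ hζ
  refine Eventually.of_forall fun k => ?_
  show ((2 : ℝ) ^ (-(r * (S.F k).n)))⁻¹ ≤ _
  rw [← Real.rpow_neg two_pos.le, neg_neg]
  refine Real.rpow_le_rpow_of_exponent_le one_le_two ?_
  have := (S.F k).pos
  nlinarith

theorem Ex.pow {f : ℕ → ℝ} {a : ℝ} (hf : Ex S f a) (hf0 : ∀ᶠ k in UF, 0 ≤ f k) (d : ℕ) :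
    Ex S (fun k => f k ^ d) (d * a) := by
  induction d with
  | zero =>
    refine (Ex_const 1).mono (Eventually.of_forall fun k => by rw [pow_zero]) ?_
    simp
  | succ d ih =>
    refine (ih.mul hf (hf0.mono fun k hk => pow_nonneg hk d) hf0).mono (Eventually.of_forall fun k => ?_) ?_
    · rw [pow_succ]
    · push_cast
      linarith

theorem Ex.logb {f : ℕ → ℝ} {a : ℝ} (hf : Ex S f a) (hf0 : ∀ᶠ k in UF, 0 < f k) {ζ : ℝ} (hζ : 0 < ζ) :
    ∀ᶠ k in UF, Real.logb 2 (f k) / (S.F k).n ≤ a + ζ := by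
  filter_upwards [hf ζ hζ, hf0] with k h1 h2
  rw [div_le_iff₀ (S.F k).pos, Real.logb_le_iff_le_rpow one_lt_two h2]
  exact h1

/-- negative exponents: eventually at most one -/
theorem Ex.le_one {f : ℕ → ℝ} {a : ℝ} (hf : Ex S f a) (ha : a < 0) : ∀ᶠ k in UF, f k ≤ 1 := by
  filter_upwards [hf (-a) (by linarith)] with k h1
  rw [add_neg_cancel, zero_mul, Real.rpow_zero] at h1
  exact h1

theorem inv_n (S : Sp) {ζ : ℝ} (hζ : 0 < ζ) : ∀ᶠ k in UF, 1 / (S.F k).n ≤ ζ :=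
  ((S.div_n_tendsto 1).eventually (gt_mem_nhds hζ)).mono fun _ h => h.le

variable {N D : ℕ}

/-- the polynomial with tame coefficients at a tame point -/
def pe (c : Mon N D → TR S) (x : Fin N → TR S) : TR S := ∑ a, c a * ∏ i, x i ^ ((a.1 i : ℕ))

theorem ev_pe (c : Mon N D → TR S) (x : Fin N → TR S) (k : ℕ) (ω : (S.F k).Ω) :
    TR.ev (pe c x) k ω = MvPolynomial.eval (fun i => TR.ev (x i) k ω) (pol fun a => TR.ev (c a) k ω) := by
  rw [← TR.evh_apply, pe, map_sum, eval_pol, dotProduct]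
  refine Finset.sum_congr rfl fun a _ => ?_
  rw [map_mul, map_prod, vv_apply]
  simp only [map_pow]
  rfl

end

end Pool.Agent.Helper97.SL
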