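import Pool.Agent.Helper97.SL.Cnt
import Pool.Agent.Helper3.LF.Ent

/-! Polynomials of an almost uniform point, finite level. (SSL, tools) -/

set_option autoImplicit false

namespace Pool.Agent.Helper97.SL

open MvPolynomial Matrix Finset
open Pool.Agent.Helper3.LF Pool.Agent.Helper69.RK Pool.Agent.Helper31.EC

variable {N D : ℕ}

theorem cell_diff {m : ℕ} (δ K : ℝ) (hδ : 0 < δ) (hδ1 : δ ≤ 1) (hK : 1 ≤ K) (y y' : Fin m → ℝ) (hy : ∀ i, |y i| ≤ K)
    (hy' : ∀ i, |y' i| ≤ K) (i : Fin m) : |(Sp.cell δ y i : ℝ) - Sp.cell δ y' i| ≤ 4 * K / δ - 1 := by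
  have h1 : |y i - y' i| ≤ (2 * K / δ) * δ := by
    rw [div_mul_cancel₀ _ hδ.ne']
    have := abs_sub (y i) (y' i)
    have := hy i
    have := hy' i
    linarith
  have h2 := Sp.floor_diff hδ h1
  have h3 : 2 * 1 ≤ 2 * K / δ := by
    rw [le_div_iff₀ hδ]
    nlinarith
  have e : 4 * K / δ = 2 * K / δ + 2 * K / δ := by ring
  unfold Sp.cell
  rw [e]
  linarith

theorem e_cell (F : FSp) {m : ℕ} (X : F.Ω → Fin m → ℤ) (B : Setoid F.Ω) :
    F.e (Setoid.ker X) B = CH F.μ X (Quotient.mk B) := by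
  apply F.e_congr
  · intro ω ω' _ _
    exact Iff.rfl
  · intro ω ω' _ _
    exact Quotient.eq.symm

theorem card_img_le {α β : Type*} (f : α → β) (i1 i2 : DecidableEq β) (p : α → Prop) (j1 j2 : DecidablePred p)
    (s : Finset α) : (@Finset.image α β i1 f (@Finset.filter α p j1 s)).card ≤
      (@Finset.image α β i2 f (@Finset.filter α p j2 s)).card := by
  have e1 : i1 = i2 := Subsingleton.elim _ _
  have e2 : j1 = j2 := Subsingleton.elim _ _
  subst e1 e2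
  exact le_rfl

/-- the event that the gradient is small has small mass -/
theorem fin_bad (N D : ℕ) : ∃ C : ℝ, 1 ≤ C ∧ ∀ (F : FSp) (B : Setoid F.Ω) (y : F.Ω → Fin (N + 1) → ℝ)
    (c : F.Ω → Mon (N + 1) D → ℝ) (G : F.Ω → Prop) (K δ r ε m : ℝ), 1 ≤ K → 0 < δ → δ ≤ r → r ≤ 1 → 0 < ε →
    C * K ^ D * (2 * ε) < m * r ^ D → C * K ^ ((N + 1) * D + D) * δ ≤ ε →
    (∀ ω, F.μ ω ≠ 0 → ∀ i, |y ω i| ≤ K) →
    (∀ ω ω', F.μ ω ≠ 0 → F.μ ω' ≠ 0 → B ω ω' → ∀ a, |c ω a - c ω' a| ≤ δ) →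
    (∀ ω, F.μ ω ≠ 0 → G ω → ∃ a, a ≠ z0 (N + 1) D ∧ m ≤ |c ω a|) →
    mass (res F.μ (fun ω => G ω ∧ ∀ i, |eval (y ω) (pderiv i (pol (c ω)))| ≤ ε)) * Real.logb 2 (1 / (2 * C * r)) ≤
      (N + 1) * Real.logb 2 (4 * K / δ) - F.e (Setoid.ker fun ω => Sp.cell δ (y ω)) B + 1 := by
  classical
  obtain ⟨C1, hC1, h1⟩ := bad_count N D
  obtain ⟨C2, hC2, h2⟩ := exists_der_close (N + 1) D
  refine ⟨C1 + C2, by linarith, ?_⟩
  intro F B y c G K δ r ε m hK hδ hδr hr1 hε hlt hle hy hc hm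
  have hr : 0 < r := hδ.trans_le hδr
  have hK0 : 0 < K := lt_of_lt_of_le one_pos hK
  have hh : 0 < (4 * K / δ) ^ (N + 1) := by positivity
  have hKδ : 1 ≤ K / δ := by
    rw [le_div_iff₀ hδ]
    linarith
  have key := few_values F.μ (fun ω => Sp.cell δ (y ω)) (Quotient.mk B)
    (fun ω => G ω ∧ ∀ i, |eval (y ω) (pderiv i (pol (c ω)))| ≤ ε) ((4 * K / δ) ^ (N + 1)) (2 * (C1 + C2) * r)
    ((N + 1) * Real.logb 2 (4 * K / δ) - F.e (Setoid.ker fun ω => Sp.cell δ (y ω)) B) F.nn hh (by positivity) ?_ ?_ ?_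
  · rw [F.ms] at key
    exact key
  · intro ω _
    have h3 := Sp.nvf_box F.μ (fun ω => Sp.cell δ (y ω)) (Quotient.mk B) ω (4 * K / δ - 1) (by
      have : 4 * 1 ≤ 4 * K / δ := by
        rw [le_div_iff₀ hδ]
        nlinarith
      linarith) (fun ω₁ ω₂ a b i => cell_diff δ K hδ (hδr.trans hr1) hK (y ω₁) (y ω₂) (hy ω₁ a) (hy ω₂ b) i)
    rw [sub_add_cancel] at h3
    unfold nvf at h3
    exact h3
  · rintro ω hω ⟨hG, hg⟩
    obtain ⟨a, ha, hma⟩ := hm ω hω hG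
    have h3 := h1 (c ω) K δ r (2 * ε) m hK hδ (hδr.trans hr1) hr hr1 (by linarith) ⟨a, ha, hma⟩ (by
      refine lt_of_le_of_lt ?_ hlt
      refine mul_le_mul_of_nonneg_right (mul_le_mul_of_nonneg_right (by linarith) (by positivity)) (by linarith))
      (((univ : Finset F.Ω).filter (fun ω' => F.μ ω' ≠ 0 ∧ (G ω' ∧ ∀ i, |eval (y ω') (pderiv i (pol (c ω')))| ≤ ε) ∧
        (Quotient.mk B ω' = Quotient.mk B ω))).image (fun ω => Sp.cell δ (y ω))) (by
      intro x hx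
      obtain ⟨ω', hω', rfl⟩ := Finset.mem_image.1 hx
      rw [Finset.mem_filter] at hω'
      obtain ⟨-, b1, ⟨-, b2⟩, b3⟩ := hω'
      refine ⟨y ω', hy ω' b1, fun i => rfl, fun i => ?_⟩
      have b4 := h2 (c ω) (c ω') δ (fun a => hc ω ω' hω b1 (Quotient.exact b3.symm) a) (y ω') K hK (hy ω' b1) i
      have b5 := b2 i
      have b6 : C2 * K ^ ((N + 1) * D + D) * δ ≤ ε := by
        refine le_trans ?_ hle
        refine mul_le_mul_of_nonneg_right (mul_le_mul_of_nonneg_right (by linarith) (by positivity)) hδ.le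
      have b7 : |eval (y ω') (pderiv i (pol (c ω)))| ≤
          |eval (y ω') (pderiv i (pol (c ω))) - eval (y ω') (pderiv i (pol (c ω')))| +
            |eval (y ω') (pderiv i (pol (c ω')))| := by
        have := abs_add_le (eval (y ω') (pderiv i (pol (c ω))) - eval (y ω') (pderiv i (pol (c ω'))))
          (eval (y ω') (pderiv i (pol (c ω'))))
        rwa [sub_add_cancel] at this
      linarith)
    have h4 : C1 * ((K / δ) ^ N * (1 + r / δ)) ≤ 2 * (C1 + C2) * r * (4 * K / δ) ^ (N + 1) := by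
      have g1 : 1 ≤ r / δ := (one_le_div hδ).mpr hδr
      have g2 : 1 + r / δ ≤ 2 * (r / δ) := by linarith
      have g3 : (K / δ) ^ N ≤ (4 * K / δ) ^ N := pow_le_pow_left₀ (by positivity) (by
        rw [mul_div_assoc]
        linarith [hKδ]) N
      have g4 : 2 * (r / δ) ≤ 2 * r * (4 * K / δ) := by
        have : 2 * r * (4 * K / δ) = 2 * (r / δ) * (4 * K) := by ring
        rw [this]
        have : 0 < r / δ := by positivity
        nlinarith
      calc C1 * ((K / δ) ^ N * (1 + r / δ)) ≤ (C1 + C2) * ((4 * K / δ) ^ N * (2 * r * (4 * K / δ))) := by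
            refine mul_le_mul (by linarith) ?_ (by positivity) (by positivity)
            exact mul_le_mul g3 (g2.trans g4) (by positivity) (by positivity)
        _ = _ := by ring
    exact le_trans (Nat.cast_le.mpr (card_img_le _ _ _ _ _ _ _)) (h3.trans h4)
  · rw [F.ms, one_mul, Real.logb_pow, e_cell]
    push_cast
    linarith

/-- the entropy of the point given the value of the polynomial -/
theorem fin_lev (N D : ℕ) : ∃ C : ℝ, 1 ≤ C ∧ ∀ (F : FSp) (B : Setoid F.Ω) (y : F.Ω → Fin (N + 1) → ℝ)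
    (c : F.Ω → Mon (N + 1) D → ℝ) (E : F.Ω → Prop) (K δ ε : ℝ), 1 ≤ K → 0 < δ → δ ≤ 1 → 0 < ε →
    C * K ^ ((N + 1) * D + D) * δ ≤ ε → (C * K ^ D + 1) * δ ≤ ε →
    (∀ ω, F.μ ω ≠ 0 → ∀ i, |y ω i| ≤ K) →
    (∀ ω ω', F.μ ω ≠ 0 → F.μ ω' ≠ 0 → B ω ω' → ∀ a, |c ω a - c ω' a| ≤ δ) →
    (∀ ω ω', F.μ ω ≠ 0 → F.μ ω' ≠ 0 → B ω ω' → |eval (y ω) (pol (c ω)) - eval (y ω') (pol (c ω'))| ≤ δ) →
    (∀ ω, F.μ ω ≠ 0 → ¬ E ω → ∃ i, 2 * ε ≤ |eval (y ω) (pderiv i (pol (c ω)))|) →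
    F.e (Setoid.ker fun ω => Sp.cell δ (y ω)) B ≤
      Real.logb 2 (C * ((K / δ) ^ N * (1 + (C * K ^ D + 1) / ε))) +
        (N + 1) * Real.logb 2 (4 * K / δ) * mass (res F.μ E) + 1 := by
  classical
  obtain ⟨C1, hC1, h1⟩ := lev_count N D
  obtain ⟨C2, hC2, h2⟩ := exists_der_close (N + 1) D
  set C3 : ℝ := ((Fintype.card (Mon (N + 1) D) : ℕ) : ℝ) with hC3
  have hC30 : 0 ≤ C3 := Nat.cast_nonneg _
  refine ⟨C1 + C2 + C3, by linarith, ?_⟩
  intro F B y c E K δ ε hK hδ hδ1 hε hle hle2 hy hc hψ hE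
  have hK0 : 0 < K := lt_of_lt_of_le one_pos hK
  have hKδ : 1 ≤ K / δ := by
    rw [le_div_iff₀ hδ]
    linarith
  set κ : ℝ := (C1 + C2 + C3) * K ^ D + 1 with hκ
  have hκ0 : 0 ≤ κ := by positivity
  have hNN : 1 ≤ (C1 + C2 + C3) * ((K / δ) ^ N * (1 + κ / ε)) := by
    have g1 : 1 ≤ (K / δ) ^ N := one_le_pow₀ hKδ
    have g2 : 1 ≤ 1 + κ / ε := by
      have : 0 ≤ κ / ε := by positivity
      linarith
    have g3 : 1 ≤ (K / δ) ^ N * (1 + κ / ε) := by nlinarith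
    nlinarith
  have key := Pool.Agent.Helper80.LF.e_count_event F (fun ω => Sp.cell δ (y ω)) B E
    ((C1 + C2 + C3) * ((K / δ) ^ N * (1 + κ / ε))) (4 * K / δ - 1) hNN (by
      have : 4 * 1 ≤ 4 * K / δ := by
        rw [le_div_iff₀ hδ]
        nlinarith
      linarith) ?_ (fun ω₁ ω₂ a b _ _ _ i => cell_diff δ K hδ hδ1 hK (y ω₁) (y ω₂) (hy ω₁ a) (hy ω₂ b) i)
  · rw [sub_add_cancel] at key
    push_cast at key
    exact key
  · intro ω hω hEω
    refine ⟨(((univ : Finset F.Ω).filter (fun ω' => F.μ ω' ≠ 0 ∧ ¬ E ω' ∧ B ω' ω)).image (fun ω => Sp.cell δ (y ω))),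
      ?_, ?_⟩
    · have h3 := h1 (pol (c ω)) (pol_deg _) K δ κ ε (eval (y ω) (pol (c ω))) hK hδ hδ1 hκ0 hε hle2
        (((univ : Finset F.Ω).filter (fun ω' => F.μ ω' ≠ 0 ∧ ¬ E ω' ∧ B ω' ω)).image (fun ω => Sp.cell δ (y ω))) (by
        intro x hx
        obtain ⟨ω', hω', rfl⟩ := Finset.mem_image.1 hx
        rw [Finset.mem_filter] at hω'
        obtain ⟨-, b1, b2, b3⟩ := hω'
        have b4 : ∀ a, |c ω a - c ω' a| ≤ δ := fun a => hc ω ω' hω b1 (Setoid.symm' _ b3) a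
        refine ⟨y ω', hy ω' b1, fun i => rfl, ?_, ?_⟩
        · obtain ⟨i, hi⟩ := hE ω' b1 b2
          refine ⟨i, ?_⟩
          have b5 := h2 (c ω) (c ω') δ b4 (y ω') K hK (hy ω' b1) i
          have b6 : C2 * K ^ ((N + 1) * D + D) * δ ≤ ε := by
            refine le_trans ?_ hle
            refine mul_le_mul_of_nonneg_right (mul_le_mul_of_nonneg_right (by linarith) (by positivity)) hδ.le
          have b7 : |eval (y ω') (pderiv i (pol (c ω')))| ≤
              |eval (y ω') (pderiv i (pol (c ω))) - eval (y ω') (pderiv i (pol (c ω')))| +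
                |eval (y ω') (pderiv i (pol (c ω)))| := by
            have := abs_sub (eval (y ω') (pderiv i (pol (c ω)))) (eval (y ω') (pderiv i (pol (c ω))) -
              eval (y ω') (pderiv i (pol (c ω'))))
            rw [sub_sub_cancel] at this
            linarith
          linarith
        · have b5 := val_close (c ω) (c ω') δ b4 (y ω') K hK (hy ω' b1)
          have b6 := hψ ω' ω b1 hω b3
          have b7 : |eval (y ω') (pol (c ω)) - eval (y ω) (pol (c ω))| ≤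
              |eval (y ω') (pol (c ω)) - eval (y ω') (pol (c ω'))| +
                |eval (y ω') (pol (c ω')) - eval (y ω) (pol (c ω))| := abs_sub_le _ _ _
          refine b7.trans ((add_le_add b5 b6).trans ?_)
          rw [hκ, ← hC3]
          have : 0 ≤ (C1 + C2) * K ^ D * δ := by positivity
          nlinarith)
      refine h3.trans ?_
      exact mul_le_mul_of_nonneg_right (by linarith) (by positivity)
    · intro ω' b1 b2 b3
      exact Finset.mem_image.2 ⟨ω', Finset.mem_filter.2 ⟨Finset.mem_univ _, b1, b2, b3⟩, rfl⟩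

end Pool.Agent.Helper97.SL
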