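import Pool.Agent.Helper97.SL.Shq
import Pool.Agent.Helper46.LIN.Nest

/-! FRESH SHEETS: a label `V` whose polynomial sheet contains a fresh point of the line (a copy of the point given the
literal line variable) and which is blind for the base of the fresh point gives a function of the point which agrees
with a literal function of the line. (NSH, EXS, LIP) -/

set_option autoImplicit false

namespace Pool.Agent.Helper97.SL

open Finset Filter Topology
open Pool.Agent.Helper3.LF Pool.Agent.Helper69.RK Pool.Agent.Helper31.EC Pool.Agent.Helper25.EC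

noncomputable section

variable {S : Sp} {N D : ℕ}

/-! ### choice of representatives in an amalgam of two spaces -/

open Classical in
/-- the mass of a relation in the amalgam, fibre by fibre -/
theorem amw_mass2 {Ω Ω' α : Type} [Fintype Ω] [Fintype Ω'] (μ : Ω → ℝ) (μ' : Ω' → ℝ) (f : Ω → α) (g : Ω' → α)
    (R : Ω → Ω' → Prop) :
    ∑ w : Ω × Ω', e1_ind (R w.1 w.2) * amw μ μ' f g w =
      ∑ a ∈ Finset.univ.image g, ∑ x ∈ Finset.univ.filter (fun x => f x = a),
        μ x * ((ms μ f a)⁻¹ * ∑ y ∈ Finset.univ.filter (fun y => g y = a), e1_ind (R x y) * μ' y) := by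
  rw [Fintype.sum_prod_type_right]
  rw [← Finset.sum_fiberwise_of_maps_to (s := Finset.univ) (t := Finset.univ.image g) (g := g)
    (fun y _ => Finset.mem_image_of_mem g (Finset.mem_univ y))]
  apply Finset.sum_congr rfl
  intro a _
  have h1 : ∀ y ∈ Finset.univ.filter (fun y => g y = a), ∑ x, e1_ind (R (x, y).1 (x, y).2) * amw μ μ' f g (x, y) =
      ∑ x ∈ Finset.univ.filter (fun x => f x = a), μ x * ((ms μ f a)⁻¹ * (e1_ind (R x y) * μ' y)) := by
    intro y hy
    rw [Finset.mem_filter] at hy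
    rw [Finset.sum_filter]
    apply Finset.sum_congr rfl
    intro x _
    unfold amw
    show e1_ind (R x y) * (e1_ind (f x = g y) * (μ x * μ' y / ms μ f (f x))) = _
    by_cases hx : f x = a
    · rw [if_pos hx, e1_ind_pos (show f x = g y by rw [hx, hy.2]), hx]
      ring
    · rw [if_neg hx, e1_ind_neg (show ¬ f x = g y by rw [hy.2]; exact hx)]
      ring
  rw [Finset.sum_congr rfl h1, Finset.sum_comm]
  apply Finset.sum_congr rfl
  intro x _
  rw [Finset.mul_sum, Finset.mul_sum]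

open Classical in
/-- CHOICE OF A REPRESENTATIVE in the first space for every fibre of the second space -/
theorem amw_choice2 {Ω Ω' α : Type} [Fintype Ω] [Fintype Ω'] (μ : Ω → ℝ) (μ' : Ω' → ℝ) (h0 : ∀ ω, 0 ≤ μ ω)
    (h0' : ∀ ω, 0 ≤ μ' ω) (f : Ω → α) (g : Ω' → α) (hl : ∀ a, ms μ f a = ms μ' g a) (hne : ∃ x, μ x ≠ 0)
    (R : Ω → Ω' → Prop) :
    ∃ c : Ω' → Ω, (∀ y, μ' y ≠ 0 → f (c y) = g y) ∧ (∀ y, μ (c y) ≠ 0) ∧ (∀ y y', g y = g y' → c y = c y') ∧
      ∑ y, e1_ind (R (c y) y) * μ' y ≤ ∑ w : Ω × Ω', e1_ind (R w.1 w.2) * amw μ μ' f g w := by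
  obtain ⟨xd, hxd⟩ := hne
  set q : α → Ω → ℝ := fun a x => (ms μ f a)⁻¹ * ∑ y ∈ Finset.univ.filter (fun y => g y = a), e1_ind (R x y) * μ' y
    with hq
  have hq0 : ∀ a x, 0 ≤ q a x := fun a x => mul_nonneg (inv_nonneg.mpr (ms_nonneg μ f h0 a))
    (Finset.sum_nonneg fun y _ => mul_nonneg (ind_nonneg _) (h0' y))
  have hms : ∀ a, ms μ f a = ∑ y ∈ Finset.univ.filter (fun y => f y = a), μ y := by
    intro a
    unfold ms
    rw [Finset.sum_filter]
    apply Finset.sum_congr rfl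
    intro x _
    by_cases hx : f x = a
    · rw [if_pos hx, e1_ind_pos hx, one_mul]
    · rw [if_neg hx, e1_ind_neg hx, zero_mul]
  have key : ∀ a : α, ∃ x, μ x ≠ 0 ∧ (0 < ms μ f a → f x = a) ∧
      ms μ f a * q a x ≤ ∑ x ∈ Finset.univ.filter (fun x => f x = a), μ x * q a x := by
    intro a
    by_cases hm : 0 < ms μ f a
    · have hm' := hm
      rw [hms] at hm'
      obtain ⟨x, hx, hx0, hle⟩ := exists_le_avg _ μ (q a) (fun x _ => h0 x) hm'
      rw [Finset.mem_filter] at hx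
      refine ⟨x, hx0, fun _ => hx.2, ?_⟩
      rw [hms]
      exact hle
    · have hm0 : ms μ f a = 0 := le_antisymm (not_lt.mp hm) (ms_nonneg μ f h0 a)
      refine ⟨xd, hxd, fun h => absurd h hm, ?_⟩
      rw [hm0, zero_mul]
      exact Finset.sum_nonneg fun y _ => mul_nonneg (h0 y) (hq0 a y)
  choose c hc1 hc2 hc3 using key
  refine ⟨fun y => c (g y), fun y hy => hc2 _ ?_, fun y => hc1 _, fun y y' h => by show c (g y) = c (g y'); rw [h], ?_⟩
  · rw [hl]
    exact ms_pos μ' g h0' y hy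
  · rw [amw_mass2]
    rw [← Finset.sum_fiberwise_of_maps_to (s := Finset.univ) (t := Finset.univ.image g) (g := g)
      (fun y _ => Finset.mem_image_of_mem g (Finset.mem_univ y))]
    apply Finset.sum_le_sum
    intro a _
    refine le_trans ?_ (hc3 a)
    have e1 : ∑ y ∈ Finset.univ.filter (fun y => g y = a), e1_ind (R (c (g y)) y) * μ' y =
        ∑ y ∈ Finset.univ.filter (fun y => g y = a), e1_ind (R (c a) y) * μ' y := by
      apply Finset.sum_congr rfl
      intro y hy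
      rw [Finset.mem_filter] at hy
      rw [hy.2]
    rw [e1]
    by_cases hm : 0 < ms μ f a
    · refine le_of_eq ?_
      show _ = ms μ f a * ((ms μ f a)⁻¹ * _)
      rw [mul_inv_cancel_left₀ hm.ne']
    · have hm0 : ms μ f a = 0 := le_antisymm (not_lt.mp hm) (ms_nonneg μ f h0 a)
      have hm1 : ms μ' g a = 0 := by rw [← hl, hm0]
      rw [hm0, zero_mul]
      refine le_of_eq (Finset.sum_eq_zero fun y hy => ?_)
      rw [Finset.mem_filter] at hy
      have h1 : μ' y = 0 := by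
        by_contra hcon
        have h2 := ms_pos μ' g h0' y hcon
        rw [hy.2, hm1] at h2
        exact lt_irrefl _ h2
      rw [h1, mul_zero]

/-- representatives: for every relation between an extension and a copy given `V` there is a literal choice, depending
on `V` (and on the base) only -/
theorem exists_rep2 {W : Sp} (p : Pj W S) {α : ℕ → Type} (V : ∀ k, (S.F k).Ω → α k)
    (R : ∀ k, (W.F k).Ω → (S.F k).Ω → Prop) :
    ∃ c : ∀ k, (S.F k).Ω → (W.F k).Ω, (∀ k ω, (W.F k).μ (c k ω) ≠ 0) ∧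
      (∀ k ω, (S.F k).μ ω ≠ 0 → V k (p.π k (c k ω)) = V k ω) ∧
      (∀ k ω ω', V k ω = V k ω' → (S.F k).Z ω ω' → c k ω = c k ω') ∧
      ∀ k, (S.F k).pb (fun ω => ¬ R k (c k ω) ω) ≤ ((p.join V).sp.F k).pb (fun w => ¬ R k w.1 w.2) := by
  have hne : ∀ k, ∃ x, (W.F k).μ x ≠ 0 := by
    intro k
    by_contra hcon
    push Not at hcon
    have h1 := (W.F k).ms
    unfold mass at h1
    rw [Finset.sum_eq_zero fun x _ => hcon x] at h1
    exact zero_ne_one h1
  choose c hc1 hc2 hc3 hc4 using fun k => amw_choice2 (W.F k).μ (S.F k).μ (W.F k).nn (S.F k).nn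
    ((p.join V).f k) ((p.join V).g k) ((p.join V).law k) (hne k) (fun w ω => ¬ R k w ω)
  refine ⟨c, hc2, fun k ω hω => ?_, fun k ω ω' h hZ => ?_, fun k => ?_⟩
  · have h1 := hc1 k ω hω
    have h2 : (V k (p.π k (c k ω)), Quotient.mk (S.F k).Z (p.π k (c k ω))) = (V k ω, Quotient.mk (S.F k).Z ω) := h1
    rw [Prod.mk.injEq] at h2
    exact h2.1
  · apply hc3 k
    show (V k ω, Quotient.mk (S.F k).Z ω) = (V k ω', Quotient.mk (S.F k).Z ω')
    rw [h, Quotient.sound hZ]
  · have h1 := hc4 k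
    unfold FSp.pb
    rw [mass_res_ind, mass_res_ind]
    exact h1

/-! ### nested restrictions -/

open Pool.Agent.Helper46.LIN in
theorem h_rr (E : ∀ k, (S.F k).Ω → Prop) (hE : 0 < ul (S.pr E)) (E' : ∀ k, ((S.rest E).F k).Ω → Prop)
    (hE' : 0 < ul ((S.rest E).pr E')) (x y : S.L) :
    h (Sp.restL E' hE' (Sp.restL E hE x)) (Sp.restL E' hE' (Sp.restL E hE y)) =
      h (Sp.restL (EE E E') (rr_pos E E' hE hE') x) (Sp.restL (EE E E') (rr_pos E E' hE hE') y) := by
  induction x using Sp.cl_ind with | _ A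
  induction y using Sp.cl_ind with | _ B
  rw [Sp.restL_cl, Sp.restL_cl, Sp.restL_cl, Sp.restL_cl, Sp.restL_cl, Sp.restL_cl, Sp.h_cl, Sp.h_cl]
  apply ul_congr
  filter_upwards [rr_ev E E' hE hE'] with k hk
  exact congrArg (fun μ : (S.F k).Ω → ℝ => CH μ (Quotient.mk (A.1 k)) (Quotient.mk (B.1 k ⊓ (S.F k).Z)) / (S.F k).n) hk

theorem pr_ul_nonneg (E : ∀ k, (S.F k).Ω → Prop) : 0 ≤ ul (S.pr E) := by
  have h1 := ul_mono (UB_const 0) (Sp.UB_pr E) (Eventually.of_forall fun k => Sp.pr_nonneg E k)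
  rwa [ul_const] at h1

theorem pb_or_le (F : FSp) (E E1 E2 : F.Ω → Prop) (h : ∀ ω, F.μ ω ≠ 0 → E ω → E1 ω ∨ E2 ω) :
    F.pb E ≤ F.pb E1 + F.pb E2 := by
  unfold FSp.pb
  rw [mass_res_ind, mass_res_ind, mass_res_ind, ← Finset.sum_add_distrib]
  refine Finset.sum_le_sum fun ω _ => ?_
  have h0 := F.nn ω
  by_cases hμ : F.μ ω = 0
  · rw [hμ]
    simp
  · have h1 := ind_nonneg (E1 ω)
    have h2 := ind_nonneg (E2 ω)
    by_cases hE : E ω
    · rw [e1_ind_pos hE]
      rcases h ω hμ hE with h3 | h3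
      · rw [e1_ind_pos h3]
        nlinarith
      · rw [e1_ind_pos h3]
        nlinarith
    · rw [e1_ind_neg hE, zero_mul]
      positivity

theorem ul_or_le (E E1 E2 : ∀ k, (S.F k).Ω → Prop)
    (h : ∀ᶠ k in UF, ∀ ω, (S.F k).μ ω ≠ 0 → E k ω → E1 k ω ∨ E2 k ω) :
    ul (S.pr E) ≤ ul (S.pr E1) + ul (S.pr E2) := by
  rw [← ul_add (Sp.UB_pr E1) (Sp.UB_pr E2)]
  refine ul_mono (Sp.UB_pr E) ((Sp.UB_pr E1).add (Sp.UB_pr E2)) ?_
  filter_upwards [h] with k hk
  exact pb_or_le (S.F k) _ _ _ hk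

open Pool.Agent.Helper46.LIN in
theorem ul_rr (E : ∀ k, (S.F k).Ω → Prop) (hE : 0 < ul (S.pr E)) (E' : ∀ k, ((S.rest E).F k).Ω → Prop) :
    ul (S.pr (EE E E')) = ul (S.pr E) * ul ((S.rest E).pr E') := by
  rw [← ul_mul (Sp.UB_pr E) (Sp.UB_pr (S := S.rest E) E')]
  apply ul_congr
  filter_upwards [(ul_tendsto (Sp.UB_pr E)).eventually (lt_mem_nhds hE)] with k h1
  exact rr_pb E E' k h1.ne'

theorem dg_rest_le (f : TR S) (E : ∀ k, (S.F k).Ω → Prop) (hE : 0 < ul (S.pr E)) (r s : ℝ) (hrs : r ≤ s) (A : (S.rest E).L) :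
    h (Sp.restL E hE (TR.dg f s)) (A ⊔ Sp.restL E hE (TR.dg f r)) ≤ s - r := by
  rw [← rst_dg E hE, ← rst_dg E hE]
  refine (h_anti le_sup_right).trans ?_
  have h1 := (TR.vec fun _ : Fin 1 => rst E f).h_dg_dg hrs
  rw [Nat.cast_one, one_mul] at h1
  exact h1

open Pool.Agent.Helper46.LIN in
/-- deficits survive a change of the top coordinate on an event of small probability -/
theorem DDL.modify {Yt : S.L} {z : TR S} {L g p ρ κ : ℝ} (hd : DDL Yt z L g p ρ κ) (z1 : TR S) (θ : ℝ)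
    (B : ∀ k, (S.F k).Ω → Prop) (hB : ul (S.pr B) ≤ θ) (hp : 0 < p) (hθp : θ ≤ p) (hκ : 0 ≤ κ) (hL : 0 ≤ L)
    (hρ : ρ ≤ 1) (hz : ∀ᶠ k in UF, ∀ ω, (S.F k).μ ω ≠ 0 → ¬ B k ω → TR.ev z k ω = TR.ev z1 k ω) :
    DDL Yt z1 L g (2 * p) ρ (κ + θ * g / p) := by
  intro T π E hE hpE r s hLr hrs hsg
  have hθ0 : 0 ≤ θ := le_trans (pr_ul_nonneg B) hB
  set G : ∀ k, ((T.rest E).F k).Ω → Prop := fun k ω => ¬ B k (π.π k ω) with hG
  have hBT : ul (T.pr (fun k ω => B k (π.π k ω))) ≤ θ := by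
    rw [pr_comp]
    exact hB
  have hb1 : ul (T.pr (EE E fun k ω => ¬ G k ω)) ≤ θ := by
    refine le_trans (ul_mono (Sp.UB_pr _) (Sp.UB_pr _) (Eventually.of_forall fun k => ?_)) hBT
    refine FSp.pb_mono _ fun ω _ hω => ?_
    exact not_not.mp hω.2
  have hsum : ul ((T.rest E).pr fun k ω => ¬ G k ω) = 1 - ul ((T.rest E).pr G) := Sp.ul_pr_compl (S := T.rest E) G
  have hr1 := ul_rr E hE G
  have hr2 := ul_rr E hE (fun k ω => ¬ G k ω)
  rw [hsum] at hr2
  have hEG : p ≤ ul (T.pr (EE E G)) := by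
    rw [hr1]
    rw [hr2] at hb1
    nlinarith
  have hG0 : 0 < ul ((T.rest E).pr G) := by
    by_contra hcon
    push Not at hcon
    have h1 : ul (T.pr (EE E G)) ≤ 0 := by
      rw [hr1]
      exact mul_nonpos_of_nonneg_of_nonpos hE.le hcon
    linarith
  have hP : 1 - ul ((T.rest E).pr G) ≤ θ / (2 * p) := by
    rw [le_div_iff₀ (by linarith)]
    rw [hr2] at hb1
    have h1 : 0 ≤ 1 - ul ((T.rest E).pr G) := by
      have := Sp.ul_pr_le_one (S := T.rest E) G
      linarith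
    nlinarith
  -- on the good event
  have hgood : h (Sp.restL G hG0 (Sp.restL E hE (π.map (TR.dg z1 s)))) (Sp.restL G hG0 (Sp.restL E hE (π.map Yt) ⊔
      Sp.restL E hE (π.map (TR.dg z1 r)))) ≤ (1 - ρ) * (s - r) + κ := by
    rw [← Sp.restL_sup, h_rr E hE G hG0, Sp.restL_sup]
    have h1 := hd T π (EE E G) (rr_pos E G hE hG0) hEG r s hLr hrs hsg
    have e : ∀ u, Sp.restL (EE E G) (rr_pos E G hE hG0) (π.map (TR.dg z1 u)) =
        Sp.restL (EE E G) (rr_pos E G hE hG0) (π.map (TR.dg z u)) := by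
      intro u
      rw [← Pj.tr_dg, ← Pj.tr_dg, ← rst_dg _ (rr_pos E G hE hG0), ← rst_dg _ (rr_pos E G hE hG0)]
      refine TR.Te.dg_eq ⟨fun _ _ => True, Sp.Typ_true, ?_⟩ u
      filter_upwards [rest_mem (EE E G) (rr_pos E G hE hG0), hz] with k hk hk2 ω hω _
      obtain ⟨h3, h4⟩ := hk ω hω
      exact (hk2 (π.π k ω) (π.supp k ω h3) h4.2).symm
    rw [e, e]
    exact h1
  have hs0 : s - r ≤ g := by linarith
  have hg0 : 0 ≤ g := by linarith
  have hq : 0 ≤ (1 - ρ) * (s - r) := mul_nonneg (by linarith) (by linarith)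
  have hθp' : 0 ≤ θ * g / p := by positivity
  rcases Sp.typ_or (S := T.rest E) G with ht | hG'
  · rw [← Sp.h_restL_typ G ht]
    linarith
  · rw [Sp.h_split G hG0 hG']
    have hbad : h (Sp.restL (fun k ω => ¬ G k ω) hG' (Sp.restL E hE (π.map (TR.dg z1 s))))
        (Sp.restL (fun k ω => ¬ G k ω) hG' (Sp.restL E hE (π.map Yt) ⊔ Sp.restL E hE (π.map (TR.dg z1 r)))) ≤
        s - r := by
      rw [Sp.restL_sup, ← Pj.tr_dg, ← Pj.tr_dg, ← rst_dg E hE, ← rst_dg E hE]
      exact dg_rest_le _ _ hG' r s hrs _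
    set P := ul ((T.rest E).pr G) with hPdef
    have hP1 : P ≤ 1 := Sp.ul_pr_le_one (S := T.rest E) G
    have h1 : P * h (Sp.restL G hG0 (Sp.restL E hE (π.map (TR.dg z1 s)))) (Sp.restL G hG0 (Sp.restL E hE (π.map Yt) ⊔
      Sp.restL E hE (π.map (TR.dg z1 r)))) ≤ P * ((1 - ρ) * (s - r) + κ) := mul_le_mul_of_nonneg_left hgood hG0.le
    have h2 := mul_le_mul_of_nonneg_left hbad (show 0 ≤ 1 - P by linarith)
    have h3 : (1 - P) * (s - r) ≤ θ / (2 * p) * g := by
      refine mul_le_mul hP hs0 (by linarith) (by positivity)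
    have h4 : θ / (2 * p) * g ≤ θ * g / p := by
      rw [div_mul_eq_mul_div, div_le_div_iff₀ (by linarith) hp]
      have : 0 ≤ θ * g := by positivity
      nlinarith
    have h5 : P * ((1 - ρ) * (s - r) + κ) ≤ (1 - ρ) * (s - r) + κ := by nlinarith
    linarith

theorem DDL.pull {Yt : S.L} {z : TR S} {L g p ρ κ : ℝ} (h : DDL Yt z L g p ρ κ) {T : Sp} (q : Pj T S) :
    DDL (q.map Yt) (q.tr z) L g p ρ κ := by
  intro R π E hE hpE r s h1 h2 h3
  have h4 := h R (π.comp q) E hE hpE r s h1 h2 h3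
  rw [Pj.comp_map, Pj.comp_map, Pj.comp_map] at h4
  rw [Pj.tr_dg, Pj.tr_dg]
  exact h4

open Classical in
/-- a literal function of `U'` on an extension gives a literal function of `U` on the base space -/
theorem down_fn2 {W : Sp} (p : Pj W S) {α : ℕ → Type} (U : ∀ k, (S.F k).Ω → α k) (U' : ∀ k, (W.F k).Ω → α k) {m : ℕ}
    (Y : W.VV m)
    (hY : ∀ k ω ω', (W.F k).μ ω ≠ 0 → (W.F k).μ ω' ≠ 0 → U' k ω = U' k ω' → (W.F k).Z ω ω' → Y.v k ω = Y.v k ω') :
    ∃ Y' : S.VV m, (∀ k ω ω', U k ω = U k ω' → (S.F k).Z ω ω' → Y'.v k ω = Y'.v k ω') ∧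
      ∀ k ω, (W.F k).μ ω ≠ 0 → U' k ω = U k (p.π k ω) → Y'.v k (p.π k ω) = Y.v k ω := by
  obtain ⟨C, hCs, hC⟩ := Y.bd
  have hsub : S.Sub C := by
    have h1 := hCs
    unfold Sp.Sub at h1 ⊢
    simp only [p.hn] at h1
    exact h1
  let v : ∀ k, (S.F k).Ω → Fin m → ℝ := fun k ω =>
    if h : ∃ ω', (W.F k).μ ω' ≠ 0 ∧ U' k ω' = U k ω ∧ (S.F k).Z (p.π k ω') ω then Y.v k h.choose else 0
  refine ⟨⟨v, C, hsub, ?_⟩, ?_, ?_⟩
  · filter_upwards [hC, hCs.1] with k hk h0 ω _ i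
    by_cases h : ∃ ω', (W.F k).μ ω' ≠ 0 ∧ U' k ω' = U k ω ∧ (S.F k).Z (p.π k ω') ω
    · have e : v k ω = Y.v k h.choose := dif_pos h
      rw [e]
      exact hk _ h.choose_spec.1 i
    · have e : v k ω = 0 := dif_neg h
      rw [e]
      simpa using h0
  · intro k ω ω' h1 h2
    show v k ω = v k ω'
    have e : (fun w => (W.F k).μ w ≠ 0 ∧ U' k w = U k ω ∧ (S.F k).Z (p.π k w) ω) =
        fun w => (W.F k).μ w ≠ 0 ∧ U' k w = U k ω' ∧ (S.F k).Z (p.π k w) ω' := by
      funext w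
      rw [h1]
      refine propext (and_congr Iff.rfl (and_congr Iff.rfl ⟨fun h => ?_, fun h => ?_⟩))
      · exact Setoid.trans' _ h h2
      · exact Setoid.trans' _ h (Setoid.symm' _ h2)
    by_cases h : ∃ w, (W.F k).μ w ≠ 0 ∧ U' k w = U k ω ∧ (S.F k).Z (p.π k w) ω
    · have h' : ∃ w, (W.F k).μ w ≠ 0 ∧ U' k w = U k ω' ∧ (S.F k).Z (p.π k w) ω' := by
        rwa [e] at h
      have e1 : v k ω = Y.v k h.choose := dif_pos h
      have e2 : v k ω' = Y.v k h'.choose := dif_pos h'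
      rw [e1, e2]
      refine hY k _ _ h.choose_spec.1 h'.choose_spec.1 ?_ ?_
      · rw [h.choose_spec.2.1, h'.choose_spec.2.1, h1]
      · rw [p.hZ k _ _ h.choose_spec.1 h'.choose_spec.1]
        exact Setoid.trans' _ h.choose_spec.2.2 (Setoid.trans' _ h2 (Setoid.symm' _ h'.choose_spec.2.2))
    · have h' : ¬ ∃ w, (W.F k).μ w ≠ 0 ∧ U' k w = U k ω' ∧ (S.F k).Z (p.π k w) ω' := by
        rwa [e] at h
      have e1 : v k ω = 0 := dif_neg h
      have e2 : v k ω' = 0 := dif_neg h'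
      rw [e1, e2]
  · intro k ω hω hU
    show v k (p.π k ω) = Y.v k ω
    have h : ∃ w, (W.F k).μ w ≠ 0 ∧ U' k w = U k (p.π k ω) ∧ (S.F k).Z (p.π k w) (p.π k ω) :=
      ⟨ω, hω, hU, Setoid.refl' _ _⟩
    have e1 : v k (p.π k ω) = Y.v k h.choose := dif_pos h
    rw [e1]
    refine hY k _ _ h.choose_spec.1 hω (h.choose_spec.2.1.trans hU.symm) ?_
    rw [p.hZ k _ _ h.choose_spec.1 hω]
    exact h.choose_spec.2.2

/-- the point `(y, z)` -/
def pv {m : ℕ} (y : S.VV m) (z : TR S) : S.VV (m + 1) := TR.vec (Fin.snoc (TR.cor y) z)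

theorem pv_last {m : ℕ} (y : S.VV m) (z : TR S) (k : ℕ) (ω : (S.F k).Ω) : (pv y z).v k ω (Fin.last m) = TR.ev z k ω := by
  show TR.ev ((Fin.snoc (TR.cor y) z : Fin (m + 1) → TR S) (Fin.last m)) k ω = _
  rw [Fin.snoc_last]

theorem pv_cast {m : ℕ} (y : S.VV m) (z : TR S) (k : ℕ) (ω : (S.F k).Ω) (i : Fin m) :
    (pv y z).v k ω i.castSucc = y.v k ω i := by
  show TR.ev ((Fin.snoc (TR.cor y) z : Fin (m + 1) → TR S) i.castSucc) k ω = _
  rw [Fin.snoc_castSucc]
  rfl

theorem pv_congr {m : ℕ} {T : Sp} (q : Pj T S) (y : S.VV m) (z : TR S) (z1 : TR T) (k : ℕ) (w : (T.F k).Ω)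
    (h : TR.ev z1 k w = TR.ev z k (q.π k w)) (g : ℝ) :
    (pv (q.vv y) z1).cellv g k w = (pv y z).cellv g k (q.π k w) := by
  show Sp.cell (T.dl g k) ((pv (q.vv y) z1).v k w) = Sp.cell (S.dl g k) ((pv y z).v k (q.π k w))
  rw [dl_pj q]
  congr 1
  funext i
  refine Fin.lastCases ?_ (fun j => ?_) i
  · rw [pv_last, pv_last, h]
  · rw [pv_cast, pv_cast]
    rfl

/-- the coefficients of a vector, as functions of monomials -/
def mv (Y : S.VV (Fintype.card (Mon N D))) (k : ℕ) (ω : (S.F k).Ω) (a : Mon N D) : ℝ :=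
  Y.v k ω (Fintype.equivFin (Mon N D) a)

/-- FRESH SHEET. `VA` is the literal line variable, `W` an extension with a label `f` (the coefficients of a sheet);
the new point is a copy of the point given `VA`. If the sheet is blind for the base of the new point and contains the
new point up to `2 ^ (-g n)` outside an event of probability `θ` then the sheet is, up to level `g - R`, a literal
function `gB` of the point which agrees with a literal function `gA` of the line. -/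
theorem fresh_sheet (N D : ℕ) (ρ : ℝ) (hρ : 0 < ρ) (hρ1 : ρ ≤ 1) : ∃ C : ℝ, 1 ≤ C ∧
    ∀ (S : Sp) (y : S.VV (N + 1)) (z : TR S) (Yt : S.L) {α : ℕ → Type} (VA : ∀ k, (S.F k).Ω → α k) (W : Sp)
    (p1 : Pj W S) (f : Mon (N + 1) D → TR W) (L g R p κ ε θ : ℝ),
    0 < R → 0 ≤ L → L + R ≤ g → 0 < p → 0 ≤ κ → C * ε ≤ p * R → C * κ ≤ R → C * (θ * g) ≤ p * R → θ ≤ p →
    y.dg g ≤ Yt → (N + 1) * g - ε ≤ H (y.dg g) →
    I ((p1.join VA).p1.map ((cv f).dg g)) ((p1.join VA).p2.map Yt) ⊥ ≤ ε → DDL Yt z L g p ρ κ →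
    ul ((p1.join VA).sp.pr (fun k w => (p1.join VA).sp.dl g k <
      |TR.ev z k w.2 - MvPolynomial.eval (y.v k w.2) (pol fun i => TR.ev (f i) k w.1)|)) ≤ θ →
    ∃ gA gB : S.VV (Fintype.card (Mon (N + 1) D)),
      (∀ k ω ω', VA k ω = VA k ω' → (S.F k).Z ω ω' → gA.v k ω = gA.v k ω') ∧
      (∀ k ω ω', (pv y z).cellv g k ω = (pv y z).cellv g k ω' → (S.F k).Z ω ω' → gB.v k ω = gB.v k ω') ∧
      ul (S.pr (fun k ω => ¬ ∀ i, |gA.v k ω i - gB.v k ω i| ≤ S.dl (g - R) k)) ≤ C * (g / R) ^ pw N D * p ∧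
      ∃ K : ℕ → ℝ, S.Sub K ∧ ul (S.pr (fun k ω => K k * S.dl (g - R) k <
        |TR.ev z k ω - MvPolynomial.eval (y.v k ω) (pol (mv gB k ω))|)) ≤ C * (g / R) ^ pw N D * p := by
  classical
  obtain ⟨C, hC, hmain⟩ := sslA N D ρ hρ hρ1
  refine ⟨2 * C + 1, by linarith, ?_⟩
  intro S y z Yt α VA W p1 f L g R p κ ε θ hR hL hLR hp hκ0 hε hκ hθ hθp hYt hfull hI hDD hB
  set DD' := (p1.join VA).sp with hD'
  set q1 : Pj DD' W := (p1.join VA).p1 with hq1
  set q2 : Pj DD' S := (p1.join VA).p2 with hq2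
  set B : ∀ k, (DD'.F k).Ω → Prop := fun k w => DD'.dl g k <
      |TR.ev z k w.2 - MvPolynomial.eval (y.v k w.2) (pol fun i => TR.ev (f i) k w.1)| with hBdef
  have hθ0 : 0 ≤ θ := le_trans (pr_ul_nonneg B) hB
  have hg0 : 0 < g := by linarith
  have hgR : 1 ≤ g / R := (one_le_div hR).mpr (by linarith)
  have hpw : 1 ≤ (g / R) ^ pw N D := one_le_pow₀ hgR
  have hε0 : 0 ≤ ε := (I_nonneg _ _ _).trans hI
  -- the modified top coordinate
  set fq : Mon (N + 1) D → TR DD' := fun i => q1.tr (f i) with hfq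
  set F : TR DD' := pe fq (TR.cor (q2.vv y)) with hF
  have hFev : ∀ k w, TR.ev F k w = MvPolynomial.eval (y.v k w.2) (pol fun i => TR.ev (f i) k w.1) :=
    fun k w => ev_pe _ _ k w
  obtain ⟨K1, hK1, hk1⟩ := (q2.tr z).2
  obtain ⟨K2, hK2, hk2⟩ := F.2
  set z1 : TR DD' := ⟨fun k w => if B k w then TR.ev F k w else TR.ev z k w.2, fun k => K1 k + K2 k, hK1.add hK2, by
    filter_upwards [hk1, hk2, hK1.1, hK2.1] with k a1 a2 a3 a4 w hw
    show |if B k w then TR.ev F k w else TR.ev z k w.2| ≤ K1 k + K2 k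
    split_ifs
    · exact (a2 w hw).trans (by linarith)
    · have := a1 w hw
      exact le_trans this (by linarith)⟩ with hz1
  have hz1B : ∀ k w, B k w → TR.ev z1 k w = TR.ev F k w := fun k w h => if_pos h
  have hz1G : ∀ k w, ¬ B k w → TR.ev z1 k w = TR.ev z k w.2 := fun k w h => if_neg h
  have hag : TR.Ag g z1 (pe fq (TR.cor (q2.vv y))) := by
    refine ag_of_close (Eventually.of_forall fun k w _ => ?_)
    by_cases hb : B k w
    · have h1 : TR.ev (pe fq (TR.cor (q2.vv y))) k w = TR.ev F k w := rfl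
      rw [hz1B k w hb, h1, sub_self, abs_zero]
      exact (DD'.dl_pos g k).le
    · have h1 : TR.ev (pe fq (TR.cor (q2.vv y))) k w = TR.ev F k w := rfl
      rw [hz1G k w hb, h1, hFev]
      exact not_lt.mp hb
  have hDD1 : DDL (q2.map Yt) z1 L g (2 * p) ρ (κ + θ * g / p) :=
    (hDD.pull q2).modify z1 θ B hB hp hθp hκ0 hL hρ1 (Eventually.of_forall fun k w _ hb => (hz1G k w hb).symm)
  have hfm : (cv fq).dg g = q1.map ((cv f).dg g) := by
    rw [Pj.map_dg]
    rfl
  have hym : (q2.vv y).dg g = q2.map (y.dg g) := (q2.map_dg y g).symm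
  have hBl := bl_of_I (q2.vv y) ((cv fq).dg g) (q2.map Yt) g (2 * p) ε (by linarith)
    (by rw [hym]; exact q2.map_mono hYt) (by rw [hym, Pj.H_map]; push_cast; exact hfull) (by rw [hfm]; exact hI)
  set U1 := (pv (q2.vv y) z1).cellv g with hU1
  have key := hmain DD' (q2.vv y) z1 fq (q2.map Yt) L g R (2 * p) (κ + θ * g / p) (2 * ε / (2 * p)) hR hL hLR
    (by linarith) (by
      rw [← mul_div_assoc, div_le_iff₀ (by linarith)]
      nlinarith)
    (by
      have h1 : C * (θ * g / p) * 2 ≤ R := by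
        have h2 : C * (θ * g / p) * 2 = C * 2 * (θ * g) / p := by ring
        rw [h2, div_le_iff₀ hp]
        have h3 : 0 ≤ θ * g := by positivity
        nlinarith
      have h4 : C * κ * 2 ≤ R := by nlinarith
      rw [mul_add]
      linarith) (by rw [hym]; exact q2.map_mono hYt) hag hBl hDD1 (two U1) (two1 U1) (two2 U1)
    (fun i => ag_of_close (Eventually.of_forall fun k w hw => by
      have h1 : U1 k ((two1 U1).π k w) = U1 k ((two2 U1).π k w) := Pj.join_supp (Pj.id DD') U1 k w hw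
      have h2 := (pv (q2.vv y) z1).cellv_close g k _ _ h1 i.castSucc
      rw [pv_cast, pv_cast] at h2
      rw [dl_pj (two1 U1)]
      exact h2))
    (ag_of_close (Eventually.of_forall fun k w hw => by
      have h1 : U1 k ((two1 U1).π k w) = U1 k ((two2 U1).π k w) := Pj.join_supp (Pj.id DD') U1 k w hw
      have h2 := (pv (q2.vv y) z1).cellv_close g k _ _ h1 (Fin.last _)
      rw [pv_last, pv_last] at h2
      rw [dl_pj (two1 U1)]
      exact h2))
  obtain ⟨Y, hY1, hY2⟩ := fn_of_agree U1 (cv fq) (g - R) (C * (g / R) ^ pw N D * (2 * p)) (by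
    refine le_trans (ul_mono (Sp.UB_pr _) (Sp.UB_pr _) (Eventually.of_forall fun j => ?_)) key
    refine FSp.pb_mono _ fun w _ hw => ?_
    push Not at hw
    obtain ⟨i, hi⟩ := hw
    refine ⟨(Fintype.equivFin (Mon (N + 1) D)).symm i, ?_⟩
    rw [dl_pj (two1 U1), TR.ev_sub, abs_sub_comm]
    exact hi)
  obtain ⟨gB, hgB1, hgB2⟩ := down_fn2 q2 ((pv y z).cellv g) U1 Y (fun k w w' _ _ h h' => hY1 k w w' h h')
  have hgBY : ∀ k w, (DD'.F k).μ w ≠ 0 → ¬ B k w → gB.v k w.2 = Y.v k w := by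
    intro k w hw hb
    exact hgB2 k w hw (pv_congr q2 y z z1 k w (hz1G k w hb) g)
  set q : ℝ := C * (g / R) ^ pw N D * (2 * p) + θ with hq
  have hqC : q ≤ (2 * C + 1) * (g / R) ^ pw N D * p := by
    rw [hq]
    nlinarith
  have hclose : ul (DD'.pr (fun k w => ¬ ∀ i, |(cv f).v k w.1 i - gB.v k w.2 i| ≤ S.dl (g - R) k)) ≤ q := by
    have h1 := ul_or_le (S := DD') (fun k w => ¬ ∀ i, |(cv f).v k w.1 i - gB.v k w.2 i| ≤ S.dl (g - R) k)
      (fun k w => ¬ ∀ i, |(cv fq).v k w i - Y.v k w i| ≤ DD'.dl (g - R) k) B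
      (Eventually.of_forall fun k w hw hn => by
        by_contra hcon
        push Not at hcon
        refine hn fun i => ?_
        rw [hgBY k w hw hcon.2]
        have h2 := not_not.mp (fun hh => hh hcon.1) i
        rw [dl_pj q2] at h2
        exact h2)
    exact h1.trans (add_le_add hY2 hB)
  obtain ⟨c, hc1, -, hc3, hc4⟩ := exists_rep2 p1 VA (fun k w ω => ∀ i, |(cv f).v k w i - gB.v k ω i| ≤ S.dl (g - R) k)
  obtain ⟨Kf, hKf, hkf⟩ := (cv f).bd
  have hKfS : S.Sub Kf := by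
    have h1 := hKf
    unfold Sp.Sub at h1 ⊢
    simp only [p1.hn] at h1
    exact h1
  refine ⟨⟨fun k ω => (cv f).v k (c k ω), Kf, hKfS, ?_⟩, gB, fun k ω ω' h1 h2 => ?_, hgB1, ?_, ?_⟩
  · filter_upwards [hkf] with k hk ω _ i
    exact hk _ (hc1 k ω) i
  · show (cv f).v k (c k ω) = (cv f).v k (c k ω')
    rw [hc3 k ω ω' h1 h2]
  · refine le_trans (le_trans (ul_mono (Sp.UB_pr _) (Sp.UB_pr _) (Eventually.of_forall fun k => ?_)) hclose) hqC
    exact hc4 k
  · obtain ⟨Ky, hKy, hKy1, hky⟩ := exists_bd (TR.cor y)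
    set M : ℝ := ((Fintype.card (Mon (N + 1) D) : ℕ) : ℝ) with hM
    have hM0 : 0 ≤ M := Nat.cast_nonneg _
    have hKyD : S.Sub (fun k => Ky k ^ D) := by
      have h0 : ∀ d : ℕ, S.Sub (fun k => Ky k ^ d) := by
        intro d
        induction d with
        | zero => simpa using S.Sub_const zero_le_one
        | succ d ih =>
          refine (ih.mul hKy).mono (Eventually.of_forall fun k => pow_nonneg (by linarith [hKy1 k]) _)
            (Eventually.of_forall fun k => ?_)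
          rw [pow_succ]
      exact h0 D
    refine ⟨fun k => M * Ky k ^ D + 1, ((S.Sub_const hM0).mul hKyD).add (S.Sub_const zero_le_one), ?_⟩
    refine le_trans ?_ hqC
    rw [← pr_comp q2]
    have h1 := ul_or_le (S := DD') (fun k w => (M * Ky k ^ D + 1) * S.dl (g - R) k <
        |TR.ev z k w.2 - MvPolynomial.eval (y.v k w.2) (pol (mv gB k w.2))|)
      (fun k w => ¬ ∀ i, |(cv fq).v k w i - Y.v k w i| ≤ DD'.dl (g - R) k) B (by
        filter_upwards [hky] with k hk w hw hn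
        by_contra hcon
        push Not at hcon
        obtain ⟨hcl, hnb⟩ := hcon
        have a1 : |TR.ev z k w.2 - MvPolynomial.eval (y.v k w.2) (pol fun i => TR.ev (f i) k w.1)| ≤ S.dl g k := by
          have := not_lt.mp hnb
          rwa [dl_pj q2] at this
        have a2 := val_close (fun i => TR.ev (f i) k w.1) (mv gB k w.2) (S.dl (g - R) k) (fun a => by
          have b1 : ∀ i, |(cv fq).v k w i - Y.v k w i| ≤ DD'.dl (g - R) k := by
            by_contra hh
            exact hh hcl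
          have b2 := b1 (Fintype.equivFin (Mon (N + 1) D) a)
          have b3 : (cv fq).v k w (Fintype.equivFin (Mon (N + 1) D) a) = TR.ev (f a) k w.1 := by
            show TR.ev (fq ((Fintype.equivFin (Mon (N + 1) D)).symm (Fintype.equivFin (Mon (N + 1) D) a))) k w = _
            rw [Equiv.symm_apply_apply]
            rfl
          rw [b3, dl_pj q2, ← hgBY k w hw hnb] at b2
          exact b2) (y.v k w.2) (Ky k) (hKy1 k) (fun i => hk w.2 (q2.supp k w hw) i)
        have a3 : S.dl g k ≤ S.dl (g - R) k := S.dl_anti (by linarith) k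
        have a4 := abs_sub_le (TR.ev z k w.2) (MvPolynomial.eval (y.v k w.2) (pol fun i => TR.ev (f i) k w.1))
          (MvPolynomial.eval (y.v k w.2) (pol (mv gB k w.2)))
        have a5 : |TR.ev z k w.2 - MvPolynomial.eval (y.v k w.2) (pol (mv gB k w.2))| ≤
            (M * Ky k ^ D + 1) * S.dl (g - R) k := by
          rw [add_mul, one_mul]
          linarith
        exact absurd hn (not_lt.mpr a5))
    exact h1.trans (add_le_add hY2 hB)

end

end Pool.Agent.Helper97.SL
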