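import Pool.Agent.Helper97.SL.Ex

/-! FULLPOLY: the value of a polynomial with known coefficients, one of which (not the constant one) is of size
`2 ^ (-δ n)`, at an almost uniform point, is almost uniform. (SSL) -/

set_option autoImplicit false

namespace Pool.Agent.Helper97.SL

open Finset Filter Topology
open Pool.Agent.Helper3.LF Pool.Agent.Helper69.RK Pool.Agent.Helper31.EC

noncomputable section

variable {S : Sp} {N D : ℕ}

/-- the coefficient vector as a vector variable -/
def cv (c : Mon N D → TR S) : S.VV (Fintype.card (Mon N D)) :=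
  TR.vec fun j => c ((Fintype.equivFin (Mon N D)).symm j)

theorem cv_dg_le (c : Mon N D → TR S) (e : ℝ) (A : S.L) (h : ∀ a, TR.dg (c a) e ≤ A) : (cv c).dg e ≤ A :=
  TR.vec_dg_le _ _ _ fun _ => h _

theorem dg_le_cv (c : Mon N D → TR S) (e : ℝ) (a : Mon N D) : TR.dg (c a) e ≤ (cv c).dg e := by
  have h := TR.cor_dg_le (cv c) (Fintype.equivFin (Mon N D) a) e
  have e1 : TR.cor (cv c) (Fintype.equivFin (Mon N D) a) = c a := by
    unfold cv
    rw [TR.cor_vec, Equiv.symm_apply_apply]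
  rwa [e1] at h

theorem cv_close (c : Mon N D → TR S) (e : ℝ) (k : ℕ) (ω ω' : (S.F k).Ω)
    (h : (cv c).cellv e k ω = (cv c).cellv e k ω') (a : Mon N D) :
    |TR.ev (c a) k ω - TR.ev (c a) k ω'| ≤ S.dl e k := by
  have h1 := (cv c).cellv_close e k ω ω' h (Fintype.equivFin (Mon N D) a)
  have e1 : ∀ ω, (cv c).v k ω (Fintype.equivFin (Mon N D) a) = TR.ev (c a) k ω := by
    intro ω
    show TR.ev (c ((Fintype.equivFin (Mon N D)).symm (Fintype.equivFin (Mon N D) a))) k ω = _
    rw [Equiv.symm_apply_apply]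
  rwa [e1, e1] at h1

theorem mass_or (F : FSp) (G E : F.Ω → Prop) :
    mass (res F.μ (fun ω => ¬ G ω ∨ E ω)) ≤ mass (res F.μ (fun ω => ¬ G ω)) + mass (res F.μ (fun ω => G ω ∧ E ω)) := by
  unfold mass
  rw [← Finset.sum_add_distrib]
  refine Finset.sum_le_sum fun ω _ => ?_
  unfold res
  by_cases hG : G ω <;> by_cases hE : E ω <;> simp [hG, hE]

/-- FULLPOLY -/
theorem fullpoly (y : S.VV (N + 1)) (c : Mon (N + 1) D → TR S) (A : S.L) (e δ d θ : ℝ) (he : 0 < e) (hδ : 0 ≤ δ)
    (hθ : 0 < θ) (hθe : θ ≤ e) (h1 : ∀ a, TR.dg (c a) e ≤ A) (K : ℕ → ℝ) (hK : S.Sub K)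
    (h2 : Sp.Typ (fun k ω => ∃ a, a ≠ z0 (N + 1) D ∧ S.dl δ k ≤ K k * |TR.ev (c a) k ω|))
    (h3 : (N + 1) * e - d ≤ h (y.dg e) A) :
    e - d - δ - D * θ - (N + 1) * e * (d / θ) ≤ h (TR.dg (pe c (TR.cor y)) e) A := by
  have hd : 0 ≤ d := by
    have := (h_le_H (y.dg e) A).trans (y.H_dg_le he.le)
    push_cast at this
    linarith
  have hD : (0 : ℝ) ≤ D := Nat.cast_nonneg D
  have hN : (0 : ℝ) ≤ N := Nat.cast_nonneg N
  rcases le_or_gt e (δ + D * θ) with hc | hc
  · have h4 := h_nonneg (TR.dg (pe c (TR.cor y)) e) A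
    have h5 : 0 ≤ (N + 1) * e * (d / θ) := by positivity
    linarith
  obtain ⟨C1, hC1, f1⟩ := fin_bad N D
  obtain ⟨C2, hC2, f2⟩ := fin_lev N D
  revert h1 h3
  induction A using Sp.cl_ind with
  | h A0 =>
  intro h1 h3
  obtain ⟨Ky, hKy, hy⟩ := y.bd
  -- the constants
  set C : ℝ := C1 + C2 with hCdef
  have hC : 1 ≤ C := by linarith
  set K0 : ℕ → ℝ := fun k => Ky k + K k + 1 with hK0
  have hK0s : S.Sub K0 := (hKy.add hK).add (S.Sub_const zero_le_one)
  have hK01 : ∀ᶠ k in UF, 1 ≤ K0 k := by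
    filter_upwards [hKy.1, hK.1] with k a b
    rw [hK0]
    show 1 ≤ Ky k + K k + 1
    linarith
  set m : ℕ → ℝ := fun k => S.dl δ k / K0 k with hm
  set ε : ℕ → ℝ := fun k => m k * (S.dl θ k) ^ D / (4 * C * K0 k ^ D) with hε
  have hεpos : ∀ᶠ k in UF, 0 < ε k := by
    filter_upwards [hK01] with k hk
    have a1 := S.dl_pos δ k
    have a2 := S.dl_pos θ k
    show 0 < S.dl δ k / K0 k * (S.dl θ k) ^ D / (4 * C * K0 k ^ D)
    have : 0 < K0 k := by linarith
    positivity
  -- exponent of 1 / ε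
  have hK0nn : ∀ᶠ k in UF, 0 ≤ K0 k := hK01.mono fun k hk => by linarith
  have exK : Ex S K0 0 := Ex_sub hK0s
  have exKD : ∀ j : ℕ, Ex S (fun k => K0 k ^ j) 0 := fun j => by
    have := exK.pow hK0nn j
    rwa [mul_zero] at this
  have exε : Ex S (fun k => (ε k)⁻¹) (δ + D * θ) := by
    have a1 : Ex S (fun k => (S.dl δ k)⁻¹) δ := Ex_dl_inv δ
    have a2 : Ex S (fun k => ((S.dl θ k)⁻¹) ^ D) (D * θ) :=
      (Ex_dl_inv θ).pow (Eventually.of_forall fun k => inv_nonneg.mpr (S.dl_pos θ k).le) D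
    have a3 : Ex S (fun k => K0 k * (4 * C * K0 k ^ D)) 0 := by
      have := exK.mul ((Ex_const (S := S) (4 * C)).mul (exKD D) (Eventually.of_forall fun _ => by positivity)
        (hK0nn.mono fun k hk => pow_nonneg hk D)) hK0nn (hK0nn.mono fun k hk => by positivity)
      simpa using this
    have a4 := (a1.mul a2 (Eventually.of_forall fun k => inv_nonneg.mpr (S.dl_pos δ k).le)
      (Eventually.of_forall fun k => pow_nonneg (inv_nonneg.mpr (S.dl_pos θ k).le) D)).mul a3
      (Eventually.of_forall fun k => mul_nonneg (inv_nonneg.mpr (S.dl_pos δ k).le)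
        (pow_nonneg (inv_nonneg.mpr (S.dl_pos θ k).le) D)) (hK0nn.mono fun k hk => by positivity)
    refine a4.mono ?_ (by linarith)
    filter_upwards [hK01] with k hk
    refine le_of_eq ?_
    show (S.dl δ k / K0 k * (S.dl θ k) ^ D / (4 * C * K0 k ^ D))⁻¹ =
      (S.dl δ k)⁻¹ * ((S.dl θ k)⁻¹) ^ D * (K0 k * (4 * C * K0 k ^ D))
    have : 0 < K0 k := by linarith
    have := S.dl_pos δ k
    have := S.dl_pos θ k
    rw [inv_pow]
    field_simp
  -- smallness
  have small : ∀ᶠ k in UF, (C * K0 k ^ ((N + 1) * D + D) + (C * K0 k ^ D + 1)) * S.dl e k ≤ ε k / 2 := by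
    have a1 : Ex S (fun k => C * K0 k ^ ((N + 1) * D + D) + (C * K0 k ^ D + 1)) 0 := by
      have b1 := (Ex_const (S := S) C).mul (exKD ((N + 1) * D + D)) (Eventually.of_forall fun _ => by positivity)
        (hK0nn.mono fun k hk => pow_nonneg hk _)
      have b2 := (Ex_const (S := S) C).mul (exKD D) (Eventually.of_forall fun _ => by positivity)
        (hK0nn.mono fun k hk => pow_nonneg hk _)
      rw [zero_add] at b1 b2
      exact b1.add (b2.add (Ex_const 1))
    have a2 := (a1.mul (Ex_dl e) (hK0nn.mono fun k hk => by positivity)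
      (Eventually.of_forall fun k => (S.dl_pos e k).le)).mul ((Ex_const (S := S) 2).mul exε
        (Eventually.of_forall fun _ => by positivity) (hεpos.mono fun k hk => (inv_pos.mpr hk).le))
        (hK0nn.mono fun k hk => mul_nonneg (by positivity) (S.dl_pos e k).le)
        (hεpos.mono fun k hk => by positivity)
    have a3 := a2.le_one (by linarith)
    filter_upwards [a3, hεpos] with k hk hk2
    have e1 : (C * K0 k ^ ((N + 1) * D + D) + (C * K0 k ^ D + 1)) * S.dl e k =
      (C * K0 k ^ ((N + 1) * D + D) + (C * K0 k ^ D + 1)) * S.dl e k * (2 * (ε k)⁻¹) * (ε k / 2) := by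
      field_simp
    rw [e1]
    calc _ ≤ 1 * (ε k / 2) := mul_le_mul_of_nonneg_right hk (by positivity)
      _ = _ := one_mul _
  -- partitions
  set C0 : S.Inf := ((cv c).bdd e).toInf with hC0
  set P0 : S.Inf := ((TR.vec (fun _ : Fin 1 => pe c (TR.cor y))).bdd e).toInf with hP0
  set Y0 : S.Inf := (y.bdd e).toInf with hY0
  set B0 : S.Inf := Sp.Inf.sup A0 C0 with hB0
  have hclY : y.dg e = Sp.cl Y0 := Sp.io_eq _
  have hclP : TR.dg (pe c (TR.cor y)) e = Sp.cl P0 := Sp.io_eq _
  have hclC : (cv c).dg e = Sp.cl C0 := Sp.io_eq _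
  have hclB : Sp.cl B0 = Sp.cl A0 := by
    rw [hB0, Sp.cl_sup, ← hclC]
    exact sup_eq_left.mpr (cv_dg_le c e _ h1)
  have hYA : h (y.dg e) (Sp.cl A0) = ul (S.rt Y0.1 B0.1) := by rw [hclY, ← hclB, Sp.h_cl]
  have hYPA : h (y.dg e) (TR.dg (pe c (TR.cor y)) e ⊔ Sp.cl A0) = ul (S.rt Y0.1 (Sp.Inf.sup P0 B0).1) := by
    rw [hclY, hclP, ← hclB, ← Sp.cl_sup, Sp.h_cl]
  -- the events
  set G : ∀ k, (S.F k).Ω → Prop := fun k ω => ∃ a, a ≠ z0 (N + 1) D ∧ S.dl δ k ≤ K k * |TR.ev (c a) k ω| with hG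
  set Em : ∀ k, (S.F k).Ω → Prop := fun k ω =>
    ∀ i, |MvPolynomial.eval (y.v k ω) (MvPolynomial.pderiv i (pol fun a => TR.ev (c a) k ω))| ≤ ε k with hEm
  set P1 : ℕ → ℝ := fun k => mass (res (S.F k).μ (fun ω => G k ω ∧ Em k ω)) with hP1
  have hP10 : ∀ k, 0 ≤ P1 k := fun k => Sp.mass_res_nonneg k _
  have hP11 : ∀ k, P1 k ≤ 1 := fun k => Sp.mass_res_le_one k _
  have hP1U : UB P1 := UB_of_nonneg_le (Eventually.of_forall hP10) (Eventually.of_forall hP11)
  have hAc : ∀ k (ω ω' : (S.F k).Ω), (B0.1 k ⊓ (S.F k).Z) ω ω' → ∀ a, |TR.ev (c a) k ω - TR.ev (c a) k ω'| ≤ S.dl e k :=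
    fun k ω ω' hB a => cv_close c e k ω ω' hB.1.2 a
  have hm' : ∀ᶠ k in UF, ∀ ω, (S.F k).μ ω ≠ 0 → G k ω → ∃ a, a ≠ z0 (N + 1) D ∧ m k ≤ |TR.ev (c a) k ω| := by
    filter_upwards [hK01, hKy.1, hK.1] with k hk hk1 hk2
    rintro ω _ ⟨a, ha, hb⟩
    refine ⟨a, ha, ?_⟩
    show S.dl δ k / K0 k ≤ _
    rw [div_le_iff₀ (by linarith), mul_comm]
    refine hb.trans (mul_le_mul_of_nonneg_right ?_ (abs_nonneg _))
    show K k ≤ Ky k + K k + 1
    linarith
  have hyK : ∀ᶠ k in UF, ∀ ω, (S.F k).μ ω ≠ 0 → ∀ i, |y.v k ω i| ≤ K0 k := by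
    filter_upwards [hy, hK.1] with k hk hk2 ω hω i
    refine (hk ω hω i).trans ?_
    show Ky k ≤ Ky k + K k + 1
    linarith
  have hdl1 : ∀ (r : ℝ), 0 ≤ r → ∀ k, S.dl r k ≤ 1 := fun r hr k => by
    have := S.dl_anti hr k
    rwa [S.dl_zero] at this
  -- exponent of the number of cells
  have exC : Ex S (fun k => 4 * K0 k / S.dl e k) e := by
    have a1 := ((Ex_const (S := S) 4).mul exK (Eventually.of_forall fun _ => by norm_num) hK0nn).mul (Ex_dl_inv e)
      (hK0nn.mono fun k hk => by positivity) (Eventually.of_forall fun k => inv_nonneg.mpr (S.dl_pos e k).le)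
    refine a1.mono (Eventually.of_forall fun k => by rw [div_eq_mul_inv]) (by linarith)
  have posC : ∀ᶠ k in UF, 0 < 4 * K0 k / S.dl e k := by
    filter_upwards [hK01] with k hk
    have := S.dl_pos e k
    have : 0 < K0 k := by linarith
    positivity
  -- (1) the bad event
  have hp1 : ul P1 * θ ≤ d := by
    refine le_of_forall_pos_le_add fun ζ hζ => ?_
    set ζ' : ℝ := ζ / (N + 4) with hζ'
    have hζp : 0 < ζ' := by positivity
    have exq : Ex S (fun k => 2 * C * S.dl θ k) (-θ) := by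
      have := (Ex_const (S := S) (2 * C)).mul (Ex_dl θ) (Eventually.of_forall fun _ => by positivity)
        (Eventually.of_forall fun k => (S.dl_pos θ k).le)
      rwa [zero_add] at this
    have a1 : ∀ᶠ k in UF, P1 k * (θ - ζ') ≤ (N + 1) * (e + ζ') - S.rt Y0.1 B0.1 k + ζ' := by
      filter_upwards [hεpos, hK01, small, hm', hyK, exC.logb posC hζp, inv_n S hζp,
        exq.logb (Eventually.of_forall fun k => by have := S.dl_pos θ k; positivity) hζp] with
        k b1 b2 b3 b4 b5 b6 b7 b8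
      have hn := (S.F k).pos
      have hK0k : 0 < K0 k := by linarith
      have hdθ := S.dl_pos θ k
      have hde := S.dl_pos e k
      have hdδ := S.dl_pos δ k
      have c1 := f1 (S.F k) (B0.1 k ⊓ (S.F k).Z) (y.v k) (fun ω a => TR.ev (c a) k ω) (G k) (K0 k) (S.dl e k)
        (S.dl θ k) (ε k) (m k) b2 hde (S.dl_anti hθe k) (hdl1 θ hθ.le k) b1 (by
          have hmk : 0 < m k := by
            show 0 < S.dl δ k / K0 k
            positivity
          have e1 : C1 * K0 k ^ D * (2 * ε k) = (C1 / (2 * C)) * (m k * (S.dl θ k) ^ D) := by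
            show C1 * K0 k ^ D * (2 * (m k * (S.dl θ k) ^ D / (4 * C * K0 k ^ D))) = _
            field_simp
            ring
          rw [e1]
          have e2 : C1 / (2 * C) < 1 := by
            rw [div_lt_one (by positivity)]
            linarith
          have e3 : 0 < m k * (S.dl θ k) ^ D := by positivity
          nlinarith) (by
          refine le_trans ?_ (b3.trans (by linarith))
          refine mul_le_mul_of_nonneg_right ?_ hde.le
          have e1 : C1 * K0 k ^ ((N + 1) * D + D) ≤ C * K0 k ^ ((N + 1) * D + D) :=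
            mul_le_mul_of_nonneg_right (by linarith) (by positivity)
          have e2 : 0 ≤ C * K0 k ^ D + 1 := by positivity
          linarith) b5 (fun ω ω' _ _ hB a => hAc k ω ω' hB a) b4
      -- logs
      have c2 : θ - ζ' ≤ Real.logb 2 (1 / (2 * C1 * S.dl θ k)) / (S.F k).n := by
        have e0 : Real.logb 2 (1 / (2 * C1 * S.dl θ k)) = -Real.logb 2 (2 * C1 * S.dl θ k) := by
          rw [one_div, Real.logb_inv]
        rw [e0, neg_div]
        have e1 : Real.logb 2 (2 * C1 * S.dl θ k) / (S.F k).n ≤ Real.logb 2 (2 * C * S.dl θ k) / (S.F k).n := by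
          refine div_le_div_of_nonneg_right ?_ hn.le
          refine Real.logb_le_logb_of_le one_lt_two (by positivity) ?_
          refine mul_le_mul_of_nonneg_right ?_ hdθ.le
          linarith
        linarith
      have c3 : P1 k * (θ - ζ') ≤ P1 k * (Real.logb 2 (1 / (2 * C1 * S.dl θ k)) / (S.F k).n) :=
        mul_le_mul_of_nonneg_left c2 (hP10 k)
      have c4 : P1 k * (Real.logb 2 (1 / (2 * C1 * S.dl θ k)) / (S.F k).n) ≤
          ((N + 1) * Real.logb 2 (4 * K0 k / S.dl e k) - (S.F k).e (Y0.1 k) (B0.1 k ⊓ (S.F k).Z) + 1) / (S.F k).n := by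
        rw [← mul_div_assoc]
        exact div_le_div_of_nonneg_right c1 hn.le
      have e5 : ((N + 1) * Real.logb 2 (4 * K0 k / S.dl e k) - (S.F k).e (Y0.1 k) (B0.1 k ⊓ (S.F k).Z) + 1) / (S.F k).n =
          (N + 1) * (Real.logb 2 (4 * K0 k / S.dl e k) / (S.F k).n) - S.rt Y0.1 B0.1 k + 1 / (S.F k).n := by
        unfold Sp.rt
        ring
      rw [e5] at c4
      have c6 : (N + 1) * (Real.logb 2 (4 * K0 k / S.dl e k) / (S.F k).n) ≤ (N + 1) * (e + ζ') :=
        mul_le_mul_of_nonneg_left b6 (by linarith)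
      linarith
    have a2 : ul P1 * (θ - ζ') ≤ (N + 1) * (e + ζ') - ul (S.rt Y0.1 B0.1) + ζ' := by
      have u1 : UB (fun k => P1 k * (θ - ζ') + S.rt Y0.1 B0.1 k) := by
        have := (hP1U.const_mul (θ - ζ')).add (Sp.UB_rt Y0 B0.1)
        refine UB.sandwich this this (Eventually.of_forall fun k => ?_) (Eventually.of_forall fun k => ?_)
        · show (θ - ζ') * P1 k + _ ≤ _
          rw [mul_comm]
        · show _ ≤ (θ - ζ') * P1 k + _
          rw [mul_comm]
      have u2 := ul_le_const u1 (c := (N + 1) * (e + ζ') + ζ') (a1.mono fun k hk => by linarith)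
      have u3 : ul (fun k => P1 k * (θ - ζ') + S.rt Y0.1 B0.1 k) = ul P1 * (θ - ζ') + ul (S.rt Y0.1 B0.1) := by
        have := ul_add (hP1U.const_mul (θ - ζ')) (Sp.UB_rt Y0 B0.1)
        rw [ul_const_mul (θ - ζ') hP1U] at this
        rw [← mul_comm (θ - ζ') (ul P1), ← this]
        exact ul_congr (Eventually.of_forall fun k => by ring)
      rw [u3] at u2
      linarith
    rw [hYA] at h3
    have a3 : ul P1 ≤ 1 := ul_le_const hP1U (Eventually.of_forall hP11)
    have e1 : ζ' * (N + 4) = ζ := by rw [hζ']; field_simp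
    nlinarith
  have hp1' : ul P1 ≤ d / θ := by rwa [le_div_iff₀ hθ]
  -- (2) the level sets
  have hp2 : h (y.dg e) (TR.dg (pe c (TR.cor y)) e ⊔ Sp.cl A0) ≤ N * e + δ + D * θ + (N + 1) * e * ul P1 := by
    rw [hYPA]
    refine le_of_forall_pos_le_add fun ζ hζ => ?_
    set ζ' : ℝ := ζ / (2 * N + (N + 1) * e + 5) with hζ'
    have hζp : 0 < ζ' := by positivity
    set Nn : ℕ → ℝ := fun k => C2 * ((K0 k / S.dl e k) ^ N * (1 + (C2 * K0 k ^ D + 1) / (ε k / 2))) with hNn
    have exN : Ex S Nn (N * e + δ + D * θ) := by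
      have g1 : Ex S (fun k => K0 k / S.dl e k) e := by
        refine (exK.mul (Ex_dl_inv e) hK0nn (Eventually.of_forall fun k => inv_nonneg.mpr (S.dl_pos e k).le)).mono
          (Eventually.of_forall fun k => by rw [div_eq_mul_inv]) (by linarith)
      have g1nn : ∀ᶠ k in UF, 0 ≤ K0 k / S.dl e k := hK0nn.mono fun k hk => div_nonneg hk (S.dl_pos e k).le
      have g2 := g1.pow g1nn N
      have g3 : Ex S (fun k => (C2 * K0 k ^ D + 1) / (ε k / 2)) (δ + D * θ) := by
        have i1 := ((Ex_const (S := S) C2).mul (exKD D) (Eventually.of_forall fun _ => by positivity)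
          (hK0nn.mono fun k hk => pow_nonneg hk D))
        rw [zero_add] at i1
        have i2 := (i1.add (Ex_const 1)).mul ((Ex_const (S := S) 2).mul exε (Eventually.of_forall fun _ => by norm_num)
          (hεpos.mono fun k hk => (inv_pos.mpr hk).le)) (hK0nn.mono fun k hk => by positivity)
          (hεpos.mono fun k hk => by positivity)
        refine i2.mono (hεpos.mono fun k hk => le_of_eq ?_) (by linarith)
        field_simp
      have g4 : Ex S (fun k => 1 + (C2 * K0 k ^ D + 1) / (ε k / 2)) (δ + D * θ) := by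
        refine Ex.add ?_ g3
        exact (Ex_const 1).mono (Eventually.of_forall fun _ => le_rfl) (by positivity)
      have g4nn : ∀ᶠ k in UF, 0 ≤ 1 + (C2 * K0 k ^ D + 1) / (ε k / 2) := by
        filter_upwards [hK0nn, hεpos] with k hk1 hk2
        positivity
      have g2nn := g1nn.mono fun k hk => pow_nonneg hk N
      have g5 := (Ex_const (S := S) C2).mul (g2.mul g4 g2nn g4nn) (Eventually.of_forall fun _ => by positivity)
        (by filter_upwards [g2nn, g4nn] with k a b using mul_nonneg a b)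
      exact g5.mono (Eventually.of_forall fun k => le_rfl) (by linarith)
    have posN : ∀ᶠ k in UF, 0 < Nn k := by
      filter_upwards [hK01, hεpos] with k hk1 hk2
      have := S.dl_pos e k
      have : 0 < K0 k := by linarith
      show 0 < C2 * ((K0 k / S.dl e k) ^ N * (1 + (C2 * K0 k ^ D + 1) / (ε k / 2)))
      positivity
    have hPG : Tendsto (fun k => mass (res (S.F k).μ (fun ω => ¬ G k ω))) UF (𝓝 0) := h2
    have a1 : ∀ᶠ k in UF, S.rt Y0.1 (Sp.Inf.sup P0 B0).1 k ≤
        (N * e + δ + D * θ + ζ') + (N + 1) * (e + ζ') * (P1 k + ζ') + ζ' := by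
      filter_upwards [hεpos, hK01, small, hyK, exC.logb posC hζp, inv_n S hζp, exN.logb posN hζp,
        hPG.eventually (gt_mem_nhds hζp)] with k b1 b2 b3 b5 b6 b7 b8 b9
      have hn := (S.F k).pos
      have hK0k : 0 < K0 k := by linarith
      have hde := S.dl_pos e k
      have b3' : (C2 * K0 k ^ ((N + 1) * D + D) + (C2 * K0 k ^ D + 1)) * S.dl e k ≤ ε k / 2 := by
        refine le_trans (mul_le_mul_of_nonneg_right ?_ hde.le) b3
        have e1 : C2 * K0 k ^ ((N + 1) * D + D) ≤ C * K0 k ^ ((N + 1) * D + D) :=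
          mul_le_mul_of_nonneg_right (by linarith) (by positivity)
        have e2 : C2 * K0 k ^ D ≤ C * K0 k ^ D := mul_le_mul_of_nonneg_right (by linarith) (by positivity)
        linarith
      have q1 : 0 ≤ C2 * K0 k ^ ((N + 1) * D + D) * S.dl e k := by positivity
      have q2 : 0 ≤ (C2 * K0 k ^ D + 1) * S.dl e k := by positivity
      rw [add_mul] at b3'
      have c1 := f2 (S.F k) ((Sp.Inf.sup P0 B0).1 k ⊓ (S.F k).Z) (y.v k) (fun ω a => TR.ev (c a) k ω)
        (fun ω => ¬ G k ω ∨ Em k ω) (K0 k) (S.dl e k) (ε k / 2) b2 hde (hdl1 e he.le k) (by linarith)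
        (by linarith) (by linarith) b5
        (fun ω ω' _ _ hB a => hAc k ω ω' ⟨hB.1.2, hB.2⟩ a)
        (fun ω ω' _ _ hB => by
          have hp : (TR.vec (fun _ : Fin 1 => pe c (TR.cor y))).cellv e k ω =
            (TR.vec (fun _ : Fin 1 => pe c (TR.cor y))).cellv e k ω' := hB.1.1
          have := (TR.vec (fun _ : Fin 1 => pe c (TR.cor y))).cellv_close e k ω ω' hp 0
          have e1 : ∀ ω, (TR.vec (fun _ : Fin 1 => pe c (TR.cor y))).v k ω 0 =
            MvPolynomial.eval (y.v k ω) (pol fun a => TR.ev (c a) k ω) := fun ω => ev_pe c (TR.cor y) k ω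
          rwa [e1, e1] at this)
        (fun ω _ hω => by
          push Not at hω
          obtain ⟨_, hE⟩ := hω
          by_contra hcon
          push Not at hcon
          apply hE
          intro i
          have := hcon i
          linarith)
      have c2 : mass (res (S.F k).μ (fun ω => ¬ G k ω ∨ Em k ω)) ≤ P1 k + ζ' := by
        have := mass_or (S.F k) (G k) (Em k)
        have e9 : mass (res (S.F k).μ (fun ω => ¬ G k ω)) < ζ' := b9
        have : mass (res (S.F k).μ (fun ω => G k ω ∧ Em k ω)) = P1 k := rfl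
        linarith
      have e5 : S.rt Y0.1 (Sp.Inf.sup P0 B0).1 k ≤ Real.logb 2 (Nn k) / (S.F k).n +
          (N + 1) * (Real.logb 2 (4 * K0 k / S.dl e k) / (S.F k).n) *
            mass (res (S.F k).μ (fun ω => ¬ G k ω ∨ Em k ω)) + 1 / (S.F k).n := by
        have e6 := div_le_div_of_nonneg_right c1 hn.le
        refine le_trans (le_of_eq rfl) (e6.trans (le_of_eq ?_))
        rw [hNn]
        ring
      refine e5.trans ?_
      have e7 : (N + 1) * (Real.logb 2 (4 * K0 k / S.dl e k) / (S.F k).n) *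
          mass (res (S.F k).μ (fun ω => ¬ G k ω ∨ Em k ω)) ≤ (N + 1) * (e + ζ') * (P1 k + ζ') := by
        have m0 : 0 ≤ mass (res (S.F k).μ (fun ω => ¬ G k ω ∨ Em k ω)) := Sp.mass_res_nonneg k _
        refine mul_le_mul (mul_le_mul_of_nonneg_left b6 (by linarith)) c2 m0 (by positivity)
      linarith
    have a2 : ul (S.rt Y0.1 (Sp.Inf.sup P0 B0).1) ≤
        (N * e + δ + D * θ + ζ') + (N + 1) * (e + ζ') * (ul P1 + ζ') + ζ' := by
      have u1 : UB (fun k => (N * e + δ + D * θ + ζ' + (N + 1) * (e + ζ') * ζ' + ζ') + ((N + 1) * (e + ζ')) * P1 k) :=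
        (UB_const _).add (hP1U.const_mul _)
      have u2 := ul_mono (Sp.UB_rt Y0 (Sp.Inf.sup P0 B0).1) u1 (a1.mono fun k hk => by linarith)
      rw [ul_add (UB_const _) (hP1U.const_mul _), ul_const, ul_const_mul _ hP1U] at u2
      linarith
    have a3 : ul P1 ≤ 1 := ul_le_const hP1U (Eventually.of_forall hP11)
    have a30 : 0 ≤ ul P1 := const_le_ul hP1U (Eventually.of_forall hP10)
    by_cases hζ1 : ζ' ≤ 1
    · have e1 : ζ' * (2 * N + (N + 1) * e + 5) = ζ := by rw [hζ']; field_simp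
      have q1 : ζ' * ζ' ≤ ζ' := by nlinarith
      have q2 : ul P1 * ζ' ≤ ζ' := by nlinarith
      have q3 : (N + 1) * (e + ζ') * (ul P1 + ζ') = (N + 1) * e * ul P1 + (N + 1) * (e * ζ' + ul P1 * ζ' + ζ' * ζ') := by
        ring
      have q4 : (N + 1) * (e * ζ' + ul P1 * ζ' + ζ' * ζ') ≤ (N + 1) * (e * ζ' + ζ' + ζ') :=
        mul_le_mul_of_nonneg_left (by linarith) (by linarith)
      have q5 : ζ' * (2 * N + (N + 1) * e + 5) = (N + 1) * (e * ζ' + ζ' + ζ') + 3 * ζ' := by ring
      linarith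
    · -- not needed: ζ large
      push Not at hζ1
      have hb : ul (S.rt Y0.1 (Sp.Inf.sup P0 B0).1) ≤ (N + 1) * e := by
        rw [← hYPA]
        have := (h_le_H (y.dg e) (TR.dg (pe c (TR.cor y)) e ⊔ Sp.cl A0)).trans (y.H_dg_le he.le)
        push_cast at this
        exact this
      have e1 : ζ' * (2 * N + (N + 1) * e + 5) = ζ := by rw [hζ']; field_simp
      have e2 : (N + 1) * e ≤ ζ := by
        rw [← e1]
        have : 0 ≤ (N + 1) * e := by positivity
        nlinarith
      have e3 : 0 ≤ N * e + δ + D * θ + (N + 1) * e * ul P1 := by positivity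
      linarith
  -- (3) conclusion
  have h5 : h (y.dg e) (Sp.cl A0) ≤ h (TR.dg (pe c (TR.cor y)) e) (Sp.cl A0) +
      h (y.dg e) (TR.dg (pe c (TR.cor y)) e ⊔ Sp.cl A0) := by
    have := h_triangle (y.dg e) (TR.dg (pe c (TR.cor y)) e) (Sp.cl A0)
    linarith
  have h6 : (N + 1) * e * ul P1 ≤ (N + 1) * e * (d / θ) := mul_le_mul_of_nonneg_left hp1' (by positivity)
  linarith

end

end Pool.Agent.Helper97.SL
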