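import Pool.Agent.Helper97.SL.Fs
import Pool.Agent.Helper79.LH.Cop
import Pool.Agent.Helper82.TP.Sheet
import Pool.Agent.Helper31.NSB.St

/-! NO SLOW SHEETS, exact part (row `B_NSH`): a slow sheet label (known to the line in rates, blind for the base, with a
polynomial sheet) gives a literal function of the point, a polynomial sheet, which agrees on an event with a literal
function of the line. Steps: SSL at the own point; the count at a fresh point; `fresh_sheet`. -/

set_option autoImplicit false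

namespace Pool.Agent.Helper97.SL

open Finset Filter Topology
open Pool.Agent.Helper3.LF Pool.Agent.Helper69.RK Pool.Agent.Helper31.EC Pool.Agent.Helper25.EC
open Pool.Agent.Helper82.TP

noncomputable section

open QS

variable {S : Sp}

theorem dg_eval_le' {n : ℕ} (x : Fin n → QS S) (f : MvPolynomial (Fin n) (QS S)) {r : ℝ} (hr : r ≤ 1) (A : S.L)
    (hf : ∀ m, dg (f.coeff m) r ≤ A) (hx : ∀ i, dg (x i) r ≤ A) : dg (MvPolynomial.eval x f) r ≤ A := by
  show MvPolynomial.eval x f ∈ Kn S r hr A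
  rw [MvPolynomial.eval_eq']
  exact sum_mem fun m _ => mul_mem (hf m) (prod_mem fun i _ => pow_mem (hx i) _)

/-- a sheet known to the line which contains the point contains a fresh point -/
theorem line_fresh {W T : Sp} (q1 : Pj T W) (q2 : Pj T S) (p : Pj W S) {n : ℕ} (t : QS S) (a x : Fin n → QS S)
    (az v : QS S) (ha : ∀ i, q1.qs (p.qs (a i)) = q2.qs (a i)) (hx : ∀ i, q1.qs (p.qs (x i)) = q2.qs (x i))
    (haz : q1.qs (p.qs az) = q2.qs az) (hv : q1.qs (p.qs v) = q2.qs v) (A : W.L)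
    (hA : ∀ i, dg (p.qs (a i)) 1 ≤ A) (hA' : ∀ i, dg (p.qs (x i)) 1 ≤ A) (hAz : dg (p.qs az) 1 ≤ A)
    (hAv : dg (p.qs v) 1 ≤ A) (f : MvPolynomial (Fin n) (QS W)) (hf : f ∈ PK A) (ht : h (dg (p.qs t) 1) A = 1)
    {g : ℝ} (hg : g ≤ 1)
    (hz : p.qs (az + t * v) - MvPolynomial.eval (fun i => p.qs (a i + t * x i)) f ∈ Id W g) :
    q2.qs (az + t * v) - MvPolynomial.eval (fun i => q2.qs (a i + t * x i)) (MvPolynomial.map q1.qs f) ∈ Id T g := by
  obtain ⟨G, hG⟩ : ∃ G : Polynomial (QS W), G = Polynomial.C (p.qs az) + Polynomial.X * Polynomial.C (p.qs v) -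
    Pool.Agent.Helper79.LH.lin (RingHom.id _) (fun i => p.qs (a i)) (fun i => p.qs (x i)) f := ⟨_, rfl⟩
  have hGc : ∀ m, dg (G.coeff m) 1 ≤ A := by
    intro m
    have h1 := Pool.Agent.Helper79.LH.lin_coeff hA hA' hf m
    have h2 : dg ((Polynomial.C (p.qs az) : Polynomial (QS W)).coeff m) 1 ≤ A := by
      rw [Polynomial.coeff_C]
      split_ifs
      · exact hAz
      · show (0 : QS W) ∈ Kn W 1 le_rfl A
        exact zero_mem _
    have h3 : dg ((Polynomial.X * Polynomial.C (p.qs v) : Polynomial (QS W)).coeff m) 1 ≤ A := by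
      show _ ∈ Kn W 1 le_rfl A
      rw [mul_comm, Polynomial.coeff_C_mul, Polynomial.coeff_X]
      split_ifs
      · rw [mul_one]
        exact hAv
      · rw [mul_zero]
        exact zero_mem _
    rw [hG, Polynomial.coeff_sub, Polynomial.coeff_add]
    exact dg_sub_le' _ _ le_rfl (dg_add_le' _ _ le_rfl h2 h3) h1
  have hev : ∀ s : QS W, G.eval s = p.qs az + s * p.qs v -
      MvPolynomial.eval (fun i => p.qs (a i) + s * p.qs (x i)) f := by
    intro s
    rw [hG, Polynomial.eval_sub, Polynomial.eval_add, Polynomial.eval_mul, Polynomial.eval_C, Polynomial.eval_C,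
      Polynomial.eval_X, Pool.Agent.Helper79.LH.eval_lin]
    rfl
  have h0 : QS.pe (k := G.natDegree) (fun m => G.coeff m) (p.qs t) ∈ Id W g := by
    have e1 : QS.pe (k := G.natDegree) (fun m => G.coeff m) (p.qs t) = G.eval (p.qs t) := by
      rw [Polynomial.eval_eq_sum_range]
      unfold QS.pe
      rw [Fin.sum_univ_eq_sum_range fun m => G.coeff m * (p.qs t) ^ m]
    rw [e1, hev]
    refine Eq.subst (motive := fun z => z ∈ Id W g) ?_ hz
    have e2 : (fun i => p.qs (a i + t * x i)) = fun i => p.qs (a i) + p.qs t * p.qs (x i) := by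
      funext i
      rw [map_add, map_mul]
    rw [map_add, map_mul, e2]
  have hco : ∀ m, G.coeff m ∈ Id W g := by
    intro m
    rcases Nat.lt_or_ge G.natDegree m with h3 | h3
    · rw [Polynomial.coeff_eq_zero_of_natDegree_lt h3]
      exact (Id W g).zero_mem
    · refine real_zero (fun m : Fin (G.natDegree + 1) => G.coeff m) (p.qs t) ?_ hg h0 ⟨m, Nat.lt_succ_of_le h3⟩
      refine le_antisymm (h_dg_le_one _ _) (ht.ge.trans ?_)
      apply h_anti
      rw [vd_le]
      exact fun i => hGc i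
  have h2 : (G.map q1.qs).eval (q2.qs t) ∈ Id T g := by
    rw [Polynomial.eval_eq_sum_range]
    refine (Id T g).sum_mem fun m _ => (Id T g).mul_mem_right _ ?_
    rw [Polynomial.coeff_map]
    exact (q1.qs_mem_Id hg).mpr (hco m)
  refine Eq.subst (motive := fun z => z ∈ Id T g) ?_ h2
  rw [hG, Polynomial.map_sub, Polynomial.map_add, Polynomial.map_mul, Polynomial.map_C, Polynomial.map_C,
    Polynomial.map_X, Pool.Agent.Helper79.LH.lin_map, Polynomial.eval_sub, Polynomial.eval_add, Polynomial.eval_mul,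
    Polynomial.eval_C, Polynomial.eval_C, Polynomial.eval_X, Pool.Agent.Helper79.LH.eval_lin, haz, hv, map_add,
    map_mul, MvPolynomial.eval_map]
  congr 1
  have e1 : (fun k => q1.qs (p.qs (a k)) + q2.qs t * q1.qs (p.qs (x k))) = fun i => q2.qs (a i + t * x i) := by
    funext i
    rw [ha i, hx i, map_add, map_mul]
  rw [e1]
  rfl

/-- THE COUNT: information which is known to the point, blind for the base at its own point and which determines the
top coordinate of a fresh point over the base of the fresh point, is blind for the base of the fresh point -/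
theorem count_blind {W T : Sp} (q1 : Pj T W) (q2 : Pj T S) (p : Pj W S) (X : W.L) (M Z : S.L)
    (hX : X ≤ p.map (M ⊔ Z)) (hI : I X (p.map M) ⊥ = 0) (hz : q2.map Z ≤ q1.map X ⊔ q2.map M) :
    I (q1.map X) (q2.map M) ⊥ = 0 := by
  apply le_antisymm _ (I_nonneg _ _ _)
  -- the entropy of `X`
  have h1 : H X ≤ H (M ⊔ Z) - H M := by
    have e1 : H (p.map (M ⊔ Z)) = H X + h (p.map (M ⊔ Z)) X := by
      rw [← H_chain, sup_eq_right.mpr hX]
    have e2 : h (p.map M) X ≤ h (p.map (M ⊔ Z)) X := h_mono (p.map_mono le_sup_left)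
    have e3 : h (p.map M) X = H M := by
      have h3 := I_zero_iff_h'.mp hI
      rw [sup_bot_eq, h_bot, p.H_map] at h3
      exact h3
    rw [p.H_map] at e1
    linarith
  have h2 : H (M ⊔ Z) ≤ H (q1.map X ⊔ q2.map M) := by
    rw [← q2.H_map]
    apply H_mono
    rw [Pj.map_sup]
    exact sup_le le_sup_right hz
  have h3 : I (q1.map X) (q2.map M) ⊥ = H X + H M - H (q1.map X ⊔ q2.map M) := by
    unfold I
    rw [sup_bot_eq, sup_bot_eq, sup_bot_eq, H_bot, q1.H_map, q2.H_map]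
    ring
  rw [h3]
  linarith

/-- literal functions of the common variable are common -/
theorem lit_common {W : Sp} (p : Pj W S) {α : ℕ → Type} (V : ∀ k, (S.F k).Ω → α k) {f : QS S} (hf : Lit V f) :
    (p.join V).p1.qs (p.qs f) = (p.join V).p2.qs f := by
  obtain ⟨g, rfl, hg⟩ := hf
  rw [Pj.qs_mk, Pj.qs_mk, Pj.qs_mk, ← sub_eq_zero, ← mem_Id_one, mk_sub_mem le_rfl]
  refine ag_of_close ?_
  filter_upwards [hg] with k hk w hw
  have h1 := Pj.join_supp p V k w hw
  obtain ⟨h2, h3, h4⟩ := (p.join V).supp k w hw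
  have h5 : (V k (p.π k w.1), Quotient.mk (S.F k).Z (p.π k w.1)) = (V k w.2, Quotient.mk (S.F k).Z w.2) := h2
  rw [Prod.mk.injEq] at h5
  have h6 : (S.F k).Z (p.π k w.1) w.2 := Quotient.exact h5.2
  have h7 : TR.ev g k (p.π k w.1) = TR.ev g k w.2 := hk _ _ (p.supp k w.1 h3) h4 h6 h1
  have h8 : TR.ev ((p.join V).p1.tr (p.tr g)) k w - TR.ev ((p.join V).p2.tr g) k w =
    TR.ev g k (p.π k w.1) - TR.ev g k w.2 := rfl
  rw [h8, h7, sub_self, abs_zero]
  exact (Sp.dl_pos _ 1 k).le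

/-- THE FRESH FORM: a slow sheet label is, at a fresh point, blind for the base and its sheet contains the fresh
point -/
theorem slow_fresh {N : ℕ} {α : ℕ → Type} (VA : ∀ k, (S.F k).Ω → α k) (hbA : Sp.Bdd VA) (t : QS S)
    (ht : h (dg t 1) (Sp.io VA) = 1) (a x : Fin (N + 1) → QS S) (az v : QS S) (ha : ∀ i, Lit VA (a i))
    (hx : ∀ i, Lit VA (x i)) (haz : Lit VA az) (hv : Lit VA v) {y : Fin (N + 1) → QS S} {z : QS S}
    (hy : ∀ i, y i = a i + t * x i) (hz : z = az + t * v) {W : Sp} (p : Pj W S) (V : W.L)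
    (f : MvPolynomial (Fin (N + 1)) (QS W)) (L g ρ : ℝ) (hL : 0 ≤ L) (hg0 : L < g) (hg : g ≤ 1) (hρ : 0 < ρ)
    (hV : f ∈ PK V) (hVL : V ≤ p.map (Sp.io VA)) (hVB : I V (p.map (vd y g)) ⊥ = 0)
    (hsh : p.qs z - MvPolynomial.eval (fun i => p.qs (y i)) f ∈ Id W g) (hfull : (N + 1) * g ≤ H (vd y g))
    (hU : ∀ (T : Sp) (q : Pj T S) (E : ∀ k, (T.F k).Ω → Prop) (hE : 0 < ul (T.pr E)) (a b : ℝ), L ≤ a → a ≤ b →
      b ≤ g → h (Sp.restL E hE (q.map (dg z b))) (Sp.restL E hE (q.map (dg z a ⊔ vd y g))) ≤ (1 - ρ) * (b - a)) :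
    I ((p.join VA).p1.map (vd (fun m : f.support => f.coeff m.1) g)) ((p.join VA).p2.map (vd y g)) ⊥ = 0 ∧
      (p.join VA).p2.qs z - MvPolynomial.eval (fun i => (p.join VA).p2.qs (y i))
        (MvPolynomial.map (p.join VA).p1.qs f) ∈ Id (p.join VA).sp g := by
  set q1 := (p.join VA).p1 with hq1
  set q2 := (p.join VA).p2 with hq2
  have hlA : ∀ {u : QS S}, Lit VA u → dg (p.qs u) 1 ≤ p.map (Sp.io VA) := by
    intro u hu
    rw [p.qs_dg]
    exact p.map_mono (hu.dg_le hbA le_rfl)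
  -- the sheet contains the fresh point
  have hfr : q2.qs z - MvPolynomial.eval (fun i => q2.qs (y i)) (MvPolynomial.map q1.qs f) ∈ Id (p.join VA).sp g := by
    have h1 := line_fresh q1 q2 p t a x az v (fun i => lit_common p VA (ha i)) (fun i => lit_common p VA (hx i))
      (lit_common p VA haz) (lit_common p VA hv) (p.map (Sp.io VA)) (fun i => hlA (ha i)) (fun i => hlA (hx i))
      (hlA haz) (hlA hv) f (PK_mono hVL hV) (by rw [p.qs_dg, p.h_map]; exact ht) hg
      (by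
        rw [hz] at hsh
        have e : (fun i => p.qs (y i)) = fun i => p.qs (a i + t * x i) := by
          funext i
          rw [hy i]
        rw [e] at hsh
        exact hsh)
    rw [hz]
    have e : (fun i => q2.qs (y i)) = fun i => q2.qs (a i + t * x i) := by
      funext i
      rw [hy i]
    rw [e]
    exact h1
  refine ⟨?_, hfr⟩
  -- SSL at the own point
  have hyW : vd (fun i => p.qs (y i)) g = p.map (vd y g) := vd_qs p y g
  have hssl := ssl_q_known (fun i => p.qs (y i)) (p.qs z) f V (p.map (vd y g)) L g ρ hρ hL hg0 hg hyW.le hsh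
    (by rw [hyW, p.H_map]; exact hfull) (fun m => (dg_mono _ hg).trans (hV m)) hVB
    (fun T q E hE b c h1 h2 h3 => by
      have h4 := hU T (q.comp p) E hE b c h1 h2 h3
      rw [Pj.comp_map, Pj.comp_map] at h4
      rw [p.qs_dg, p.qs_dg, ← Pj.map_sup]
      exact h4)
  have hXB : vd (fun m : f.support => f.coeff m.1) g ≤ p.map (vd y g ⊔ dg z g) := by
    rw [vd_le]
    intro m
    refine (hssl m.1).trans ?_
    rw [hyW, p.qs_dg, ← Pj.map_sup]
  have hXV : vd (fun m : f.support => f.coeff m.1) g ≤ V := by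
    rw [vd_le]
    intro m
    exact (dg_mono _ hg).trans (hV m.1)
  apply count_blind q1 q2 p _ _ (dg z g) hXB
  · exact le_antisymm ((I_mono_left (hXV.trans le_sup_left)).trans hVB.le) (I_nonneg _ _ _)
  · rw [← q2.qs_dg]
    have h2 := dg_eq_of_sub_mem hfr le_rfl hg
    rw [h2]
    apply dg_eval_le' _ _ hg
    · intro m
      rw [MvPolynomial.coeff_map]
      by_cases hm : m ∈ f.support
      · rw [q1.qs_dg]
        refine le_trans (q1.map_mono ?_) le_sup_left
        exact dg_le_vd (fun m : f.support => f.coeff m.1) g ⟨m, hm⟩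
      · rw [MvPolynomial.notMem_support_iff.mp hm, map_zero]
        show (0 : QS (p.join VA).sp) ∈ Kn (p.join VA).sp g hg _
        exact zero_mem _
    · intro i
      rw [q2.qs_dg]
      exact le_trans (q2.map_mono (dg_le_vd y g i)) le_sup_right

theorem typ_ul_zero (E : ∀ k, (S.F k).Ω → Prop) (hE : Sp.Typ E) (B : ∀ k, (S.F k).Ω → Prop)
    (h : ∀ᶠ k in UF, ∀ ω, (S.F k).μ ω ≠ 0 → B k ω → ¬ E k ω) : ul (S.pr B) ≤ 0 := by
  have h1 : ul (S.pr (fun k ω => ¬ E k ω)) = 0 := by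
    have h2 := Sp.ul_pr_compl (S := S) E
    rw [Sp.ul_pr_typ E hE] at h2
    rw [h2]
    ring
  rw [← h1]
  refine ul_mono (Sp.UB_pr _) (Sp.UB_pr _) ?_
  filter_upwards [h] with k hk
  exact FSp.pb_mono _ hk

theorem h_dg_levels {m : ℕ} (y : S.VV m) {r s : ℝ} (h : r ≤ s) : H (y.dg s) ≤ H (y.dg r) + m * (s - r) := by
  have h1 := y.h_dg_dg h
  have h2 := H_chain (y.dg r) (y.dg s)
  rw [sup_eq_right.mpr (y.dg_mono h)] at h2
  linarith

/-- FRESH SHEETS GIVE LITERAL AGREEMENT. `VA` is the literal line variable, `VB` a variable of which the base `y` and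
the top coordinate `z` are literal functions; `V` is a label of an extension whose sheet `f` (of degree `D`) contains a
fresh point of the line up to level `g` and which is blind for the base of the fresh point. Then on an event there are
tame coefficients of a polynomial sheet of `z` which are literal functions of the point and agree with literal
functions of the line. -/
theorem fresh_lit {N D : ℕ} {α β : ℕ → Type} (VA : ∀ k, (S.F k).Ω → α k) (VB : ∀ k, (S.F k).Ω → β k)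
    {y : Fin (N + 1) → QS S} {z : QS S} (hyB : ∀ i, Lit VB (y i)) (hzB : Lit VB z) {W : Sp}
    (p : Pj W S) (V : W.L) (f : MvPolynomial (Fin (N + 1)) (QS W)) (L g ρ R : ℝ) (hL : 0 ≤ L) (hR : 0 < R)
    (hLR : L + R ≤ g) (hg : g ≤ 1) (hρ : 0 < ρ) (hV : ∀ m, dg (f.coeff m) g ≤ V) (hfD : f.totalDegree ≤ D)
    (hbl : I ((p.join VA).p1.map V) ((p.join VA).p2.map (vd y g)) ⊥ = 0)
    (hfr : (p.join VA).p2.qs z - MvPolynomial.eval (fun i => (p.join VA).p2.qs (y i))
      (MvPolynomial.map (p.join VA).p1.qs f) ∈ Id (p.join VA).sp g) (hfull : (N + 1) * g ≤ H (vd y g))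
    (hU : ∀ (T : Sp) (q : Pj T S) (E : ∀ k, (T.F k).Ω → Prop) (hE : 0 < ul (T.pr E)) (a b : ℝ), L ≤ a → a ≤ b →
      b ≤ g → h (Sp.restL E hE (q.map (dg z b))) (Sp.restL E hE (q.map (dg z a ⊔ vd y g))) ≤ (1 - ρ) * (b - a)) :
    ∃ (E : ∀ k, (S.F k).Ω → Prop) (hE : 0 < ul (S.pr E)) (cA cB : Mon (N + 1) D → QS S),
      (∀ i, Lit VA (cA i)) ∧ (∀ i, Lit VB (cB i)) ∧ (∀ i, QS.rest E hE (cA i - cB i) ∈ Id (S.rest E) (g - R)) ∧
      QS.rest E hE (z - ∑ i, cB i * ∏ j, y j ^ ((i.1 j : ℕ))) ∈ Id (S.rest E) (g - R) := by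
  classical
  choose gy hgy1 hgy2 using hyB
  obtain ⟨gz, hgz1, hgz2⟩ := hzB
  obtain ⟨q1, hq1⟩ : ∃ q1 : Pj (p.join VA).sp W, q1 = (p.join VA).p1 := ⟨_, rfl⟩
  obtain ⟨q2, hq2⟩ : ∃ q2 : Pj (p.join VA).sp S, q2 = (p.join VA).p2 := ⟨_, rfl⟩
  rw [← hq1, ← hq2] at hbl hfr
  obtain ⟨yv, hyv⟩ : ∃ yv : S.VV (N + 1), yv = TR.vec gy := ⟨_, rfl⟩
  have hcor : ∀ i, TR.cor yv i = gy i := fun i => by rw [hyv]; rfl
  have hydg : ∀ r : ℝ, r ≤ 1 → yv.dg r = vd y r := by
    intro r hr
    rw [hyv, TR.vec_dg_eq]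
    unfold vd
    congr 1
    funext i
    rw [← hgy1 i, dg_mk _ hr]
  obtain ⟨C, hC, hmain⟩ := fresh_sheet N D (min ρ 1) (lt_min hρ one_pos) (min_le_right _ _)
  set g' := g - R / 2 with hg'
  have hg'1 : g' ≤ 1 := by linarith
  have hcvX : (cv (cf D f)).dg g ≤ V := cv_cf_dg_le f hg V hV
  -- the sheet at the fresh point
  have hmap : (MvPolynomial.map q1.qs f).totalDegree ≤ D := (totalDegree_map_le _ _).trans hfD
  have hFag : TR.Ag g (q2.tr gz) (pe (fun i => q1.tr (cf D f i)) (TR.cor (q2.vv yv))) := by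
    rw [← mk_sub_mem hg, ← Pj.qs_mk, hgz1]
    have e1 : QS.mk (pe (fun i => q1.tr (cf D f i)) (TR.cor (q2.vv yv))) =
        MvPolynomial.eval (fun i => q2.qs (y i)) (MvPolynomial.map q1.qs f) := by
      rw [mk_pe, eval_tf _ hmap]
      refine Finset.sum_congr rfl fun i _ => ?_
      rw [MvPolynomial.coeff_map, ← Pj.qs_mk]
      unfold cf
      rw [QS.mk_rep]
      congr 1
      refine Finset.prod_congr rfl fun j _ => ?_
      have e2 : TR.cor (q2.vv yv) j = q2.tr (TR.cor yv j) := rfl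
      rw [e2, hcor, ← Pj.qs_mk, hgy1]
    rw [e1]
    exact hfr
  have hMC : 0 ≤ C * (g' / (R / 2)) ^ pw N D := by
    have : 0 ≤ g' / (R / 2) := div_nonneg (by linarith) (by linarith)
    positivity
  obtain ⟨pp, hpp, hpp4⟩ : ∃ pp : ℝ, 0 < pp ∧ C * (g' / (R / 2)) ^ pw N D * pp ≤ 1 / 4 := by
    refine ⟨1 / (4 * (C * (g' / (R / 2)) ^ pw N D + 1)), by positivity, ?_⟩
    rw [mul_one_div, div_le_div_iff₀ (by positivity) (by norm_num)]
    linarith
  have hlev := hFag.levels (δ := R / 2) (by linarith)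
  obtain ⟨gA, gB, hgA, hgB, hc1, K, hK, hc2⟩ := hmain S yv gz (yv.dg g) VA W p (cf D f) L g' (R / 2) pp 0 0 0
    (by linarith) hL (by linarith) hpp le_rfl (by rw [mul_zero]; positivity) (by rw [mul_zero]; linarith)
    (by rw [zero_mul, mul_zero]; positivity) hpp.le (yv.dg_mono (by linarith))
    (by
      have h1 := h_dg_levels yv (show g' ≤ g by linarith)
      rw [hydg g hg] at h1
      push_cast at h1
      rw [sub_zero]
      nlinarith)
    (by
      rw [← hq1, ← hq2]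
      refine le_trans (I_mono (B' := q2.map (vd y g)) ?_ ?_) hbl.le
      · rw [sup_bot_eq]
        exact q1.map_mono (((cv (cf D f)).dg_mono (by linarith)).trans hcvX)
      · rw [sup_bot_eq, hydg g hg])
    (by
      intro T π E hE _ r s h3 h4 h5
      have h6 := hU T π E hE r s h3 h4 (by linarith)
      rw [Pj.map_sup, Sp.restL_sup, sup_comm, ← hgz1, dg_mk _ (by linarith), dg_mk _ (by linarith),
        ← hydg g hg] at h6
      rw [add_zero]
      refine h6.trans ?_
      exact mul_le_mul_of_nonneg_right (by linarith [min_le_left ρ 1]) (by linarith))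
    (by
      refine typ_ul_zero _ hlev _ (Eventually.of_forall fun k w hw hn hcl => ?_)
      have e1 : TR.ev (q2.tr gz) k w = TR.ev gz k w.2 := by rw [hq2]; rfl
      have e2 : TR.ev (pe (fun i => q1.tr (cf D f i)) (TR.cor (q2.vv yv))) k w =
          MvPolynomial.eval (yv.v k w.2) (pol fun i => TR.ev (cf D f i) k w.1) := by
        rw [ev_pe]
        rw [hq1, hq2]
        rfl
      rw [e1, e2] at hcl
      exact absurd hn (not_lt.mpr hcl))
  have hgR : g' - R / 2 = g - R := by rw [hg']; ring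
  rw [hgR] at hc1 hc2
  set E : ∀ k, (S.F k).Ω → Prop := fun k ω => (∀ i, |gA.v k ω i - gB.v k ω i| ≤ S.dl (g - R) k) ∧
    |TR.ev gz k ω - MvPolynomial.eval (yv.v k ω) (pol (mv gB k ω))| ≤ K k * S.dl (g - R) k with hE
  have hEc : ul (S.pr (fun k ω => ¬ E k ω)) ≤ 1 / 2 := by
    have h1 := ul_or_le (S := S) (fun k ω => ¬ E k ω) (fun k ω => ¬ ∀ i, |gA.v k ω i - gB.v k ω i| ≤ S.dl (g - R) k)
      (fun k ω => K k * S.dl (g - R) k < |TR.ev gz k ω - MvPolynomial.eval (yv.v k ω) (pol (mv gB k ω))|)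
      (Eventually.of_forall fun k ω _ hn => by
        by_contra hcon
        push Not at hcon
        exact hn ⟨hcon.1, hcon.2⟩)
    linarith
  have hEp : 0 < ul (S.pr E) := by
    have h1 := Sp.ul_pr_compl (S := S) E
    linarith
  have hmemE := rest_mem E hEp
  refine ⟨E, hEp, fun i => QS.mk (TR.cor gA (Fintype.equivFin (Mon (N + 1) D) i)),
    fun i => QS.mk (TR.cor gB (Fintype.equivFin (Mon (N + 1) D) i)), fun i => ?_, fun i => ?_, fun i => ?_, ?_⟩
  · refine ⟨_, rfl, Eventually.of_forall fun k ω ω' _ _ hZ hV => ?_⟩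
    show gA.v k ω _ = gA.v k ω' _
    rw [hgA k ω ω' hV hZ]
  · refine ⟨_, rfl, ?_⟩
    filter_upwards [eventually_all.mpr hgy2, hgz2] with k hk1 hk2 ω ω' h1 h2 hZ hV
    show gB.v k ω _ = gB.v k ω' _
    rw [hgB k ω ω' ?_ hZ]
    show Sp.cell (S.dl g' k) ((pv yv gz).v k ω) = Sp.cell (S.dl g' k) ((pv yv gz).v k ω')
    congr 1
    funext j
    refine Fin.lastCases ?_ (fun j => ?_) j
    · rw [pv_last, pv_last]
      exact hk2 ω ω' h1 h2 hZ hV
    · rw [pv_cast, pv_cast]
      have h3 := hk1 j ω ω' h1 h2 hZ hV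
      rw [← hcor j] at h3
      exact h3
  · rw [← map_sub, QS.rest_mk, mk_mem_Id (by linarith)]
    refine ⟨fun _ _ => True, fun _ => 1, Sp.Typ_true, Sp.Sub_const (S := S.rest E) zero_le_one, ?_⟩
    filter_upwards [hmemE] with k hk ω hω _
    obtain ⟨_, h1⟩ := hk ω hω
    have h2 := h1.1 (Fintype.equivFin (Mon (N + 1) D) i)
    rw [TR.ev_zero, sub_zero, one_mul]
    exact h2
  · have e1 : z - ∑ i, QS.mk (TR.cor gB (Fintype.equivFin (Mon (N + 1) D) i)) * ∏ j, y j ^ ((i.1 j : ℕ)) =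
        QS.mk (gz - pe (fun i => TR.cor gB (Fintype.equivFin (Mon (N + 1) D) i)) (TR.cor yv)) := by
      rw [map_sub, hgz1, mk_pe]
      congr 1
      refine Finset.sum_congr rfl fun i _ => ?_
      congr 1
      refine Finset.prod_congr rfl fun j _ => ?_
      rw [hcor, hgy1]
    rw [e1, QS.rest_mk, mk_mem_Id (by linarith)]
    refine ⟨fun _ _ => True, K, Sp.Typ_true, hK, ?_⟩
    have e2 : ∀ (k : ℕ) (ω : (S.F k).Ω), MvPolynomial.eval (yv.v k ω) (pol (mv gB k ω)) =
        TR.ev (pe (fun i => TR.cor gB (Fintype.equivFin (Mon (N + 1) D) i)) (TR.cor yv)) k ω := by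
      intro k ω
      rw [ev_pe]
      rfl
    filter_upwards [hmemE] with k hk ω hω _
    obtain ⟨_, h1⟩ := hk ω hω
    have h2 := h1.2
    rw [e2 k ω] at h2
    rw [TR.ev_zero, sub_zero]
    exact h2

/-- SLOW SHEET LABELS GIVE LITERAL AGREEMENT: the label `V` is known to the line in rates and blind for the base at
its own point -/
theorem slow_lit {N D : ℕ} {α β : ℕ → Type} (VA : ∀ k, (S.F k).Ω → α k) (VB : ∀ k, (S.F k).Ω → β k)
    (hbA : Sp.Bdd VA) (t : QS S)
    (ht : h (dg t 1) (Sp.io VA) = 1) (a x : Fin (N + 1) → QS S) (az v : QS S) (ha : ∀ i, Lit VA (a i))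
    (hx : ∀ i, Lit VA (x i)) (haz : Lit VA az) (hv : Lit VA v) {y : Fin (N + 1) → QS S} {z : QS S}
    (hy : ∀ i, y i = a i + t * x i) (hz : z = az + t * v) (hyB : ∀ i, Lit VB (y i)) (hzB : Lit VB z) {W : Sp}
    (p : Pj W S) (V : W.L) (f : MvPolynomial (Fin (N + 1)) (QS W)) (L g ρ R : ℝ) (hL : 0 ≤ L) (hR : 0 < R)
    (hLR : L + R ≤ g) (hg : g ≤ 1) (hρ : 0 < ρ)
    (hV : f ∈ PK V) (hfD : f.totalDegree ≤ D) (hVL : V ≤ p.map (Sp.io VA)) (hVB : I V (p.map (vd y g)) ⊥ = 0)
    (hsh : p.qs z - MvPolynomial.eval (fun i => p.qs (y i)) f ∈ Id W g) (hfull : (N + 1) * g ≤ H (vd y g))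
    (hU : ∀ (T : Sp) (q : Pj T S) (E : ∀ k, (T.F k).Ω → Prop) (hE : 0 < ul (T.pr E)) (a b : ℝ), L ≤ a → a ≤ b →
      b ≤ g → h (Sp.restL E hE (q.map (dg z b))) (Sp.restL E hE (q.map (dg z a ⊔ vd y g))) ≤ (1 - ρ) * (b - a)) :
    ∃ (E : ∀ k, (S.F k).Ω → Prop) (hE : 0 < ul (S.pr E)) (cA cB : Mon (N + 1) D → QS S),
      (∀ i, Lit VA (cA i)) ∧ (∀ i, Lit VB (cB i)) ∧ (∀ i, QS.rest E hE (cA i - cB i) ∈ Id (S.rest E) (g - R)) ∧
      QS.rest E hE (z - ∑ i, cB i * ∏ j, y j ^ ((i.1 j : ℕ))) ∈ Id (S.rest E) (g - R) := by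
  obtain ⟨hbl, hfr⟩ := slow_fresh VA hbA t ht a x az v ha hx haz hv hy hz p V f L g ρ hL (by linarith) hg hρ hV hVL
    hVB hsh hfull hU
  refine fresh_lit VA VB hyB hzB p _ f L g ρ R hL hR hLR hg hρ (fun m => ?_) hfD hbl hfr hfull hU
  by_cases hm : m ∈ f.support
  · exact dg_le_vd (fun m : f.support => f.coeff m.1) g ⟨m, hm⟩
  · rw [MvPolynomial.notMem_support_iff.mp hm]
    show (0 : QS W) ∈ Kn W g hg _
    exact zero_mem _

end

end Pool.Agent.Helper97.SL
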