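import Pool.Agent.Helper97.SL.Rj

/-! Taylor coefficients at a tame point; congruences of polynomial expressions. (SSL, tools) -/

set_option autoImplicit false

namespace Pool.Agent.Helper97.SL

open Finset Filter Topology
open Pool.Agent.Helper3.LF Pool.Agent.Helper69.RK Pool.Agent.Helper31.EC

noncomputable section

variable {N D : ℕ}

/-- translated polynomials -/
theorem exists_shift (c : Mon N D → ℝ) (x : Fin N → ℝ) :
    ∃ u : Mon N D → ℝ, ∀ v : Fin N → ℝ, MvPolynomial.eval v (pol u) = MvPolynomial.eval (fun i => x i + v i) (pol c) := by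
  set q : MvPolynomial (Fin N) ℝ :=
    MvPolynomial.aeval (fun i => MvPolynomial.C (x i) + MvPolynomial.X i) (pol c) with hq
  have hdeg : q.totalDegree ≤ D := by
    rw [hq]
    unfold pol
    rw [map_sum]
    refine (MvPolynomial.totalDegree_finsetSum _ _).trans (Finset.sup_le fun a _ => ?_)
    rw [map_mul]
    refine (MvPolynomial.totalDegree_mul _ _).trans ?_
    have e1 : (MvPolynomial.aeval (R := ℝ) (fun i => (MvPolynomial.C (x i) + MvPolynomial.X i : MvPolynomial (Fin N) ℝ)))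
        (MvPolynomial.C (c a)) = MvPolynomial.C (c a) := by
      rw [MvPolynomial.aeval_C]
      rfl
    rw [e1, MvPolynomial.totalDegree_C, zero_add]
    unfold Mon.mon
    rw [MvPolynomial.aeval_monomial, map_one, one_mul, Finsupp.prod_fintype _ _ (fun _ => pow_zero _)]
    refine (MvPolynomial.totalDegree_finsetProd _ _).trans ?_
    refine (Finset.sum_le_sum fun i _ => ?_).trans a.2
    refine (MvPolynomial.totalDegree_pow _ _).trans ?_
    have e2 : (MvPolynomial.C (x i) + MvPolynomial.X i : MvPolynomial (Fin N) ℝ).totalDegree ≤ 1 := by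
      refine (MvPolynomial.totalDegree_add _ _).trans ?_
      rw [MvPolynomial.totalDegree_C, MvPolynomial.totalDegree_X]
      exact max_le (Nat.zero_le _) le_rfl
    calc a.ex i * (MvPolynomial.C (x i) + MvPolynomial.X i : MvPolynomial (Fin N) ℝ).totalDegree ≤ a.ex i * 1 :=
          Nat.mul_le_mul_left _ e2
      _ = (a.1 i : ℕ) := by rw [mul_one]; rfl
  obtain ⟨u, hu⟩ := exists_pol q hdeg
  refine ⟨u, fun v => ?_⟩
  rw [← hu, hq]
  have h1 : ∀ p : MvPolynomial (Fin N) ℝ, MvPolynomial.eval v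
      (MvPolynomial.aeval (fun i => (MvPolynomial.C (x i) + MvPolynomial.X i : MvPolynomial (Fin N) ℝ)) p) =
      MvPolynomial.eval (fun i => x i + v i) p := by
    intro p
    induction p using MvPolynomial.induction_on with
    | C r => rw [MvPolynomial.aeval_C, MvPolynomial.eval_C]; exact MvPolynomial.eval_C r
    | add p q hp hq => rw [map_add, map_add, map_add, hp, hq]
    | mul_X p i hp =>
      rw [map_mul, map_mul, map_mul, hp, MvPolynomial.aeval_X, map_add, MvPolynomial.eval_C, MvPolynomial.eval_X,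
        MvPolynomial.eval_X]
  exact h1 _

/-- the Taylor coefficients at `x` -/
def shr (c : Mon N D → ℝ) (x : Fin N → ℝ) : Mon N D → ℝ := (exists_shift c x).choose

theorem shr_eval (c : Mon N D → ℝ) (x v : Fin N → ℝ) :
    MvPolynomial.eval v (pol (shr c x)) = MvPolynomial.eval (fun i => x i + v i) (pol c) :=
  (exists_shift c x).choose_spec v

theorem eval_zero_pol (u : Mon N D → ℝ) : MvPolynomial.eval (0 : Fin N → ℝ) (pol u) = u (z0 N D) := by
  rw [eval_pol]
  unfold dotProduct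
  rw [Finset.sum_eq_single (z0 N D)]
  · rw [vv_z0, mul_one]
  · intro b _ hb
    rw [vv_at_zero b hb, mul_zero]
  · intro hh
    exact absurd (Finset.mem_univ _) hh

theorem shr_z0 (c : Mon N D → ℝ) (x : Fin N → ℝ) : shr c x (z0 N D) = MvPolynomial.eval x (pol c) := by
  rw [← eval_zero_pol (shr c x), shr_eval]
  congr 2
  funext i
  simp

/-- values of a polynomial in a box -/
theorem abs_eval_pol_le (c : Mon N D → ℝ) (M : ℝ) (hc : ∀ a, |c a| ≤ M) (z : Fin N → ℝ) (K : ℝ)
    (hK : 1 ≤ K) (hz : ∀ i, |z i| ≤ K) :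
    |MvPolynomial.eval z (pol c)| ≤ Fintype.card (Mon N D) * K ^ D * M := by
  have h1 := val_close c 0 M (fun a => by simpa using hc a) z K hK hz
  have h2 : MvPolynomial.eval z (pol (0 : Mon N D → ℝ)) = 0 := by
    rw [eval_pol, zero_dotProduct]
  rwa [h2, sub_zero] at h1

/-- coefficients of translated polynomials -/
theorem coeff_shift (N D : ℕ) : ∃ C : ℝ, 1 ≤ C ∧ ∀ (c u : Mon N D → ℝ) (x : Fin N → ℝ) (K M : ℝ), 1 ≤ K →
    (∀ i, |x i| ≤ K) →
    (∀ v : Fin N → ℝ, MvPolynomial.eval v (pol u) = MvPolynomial.eval (fun i => x i + v i) (pol c)) →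
    (∀ a, |c a| ≤ M) → ∀ a, |u a| ≤ C * K ^ D * M := by
  obtain ⟨C, hC0, hC⟩ := exists_coeff N D
  have hnn := nn_one N D
  set m : ℝ := ((Fintype.card (Mon N D) : ℕ) : ℝ) with hm
  have hm0 : 0 ≤ m := Nat.cast_nonneg _
  refine ⟨(1 + C * nn N D) * (1 + m * 2 ^ D), ?_, fun c u x K M hK hx hu hc a => ?_⟩
  · have h1 : 0 ≤ C * nn N D := by positivity
    have h2 : 0 ≤ m * 2 ^ D := by positivity
    nlinarith
  have hM : 0 ≤ M := (abs_nonneg _).trans (hc a)
  have h2 : ∀ j : Fin N → Fin (D + 1), |MvPolynomial.eval (nodp D 0 1 j) (pol u)| ≤ m * (2 * K) ^ D * M := by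
    intro j
    rw [hu]
    refine abs_eval_pol_le c M hc _ (2 * K) (by linarith) fun i => ?_
    refine (abs_add_le _ _).trans ?_
    have h3 : |nodp D (0 : Fin N → ℝ) 1 j i| ≤ 1 := by
      unfold nodp
      rw [Pi.zero_apply, zero_add, one_mul, abs_of_nonneg (nod_nonneg D _)]
      exact nod_le D _ (by have := (j i).isLt; omega)
    have h4 := hx i
    linarith
  have h3 : ph D (pol u) 1 0 ≤ nn N D * (m * (2 * K) ^ D * M) ^ 2 := by
    unfold ph
    refine (Finset.sum_le_card_nsmul _ _ ((m * (2 * K) ^ D * M) ^ 2) fun j _ => ?_).trans (le_of_eq ?_)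
    · rw [← sq_abs]
      exact pow_le_pow_left₀ (abs_nonneg _) (h2 j) 2
    · rw [nsmul_eq_mul, card_nodes]
  have h5 : (u a) ^ 2 ≤ u ⬝ᵥ u := by
    have e : u a * u a = u a ^ 2 := by ring
    rw [← e]
    unfold dotProduct
    exact Finset.single_le_sum (f := fun b => u b * u b) (fun b _ => mul_self_nonneg _) (Finset.mem_univ a)
  have hX : 0 ≤ m * (2 * K) ^ D * M := by positivity
  have h6 : (u a) ^ 2 ≤ ((1 + C * nn N D) * (m * (2 * K) ^ D * M)) ^ 2 := by
    have hx : 0 ≤ C * nn N D := by positivity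
    calc (u a) ^ 2 ≤ C * (nn N D * (m * (2 * K) ^ D * M) ^ 2) :=
          h5.trans ((hC u).trans (mul_le_mul_of_nonneg_left h3 hC0))
      _ = (C * nn N D) * (m * (2 * K) ^ D * M) ^ 2 := by ring
      _ ≤ (1 + C * nn N D) ^ 2 * (m * (2 * K) ^ D * M) ^ 2 := by
          refine mul_le_mul_of_nonneg_right ?_ (sq_nonneg _)
          nlinarith [sq_nonneg (C * nn N D)]
      _ = _ := by ring
  have h7 := abs_le_of_sq_le_sq h6 (mul_nonneg (by positivity) hX)
  refine h7.trans ?_
  have e : (1 + C * nn N D) * (m * (2 * K) ^ D * M) = (1 + C * nn N D) * (m * 2 ^ D) * (K ^ D * M) := by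
    rw [mul_pow]; ring
  rw [e]
  have e2 : (1 + C * nn N D) * (1 + m * 2 ^ D) * K ^ D * M = (1 + C * nn N D) * (1 + m * 2 ^ D) * (K ^ D * M) := by
    ring
  rw [e2]
  refine mul_le_mul_of_nonneg_right (mul_le_mul_of_nonneg_left (by linarith) (by positivity)) (by positivity)

variable {S : Sp}

/-- common bounds for finite families -/
theorem exists_bd {ι : Type} [Fintype ι] (f : ι → TR S) : ∃ K : ℕ → ℝ, S.Sub K ∧ (∀ k, 1 ≤ K k) ∧
    ∀ᶠ k in UF, ∀ ω, (S.F k).μ ω ≠ 0 → ∀ i, |TR.ev (f i) k ω| ≤ K k := by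
  classical
  have h0 : ∀ i, ∃ K : ℕ → ℝ, S.Sub K ∧ ∀ᶠ k in UF, ∀ ω, (S.F k).μ ω ≠ 0 → |TR.ev (f i) k ω| ≤ K k :=
    fun i => (f i).2
  choose K hK hf using h0
  have hs : ∀ s : Finset ι, S.Sub (fun k => ∑ i ∈ s, |K i k|) := by
    intro s
    induction s using Finset.induction_on with
    | empty => simpa using S.Sub_const (le_refl (0 : ℝ))
    | insert a s ha ih =>
      have h1 : S.Sub (fun k => |K a k|) := (hK a).mono (Eventually.of_forall fun _ => abs_nonneg _)
        ((hK a).1.mono fun k hk => (abs_of_nonneg hk).le)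
      have h2 := h1.add ih
      refine h2.mono (Eventually.of_forall fun k => Finset.sum_nonneg fun _ _ => abs_nonneg _)
        (Eventually.of_forall fun k => ?_)
      rw [Finset.sum_insert ha]
  refine ⟨fun k => 1 + ∑ i, |K i k|, (S.Sub_const zero_le_one).add (hs Finset.univ), fun k => ?_, ?_⟩
  · have : 0 ≤ ∑ i, |K i k| := Finset.sum_nonneg fun _ _ => abs_nonneg _
    linarith
  · have h1 : ∀ᶠ k in UF, ∀ i, ∀ ω, (S.F k).μ ω ≠ 0 → |TR.ev (f i) k ω| ≤ K i k := by
      rw [Filter.eventually_all]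
      exact hf
    filter_upwards [h1] with k hk ω hω i
    have h2 := hk i ω hω
    have h3 : |K i k| ≤ ∑ i, |K i k| := Finset.single_le_sum (f := fun i => |K i k|) (fun _ _ => abs_nonneg _)
      (Finset.mem_univ i)
    have h4 := le_abs_self (K i k)
    linarith

/-- Taylor coefficients in the ring of tame functions -/
def sh (c : Mon N D → TR S) (x : Fin N → TR S) (a : Mon N D) : TR S :=
  ⟨fun k ω => shr (fun a => TR.ev (c a) k ω) (fun i => TR.ev (x i) k ω) a, by
    obtain ⟨C, hC, h⟩ := coeff_shift N D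
    obtain ⟨K, hK, hK1, hk⟩ := exists_bd c
    obtain ⟨L, hL, hL1, hl⟩ := exists_bd x
    have hLD : ∀ d : ℕ, S.Sub (fun k => L k ^ d) := by
      intro d
      induction d with
      | zero => simpa using S.Sub_const zero_le_one
      | succ d ih =>
        refine (ih.mul hL).mono (Eventually.of_forall fun k => pow_nonneg (by linarith [hL1 k]) _)
          (Eventually.of_forall fun k => ?_)
        rw [pow_succ]
    refine ⟨fun k => C * L k ^ D * K k, ?_, ?_⟩
    · refine ((((S.Sub_const (show (0 : ℝ) ≤ C by linarith)).mul (hLD D))).mul hK)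
    · filter_upwards [hk, hl] with k a1 a2 ω hω
      exact h _ _ _ (L k) (K k) (hL1 k) (a2 ω hω) (shr_eval _ _) (a1 ω hω) a⟩

theorem ev_sh (c : Mon N D → TR S) (x : Fin N → TR S) (a : Mon N D) (k : ℕ) (ω : (S.F k).Ω) :
    TR.ev (sh c x a) k ω = shr (fun a => TR.ev (c a) k ω) (fun i => TR.ev (x i) k ω) a := rfl

/-- the constant function `2 ^ (-r n)` -/
def cdl (r : ℝ) (hr : 0 ≤ r) : TR S :=
  ⟨fun k _ => S.dl r k, fun _ => 1, S.Sub_const zero_le_one, Eventually.of_forall fun k ω _ => by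
    show |S.dl r k| ≤ 1
    rw [abs_of_pos (S.dl_pos r k)]
    have := S.dl_anti hr k
    rwa [S.dl_zero] at this⟩

theorem ev_cdl (r : ℝ) (hr : 0 ≤ r) (k : ℕ) (ω : (S.F k).Ω) : TR.ev (cdl (S := S) r hr) k ω = S.dl r k := rfl

theorem cdl_dg (r : ℝ) (hr : 0 ≤ r) (s : ℝ) : TR.dg (cdl (S := S) r hr) s = ⊥ :=
  TR.const_dg _ (Eventually.of_forall fun _ _ _ => rfl) s

/-- polynomial expressions are known -/
theorem pe_mem (c : Mon N D → TR S) (x : Fin N → TR S) (r : ℝ) (A : S.L) (hc : ∀ a, TR.dg (c a) r ≤ A)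
    (hx : ∀ i, TR.dg (x i) r ≤ A) : TR.dg (pe c x) r ≤ A := by
  have : pe c x ∈ TR.Kn S r A := by
    unfold pe
    refine Subring.sum_mem _ fun a _ => Subring.mul_mem _ (hc a) (Subring.prod_mem _ fun i _ => ?_)
    exact Subring.pow_mem _ (hx i) _
  exact this

theorem Ag.pow {r : ℝ} {f g : TR S} (h : TR.Ag r f g) (d : ℕ) : TR.Ag r (f ^ d) (g ^ d) := by
  induction d with
  | zero => rw [pow_zero, pow_zero]; exact TR.Ag.refl r 1
  | succ d ih => rw [pow_succ, pow_succ]; exact ih.mul h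

theorem Ag.sum {ι : Type} (s : Finset ι) {r : ℝ} {f g : ι → TR S} (h : ∀ i ∈ s, TR.Ag r (f i) (g i)) :
    TR.Ag r (∑ i ∈ s, f i) (∑ i ∈ s, g i) := by
  classical
  induction s using Finset.induction_on with
  | empty => rw [Finset.sum_empty, Finset.sum_empty]; exact TR.Ag.refl r 0
  | insert a s ha ih =>
    rw [Finset.sum_insert ha, Finset.sum_insert ha]
    exact (h a (Finset.mem_insert_self a s)).add (ih fun i hi => h i (Finset.mem_insert_of_mem hi))

theorem Ag.prod {ι : Type} (s : Finset ι) {r : ℝ} {f g : ι → TR S} (h : ∀ i ∈ s, TR.Ag r (f i) (g i)) :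
    TR.Ag r (∏ i ∈ s, f i) (∏ i ∈ s, g i) := by
  classical
  induction s using Finset.induction_on with
  | empty => rw [Finset.prod_empty, Finset.prod_empty]; exact TR.Ag.refl r 1
  | insert a s ha ih =>
    rw [Finset.prod_insert ha, Finset.prod_insert ha]
    exact (h a (Finset.mem_insert_self a s)).mul (ih fun i hi => h i (Finset.mem_insert_of_mem hi))

/-- polynomial expressions respect closeness -/
theorem Ag.pe {r : ℝ} {c c' : Mon N D → TR S} {x x' : Fin N → TR S} (hc : ∀ a, TR.Ag r (c a) (c' a))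
    (hx : ∀ i, TR.Ag r (x i) (x' i)) : TR.Ag r (SL.pe c x) (SL.pe c' x') := by
  unfold SL.pe
  refine Ag.sum _ fun a _ => (hc a).mul (Ag.prod _ fun i _ => Ag.pow (hx i) _)

theorem pe_sub (c c' : Mon N D → TR S) (x : Fin N → TR S) :
    pe (fun a => c a - c' a) x = pe c x - pe c' x := by
  unfold pe
  rw [← Finset.sum_sub_distrib]
  exact Finset.sum_congr rfl fun a _ => sub_mul _ _ _

theorem pe_tr {T : Sp} (p : Pj T S) (c : Mon N D → TR S) (x : Fin N → TR S) :
    p.tr (pe c x) = pe (fun a => p.tr (c a)) (fun i => p.tr (x i)) := by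
  unfold pe
  rw [map_sum]
  refine Finset.sum_congr rfl fun a _ => ?_
  rw [map_mul, map_prod]
  simp only [map_pow]

/-- closeness from equal cells on the support -/
theorem ag_of_close {r : ℝ} {f g : TR S} (h : ∀ᶠ k in UF, ∀ ω, (S.F k).μ ω ≠ 0 → |TR.ev f k ω - TR.ev g k ω| ≤ S.dl r k) :
    TR.Ag r f g := by
  refine ⟨fun _ _ => True, fun _ => 1, Sp.Typ_true, S.Sub_const zero_le_one, ?_⟩
  filter_upwards [h] with k hk ω hω _
  rw [one_mul]
  exact hk ω hω

end

end Pool.Agent.Helper97.SL
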