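import Pool.Agent.Helper97.SL.Qs
import Pool.Agent.Helper40.NSK.Flat

/-! STATIC SHEET LEMMA for flat corners with errors (NSK/Flat.lean): a polynomial sheet which is blind for the base is a
function of the point up to a small loss of depth and probability. -/

set_option autoImplicit false

namespace Pool.Agent.Helper97.SL

open Finset Filter Topology
open Pool.Agent.Helper3.LF Pool.Agent.Helper69.RK Pool.Agent.Helper31.EC Pool.Agent.Helper25.EC
open Pool.Agent.Helper40.NSK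

noncomputable section

variable {S : Sp} {N D : ℕ}

/-- SSL with errors in the exact calculus. If two points of an extension agree in the base and in the top coordinate
up to level `g` then the coefficients of the sheet agree up to level `g - R` outside an event of probability
`C P / R`. -/
theorem ssl_qa (N D : ℕ) (ρ : ℝ) (hρ : 0 < ρ) : ∃ C : ℝ, 1 ≤ C ∧
    ∀ (S : Sp) (y : Fin (N + 1) → QS S) (z : QS S) (f : MvPolynomial (Fin (N + 1)) (QS S)) (V Yt : S.L)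
    (g R P ε : ℝ), f.totalDegree ≤ D → 0 < R → R ≤ g → g ≤ 1 → 0 < P → C * ε ≤ P * R → ε ≤ P → C * ε ≤ R →
    QS.vd y g ≤ Yt →
    z - MvPolynomial.eval y f ∈ QS.Id S g → (N + 1) * g - ε ≤ H (QS.vd y g) →
    (∀ m, QS.dg (f.coeff m) g ≤ V) → I V Yt ⊥ ≤ ε → UnE z Yt ρ ε →
    ∀ (T : Sp) (a b : Pj T S),
    (∀ i, a.qs (y i) - b.qs (y i) ∈ QS.Id T g) → a.qs z - b.qs z ∈ QS.Id T g →
    ul (T.pr (fun k ω => ∃ i, T.dl (g - R) k < |TR.ev (b.tr (cf D f i) - a.tr (cf D f i)) k ω|)) ≤ C * P / R := by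
  obtain ⟨C, hC, hmain⟩ := ssl_ag N D (min ρ 1) (lt_min hρ one_pos) (min_le_right _ _)
  refine ⟨2 * C, by linarith, ?_⟩
  intro S y z f V Yt g R P ε hf hR hRg hg hP hε hεP hεR hYt hz hfull hV hI hU T a b hy hzc
  have hε0 : 0 ≤ ε := (I_nonneg _ _ _).trans hI
  have hBl := bl_of_I (bv y) ((cv (cf D f)).dg g) Yt g P ε hP (by rwa [bv_dg y hg])
    (by rw [bv_dg y hg]; push_cast; exact hfull) ((I_mono_left ((cv_cf_dg_le f hg V hV).trans le_sup_left)).trans hI)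
  have h1 := hmain S (bv y) (QS.rep z) (cf D f) Yt g R P ε (2 * ε / P) hR hRg hP.le
    (by rw [← mul_div_assoc, div_le_iff₀ hP]; linarith) (by nlinarith) (by rwa [bv_dg y hg])
    (by
      rw [← mk_sub_mem hg, QS.mk_rep]
      have h2 : QS.mk (pe (cf D f) (TR.cor (bv y))) = MvPolynomial.eval y f := mk_pe_cf f hf y
      rw [h2]
      exact hz) hBl
    (by
      intro T π E hE hPE r s h3 h4 h5
      have h6 := hU T π E hE (hεP.trans hPE) r s h3 h4 (h5.trans hg)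
      rw [Pj.map_sup, Sp.restL_sup, sup_comm] at h6
      rw [rep_dg z (h5.trans hg), rep_dg z (h4.trans (h5.trans hg))]
      have h7 : (1 - ρ) * (s - r) ≤ (1 - min ρ 1) * (s - r) :=
        mul_le_mul_of_nonneg_right (by linarith [min_le_left ρ 1]) (by linarith)
      linarith) T a b
    (fun i => by
      have h3 := hy i
      have h2 : QS.mk (TR.cor (bv y) i) = y i := QS.mk_rep _
      rw [← h2, Pj.qs_mk, Pj.qs_mk, mk_sub_mem hg] at h3
      exact h3)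
    (by
      rw [← mk_sub_mem hg, ← Pj.qs_mk, ← Pj.qs_mk, QS.mk_rep]
      exact hzc)
  refine h1.trans ?_
  have h2 : C * (g / R) * P = C * P * g / R := by ring
  rw [h2]
  refine div_le_div_of_nonneg_right ?_ hR.le
  have h3 : 0 ≤ C * P := by positivity
  nlinarith

/-- functions from agreement: if two copies of `X` over `U` agree up to level `r` outside an event of probability `q`
then there is a literal function of `U` (and of the base) which agrees with `X` outside an event of probability `q` -/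
theorem fn_of_agree {α : ℕ → Type} (U : ∀ k, (S.F k).Ω → α k) {m : ℕ} (X : S.VV m) (r q : ℝ)
    (h : ul ((two U).pr (fun k w => ¬ ∀ i, |X.v k ((two1 U).π k w) i - X.v k ((two2 U).π k w) i| ≤ S.dl r k)) ≤ q) :
    ∃ Y : S.VV m, (∀ k ω ω', U k ω = U k ω' → (S.F k).Z ω ω' → Y.v k ω = Y.v k ω') ∧
      ul (S.pr (fun k ω => ¬ ∀ i, |X.v k ω i - Y.v k ω i| ≤ S.dl r k)) ≤ q := by
  classical
  obtain ⟨c, hc1, hc2⟩ := exists_rep U (fun k ω ω' => ∀ i, |X.v k ω i - X.v k ω' i| ≤ S.dl r k)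
  obtain ⟨C, hCs, hC⟩ := X.bd
  set cl : ℝ → ℝ → ℝ := fun K x => max (-K) (min K x) with hcl
  have hcl1 : ∀ K x, 0 ≤ K → |cl K x| ≤ K := by
    intro K x hK
    rw [abs_le]
    exact ⟨le_max_left _ _, max_le (by linarith) (min_le_left _ _)⟩
  have hcl2 : ∀ K x, |x| ≤ K → cl K x = x := by
    intro K x hx
    have h1 := abs_le.mp hx
    show max (-K) (min K x) = x
    rw [min_eq_right h1.2, max_eq_right h1.1]
  have hcl3 : ∀ K x x', |cl K x - cl K x'| ≤ |x - x'| := by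
    intro K x x'
    have h1 : |max (-K) (min K x) - max (-K) (min K x')| ≤ max |(-K) - (-K)| |min K x - min K x'| :=
      abs_max_sub_max_le_max _ _ _ _
    have h2 : |min K x - min K x'| ≤ max |K - K| |x - x'| := abs_min_sub_min_le_max _ _ _ _
    rw [sub_self, abs_zero] at h1 h2
    refine h1.trans (max_le (abs_nonneg _) (h2.trans (max_le (abs_nonneg _) le_rfl)))
  refine ⟨⟨fun k ω i => cl (C k) (X.v k (c k ω) i), C, hCs, ?_⟩, ?_, ?_⟩
  · filter_upwards [hCs.1] with k hk ω _ i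
    exact hcl1 _ _ hk
  · intro k ω ω' h1 h2
    show (fun i => cl (C k) (X.v k (c k ω) i)) = fun i => cl (C k) (X.v k (c k ω') i)
    rw [hc1 k ω ω' h1 h2]
  · refine le_trans (ul_mono (Sp.UB_pr _) (Sp.UB_pr _) ?_) h
    filter_upwards [hC] with k hk
    refine le_trans ?_ (hc2 k)
    refine FSp.pb_mono _ fun ω hω hn hcc => hn fun i => ?_
    show |X.v k ω i - cl (C k) (X.v k (c k ω) i)| ≤ S.dl r k
    have h1 : cl (C k) (X.v k ω i) = X.v k ω i := hcl2 _ _ (hk ω hω i)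
    calc |X.v k ω i - cl (C k) (X.v k (c k ω) i)| =
          |cl (C k) (X.v k ω i) - cl (C k) (X.v k (c k ω) i)| := by rw [h1]
      _ ≤ |X.v k ω i - X.v k (c k ω) i| := hcl3 _ _ _
      _ ≤ _ := hcc i

open Classical in
/-- a literal function of `U ∘ π` on an extension comes from a literal function of `U` -/
theorem down_fn {W : Sp} (p : Pj W S) {α : ℕ → Type} (U : ∀ k, (S.F k).Ω → α k) {m : ℕ} (Y : W.VV m)
    (hY : ∀ k ω ω', (W.F k).μ ω ≠ 0 → (W.F k).μ ω' ≠ 0 → U k (p.π k ω) = U k (p.π k ω') → (W.F k).Z ω ω' →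
      Y.v k ω = Y.v k ω') :
    ∃ Y' : S.VV m, (∀ k ω ω', U k ω = U k ω' → (S.F k).Z ω ω' → Y'.v k ω = Y'.v k ω') ∧
      ∀ k ω, (W.F k).μ ω ≠ 0 → Y'.v k (p.π k ω) = Y.v k ω := by
  obtain ⟨C, hCs, hC⟩ := Y.bd
  have hsub : S.Sub C := by
    have h1 := hCs
    unfold Sp.Sub at h1 ⊢
    simp only [p.hn] at h1
    exact h1
  let v : ∀ k, (S.F k).Ω → Fin m → ℝ := fun k ω =>
    if h : ∃ ω', (W.F k).μ ω' ≠ 0 ∧ U k (p.π k ω') = U k ω ∧ (S.F k).Z (p.π k ω') ω then Y.v k h.choose else 0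
  refine ⟨⟨v, C, hsub, ?_⟩, ?_, ?_⟩
  · filter_upwards [hC, hCs.1] with k hk h0 ω _ i
    by_cases h : ∃ ω', (W.F k).μ ω' ≠ 0 ∧ U k (p.π k ω') = U k ω ∧ (S.F k).Z (p.π k ω') ω
    · have e : v k ω = Y.v k h.choose := dif_pos h
      rw [e]
      exact hk _ h.choose_spec.1 i
    · have e : v k ω = 0 := dif_neg h
      rw [e]
      simpa using h0
  · intro k ω ω' h1 h2
    show v k ω = v k ω'
    have e : (fun w => (W.F k).μ w ≠ 0 ∧ U k (p.π k w) = U k ω ∧ (S.F k).Z (p.π k w) ω) =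
        fun w => (W.F k).μ w ≠ 0 ∧ U k (p.π k w) = U k ω' ∧ (S.F k).Z (p.π k w) ω' := by
      funext w
      rw [h1]
      refine propext (and_congr Iff.rfl (and_congr Iff.rfl ⟨fun h => ?_, fun h => ?_⟩))
      · exact Setoid.trans' _ h h2
      · exact Setoid.trans' _ h (Setoid.symm' _ h2)
    by_cases h : ∃ w, (W.F k).μ w ≠ 0 ∧ U k (p.π k w) = U k ω ∧ (S.F k).Z (p.π k w) ω
    · have h' : ∃ w, (W.F k).μ w ≠ 0 ∧ U k (p.π k w) = U k ω' ∧ (S.F k).Z (p.π k w) ω' := by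
        rwa [e] at h
      have e1 : v k ω = Y.v k h.choose := dif_pos h
      have e2 : v k ω' = Y.v k h'.choose := dif_pos h'
      rw [e1, e2]
      refine hY k _ _ h.choose_spec.1 h'.choose_spec.1 ?_ ?_
      · rw [h.choose_spec.2.1, h'.choose_spec.2.1, h1]
      · rw [p.hZ k _ _ h.choose_spec.1 h'.choose_spec.1]
        exact Setoid.trans' _ h.choose_spec.2.2 (Setoid.trans' _ h2 (Setoid.symm' _ h'.choose_spec.2.2))
    · have h' : ¬ ∃ w, (W.F k).μ w ≠ 0 ∧ U k (p.π k w) = U k ω' ∧ (S.F k).Z (p.π k w) ω' := by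
        rwa [e] at h
      have e1 : v k ω = 0 := dif_neg h
      have e2 : v k ω' = 0 := dif_neg h'
      rw [e1, e2]
  · intro k ω hω
    show v k (p.π k ω) = Y.v k ω
    have h : ∃ w, (W.F k).μ w ≠ 0 ∧ U k (p.π k w) = U k (p.π k ω) ∧ (S.F k).Z (p.π k w) (p.π k ω) :=
      ⟨ω, hω, rfl, Setoid.refl' _ _⟩
    have e1 : v k (p.π k ω) = Y.v k h.choose := dif_pos h
    rw [e1]
    refine hY k _ _ h.choose_spec.1 hω h.choose_spec.2.1 ?_
    rw [p.hZ k _ _ h.choose_spec.1 hω]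
    exact h.choose_spec.2.2

theorem iQ_eq {d k : ℕ} (c : FC S d k) : c.iQ = QS.vd c.q 1 := by
  unfold FC.iQ FC.q
  apply le_antisymm
  · apply sup_le
    · rw [QS.vd_le]
      intro i
      exact QS.dg_le_vd (Fin.cons c.t c.y : Fin (d + 1) → QS S) 1 i.succ
    · exact QS.dg_le_vd (Fin.cons c.t c.y : Fin (d + 1) → QS S) 1 0
  · rw [QS.vd_le]
    intro i
    refine Fin.cases ?_ (fun j => ?_) i
    · exact le_sup_right
    · exact (QS.dg_le_vd c.y 1 j).trans le_sup_left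

theorem vd_full {m : ℕ} (y : Fin m → QS S) (g ε : ℝ) (hg : g ≤ 1) (h1 : m - ε ≤ H (QS.vd y 1)) :
    m * g - ε ≤ H (QS.vd y g) := by
  rw [← bv_dg y le_rfl] at h1
  rw [← bv_dg y hg]
  have h2 := (bv y).h_dg_dg hg
  have h3 := h_chain ((bv y).dg g) ((bv y).dg 1) (⊥ : S.L)
  rw [sup_eq_right.mpr ((bv y).dg_mono hg), sup_bot_eq, h_bot, h_bot] at h3
  nlinarith

theorem UnE.pull {T : Sp} (p : Pj T S) {z : QS S} {A : S.L} {ρ ε : ℝ} (h : UnE z A ρ ε) :
    UnE (p.qs z) (p.map A) ρ ε := by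
  intro R q E hE hεE a b h1 h2 h3
  have h4 := h R (q.comp p) E hE hεE a b h1 h2 h3
  rw [Pj.comp_map, Pj.comp_map, Pj.map_sup] at h4
  rw [p.qs_dg, p.qs_dg]
  exact h4

/-- SSL FOR FLAT CORNERS, agreement form: `V` with the sheet `f` of precision `1 - δ` on an extension `W`, blind for
the base up to `ε`. Two points of an extension of `W` which agree in `(q, z)` up to level `1 - δ` have sheets which
agree up to level `1 - δ - R` outside an event of probability `C P / R`. -/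
theorem sh_agree (d K : ℕ) (ρ : ℝ) (hρ : 0 < ρ) : ∃ C : ℝ, 1 ≤ C ∧
    ∀ (S : Sp) (k : ℕ) (c : FC S d k) (δ ε R P : ℝ), 0 ≤ δ → 0 < R → R ≤ 1 - δ → 0 < P → C * ε ≤ P * R → ε ≤ P →
    C * ε ≤ R → d + 1 - ε ≤ H c.iQ → UnE c.z c.iQ ρ ε →
    ∀ (W : Sp) (p : Pj W S) (V : W.L) (f : MvPolynomial (Fin (d + 1)) (QS W)), f ∈ QS.PK V → f.totalDegree ≤ K →
    I V (p.map c.iQ) ⊥ ≤ ε → p.qs c.z - MvPolynomial.eval (fun i => p.qs (c.q i)) f ∈ QS.Id W (1 - δ) →
    ∀ (T : Sp) (a b : Pj T W), (∀ i, a.qs (p.qs (c.q i)) - b.qs (p.qs (c.q i)) ∈ QS.Id T (1 - δ)) →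
    a.qs (p.qs c.z) - b.qs (p.qs c.z) ∈ QS.Id T (1 - δ) →
    ul (T.pr (fun k ω => ∃ i, T.dl (1 - δ - R) k < |TR.ev (b.tr (cf K f i) - a.tr (cf K f i)) k ω|)) ≤
      C * P / R := by
  obtain ⟨C, hC, hmain⟩ := ssl_qa d K ρ hρ
  refine ⟨C, hC, ?_⟩
  intro S k c δ ε R P hδ hR hR1 hP h1 h2 h3 hfull hU W p V f hf hdeg hI hz T a b ha hb
  have hg : 1 - δ ≤ 1 := by linarith
  have e1 : QS.vd (fun i => p.qs (c.q i)) 1 = p.map c.iQ := by
    rw [p.qs_vd, iQ_eq]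
  refine hmain W (fun i => p.qs (c.q i)) (p.qs c.z) f V (p.map c.iQ) (1 - δ) R P ε hdeg hR hR1 hg hP h1 h2 h3 ?_ hz ?_
    (fun m => (QS.dg_mono _ hg).trans (hf m)) hI (UnE.pull p hU) T a b ha hb
  · rw [← e1]
    exact QS.vd_mono _ hg
  · have h4 := vd_full (fun i => p.qs (c.q i)) (1 - δ) ε hg (by
      rw [e1, Pj.H_map]
      push_cast
      exact hfull)
    push_cast at h4
    exact h4

/-- the literal cells of the point of a flat corner up to level `g` -/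
def ptc {d k : ℕ} (c : FC S d k) (g : ℝ) (j : ℕ) (ω : (S.F j).Ω) : Fin (d + 2) → ℤ :=
  (bv (Fin.snoc c.q c.z : Fin (d + 2) → QS S)).cellv g j ω

theorem ptc_bdd {d k : ℕ} (c : FC S d k) (g : ℝ) : Sp.Bdd (S := S) (ptc c g) := (bv _).bdd g

theorem ptc_close {d k : ℕ} (c : FC S d k) {W T : Sp} (p : Pj W S) (g : ℝ) (hg : g ≤ 1) (a b : Pj T W)
    (h : ∀ k w, (T.F k).μ w ≠ 0 → ptc c g k (p.π k (a.π k w)) = ptc c g k (p.π k (b.π k w))) :
    (∀ i, a.qs (p.qs (c.q i)) - b.qs (p.qs (c.q i)) ∈ QS.Id T g) ∧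
      a.qs (p.qs c.z) - b.qs (p.qs c.z) ∈ QS.Id T g := by
  have hcl : ∀ j : Fin (d + 2), a.qs (p.qs ((Fin.snoc c.q c.z : Fin (d + 2) → QS S) j)) -
      b.qs (p.qs ((Fin.snoc c.q c.z : Fin (d + 2) → QS S) j)) ∈ QS.Id T g := by
    intro j
    have h0 : QS.mk (TR.cor (bv (Fin.snoc c.q c.z : Fin (d + 2) → QS S)) j) =
      (Fin.snoc c.q c.z : Fin (d + 2) → QS S) j := QS.mk_rep _
    rw [← h0, Pj.qs_mk, Pj.qs_mk, Pj.qs_mk, mk_sub_mem hg]
    refine ag_of_close (Eventually.of_forall fun k w hw => ?_)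
    have h1 := (bv (Fin.snoc c.q c.z : Fin (d + 2) → QS S)).cellv_close g k _ _ (h k w hw) j
    rw [dl_pj a, dl_pj p]
    exact h1
  refine ⟨fun i => ?_, ?_⟩
  · have := hcl i.castSucc
    rwa [Fin.snoc_castSucc] at this
  · have := hcl (Fin.last _)
    rwa [Fin.snoc_last] at this

/-- SSL FOR FLAT CORNERS, literal form: the coefficients of the sheet are a literal function `Y` (on `S` itself) of the
cells of the point (and of the base) up to `2 ^ (-(1 - δ - R) n)`, outside an event of probability `C P / R`. -/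
theorem sh_fn (d K : ℕ) (ρ : ℝ) (hρ : 0 < ρ) : ∃ C : ℝ, 1 ≤ C ∧
    ∀ (S : Sp) (k : ℕ) (c : FC S d k) (δ ε R P : ℝ), 0 ≤ δ → 0 < R → R ≤ 1 - δ → 0 < P → C * ε ≤ P * R → ε ≤ P →
    C * ε ≤ R → d + 1 - ε ≤ H c.iQ → UnE c.z c.iQ ρ ε →
    ∀ (W : Sp) (p : Pj W S) (V : W.L) (f : MvPolynomial (Fin (d + 1)) (QS W)), f ∈ QS.PK V → f.totalDegree ≤ K →
    I V (p.map c.iQ) ⊥ ≤ ε → p.qs c.z - MvPolynomial.eval (fun i => p.qs (c.q i)) f ∈ QS.Id W (1 - δ) →
    ∃ Y : S.VV (Fintype.card (Mon (d + 1) K)),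
      (∀ j ω ω', ptc c (1 - δ) j ω = ptc c (1 - δ) j ω' → (S.F j).Z ω ω' → Y.v j ω = Y.v j ω') ∧
      ul (W.pr (fun j ω => ¬ ∀ i, |(cv (cf K f)).v j ω i - Y.v j (p.π j ω) i| ≤ W.dl (1 - δ - R) j)) ≤ C * P / R := by
  obtain ⟨C, hC, hmain⟩ := sh_agree d K ρ hρ
  refine ⟨C, hC, ?_⟩
  intro S k c δ ε R P hδ hR hR1 hP h1 h2 h3 hfull hU W p V f hf hdeg hI hz
  have hg : 1 - δ ≤ 1 := by linarith
  set U : ∀ j, (W.F j).Ω → Fin (d + 2) → ℤ := fun j ω => ptc c (1 - δ) j (p.π j ω) with hUdef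
  have hcl := ptc_close c p (1 - δ) hg (two1 U) (two2 U)
    (fun j w hw => Pj.join_supp (Pj.id W) U j w hw)
  have h4 := hmain S k c δ ε R P hδ hR hR1 hP h1 h2 h3 hfull hU W p V f hf hdeg hI hz (two U) (two1 U) (two2 U)
    hcl.1 hcl.2
  obtain ⟨Y, hY1, hY2⟩ := fn_of_agree U (cv (cf K f)) (1 - δ - R) (C * P / R) (by
    refine le_trans (ul_mono (Sp.UB_pr _) (Sp.UB_pr _) (Eventually.of_forall fun j => ?_)) h4
    refine FSp.pb_mono _ fun w _ hw => ?_
    push Not at hw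
    obtain ⟨i, hi⟩ := hw
    refine ⟨(Fintype.equivFin (Mon (d + 1) K)).symm i, ?_⟩
    rw [dl_pj (two1 U), TR.ev_sub, abs_sub_comm]
    exact hi)
  obtain ⟨Y', hY1', hY2'⟩ := down_fn p (ptc c (1 - δ)) Y (fun j ω ω' _ _ hh hZ => hY1 j ω ω' hh hZ)
  refine ⟨Y', hY1', le_trans (ul_mono (Sp.UB_pr _) (Sp.UB_pr _) (Eventually.of_forall fun j => ?_)) hY2⟩
  refine FSp.pb_mono _ fun w hw hn hcc => hn fun i => ?_
  rw [hY2' j w hw]
  exact hcc i

/-- SSL FOR FLAT CORNERS, lattice form: on an event of probability `1 - C P / R` (and on all its subevents) the digits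
of the coefficients of the sheet up to level `1 - δ - R` are a function of the point. -/
theorem sh_pt (d K : ℕ) (ρ : ℝ) (hρ : 0 < ρ) : ∃ C : ℝ, 1 ≤ C ∧
    ∀ (S : Sp) (k : ℕ) (c : FC S d k) (δ ε R P : ℝ), 0 ≤ δ → 0 < R → R ≤ 1 - δ → 0 < P → C * ε ≤ P * R → ε ≤ P →
    C * ε ≤ R → d + 1 - ε ≤ H c.iQ → UnE c.z c.iQ ρ ε →
    ∀ (W : Sp) (p : Pj W S) (V : W.L) (f : MvPolynomial (Fin (d + 1)) (QS W)), f ∈ QS.PK V → f.totalDegree ≤ K →
    I V (p.map c.iQ) ⊥ ≤ ε → p.qs c.z - MvPolynomial.eval (fun i => p.qs (c.q i)) f ∈ QS.Id W (1 - δ) →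
    ∃ E : ∀ k, (W.F k).Ω → Prop, 1 - C * P / R ≤ ul (W.pr E) ∧
      ∀ (F : ∀ k, (W.F k).Ω → Prop) (hF : 0 < ul (W.pr F)), (∀ k ω, F k ω → E k ω) → ∀ m,
        Sp.restL F hF (QS.dg (f.coeff m) (1 - δ - R)) ≤
          Sp.restL F hF (p.map (QS.vd c.q (1 - δ) ⊔ QS.dg c.z (1 - δ))) := by
  obtain ⟨C, hC, hmain⟩ := sh_agree d K ρ hρ
  refine ⟨C, hC, ?_⟩
  intro S k c δ ε R P hδ hR hR1 hP h1 h2 h3 hfull hU W p V f hf hdeg hI hz
  have hg : 1 - δ ≤ 1 := by linarith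
  set U : ∀ j, (W.F j).Ω → Fin (d + 2) → ℤ := fun j ω => ptc c (1 - δ) j (p.π j ω) with hUdef
  have hUb : Sp.Bdd U := by
    have := (p.vv (bv (Fin.snoc c.q c.z : Fin (d + 2) → QS S))).bdd (1 - δ)
    have e : (p.vv (bv (Fin.snoc c.q c.z : Fin (d + 2) → QS S))).cellv (1 - δ) = U := by
      funext j ω
      show Sp.cell (W.dl (1 - δ) j) _ = Sp.cell (S.dl (1 - δ) j) _
      rw [dl_pj p]
      rfl
    rwa [e] at this
  have hio : Sp.io U = p.map (QS.vd c.q (1 - δ) ⊔ QS.dg c.z (1 - δ)) := by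
    have e : (p.vv (bv (Fin.snoc c.q c.z : Fin (d + 2) → QS S))).cellv (1 - δ) = U := by
      funext j ω
      show Sp.cell (W.dl (1 - δ) j) _ = Sp.cell (S.dl (1 - δ) j) _
      rw [dl_pj p]
      rfl
    have e2 : Sp.io U = (p.vv (bv (Fin.snoc c.q c.z : Fin (d + 2) → QS S))).dg (1 - δ) := by
      rw [← e]
      rfl
    rw [e2, ← Pj.map_dg, bv_dg _ hg]
    congr 1
    apply le_antisymm
    · rw [QS.vd_le]
      intro i
      refine Fin.lastCases ?_ (fun j => ?_) i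
      · rw [Fin.snoc_last]
        exact le_sup_right
      · rw [Fin.snoc_castSucc]
        exact (QS.dg_le_vd c.q _ j).trans le_sup_left
    · apply sup_le
      · rw [QS.vd_le]
        intro j
        have h1 := QS.dg_le_vd (Fin.snoc c.q c.z : Fin (d + 2) → QS S) (1 - δ) j.castSucc
        rwa [Fin.snoc_castSucc] at h1
      · have h1 := QS.dg_le_vd (Fin.snoc c.q c.z : Fin (d + 2) → QS S) (1 - δ) (Fin.last _)
        rwa [Fin.snoc_last] at h1
  have hcl := ptc_close c p (1 - δ) hg (two1 U) (two2 U)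
    (fun j w hw => Pj.join_supp (Pj.id W) U j w hw)
  have h4 := hmain S k c δ ε R P hδ hR hR1 hP h1 h2 h3 hfull hU W p V f hf hdeg hI hz (two U) (two1 U) (two2 U)
    hcl.1 hcl.2
  obtain ⟨E, hE1, -, hE3⟩ := agree_one U hUb (cv (cf K f)) (1 - δ - R) (fun _ => 1) (W.Sub_const zero_le_one)
  refine ⟨E, ?_, fun F hF hFE m => ?_⟩
  · have h5 : ∀ j, (W.F j).pb (fun ω => ¬ E j ω) ≤
        (two U).pr (fun k w => ∃ i, (two U).dl (1 - δ - R) k <
          |TR.ev ((two2 U).tr (cf K f i) - (two1 U).tr (cf K f i)) k w|) j := by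
      intro j
      refine (hE1 j).trans ?_
      refine FSp.pb_mono _ fun w _ hw => ?_
      push Not at hw
      obtain ⟨i, hi⟩ := hw
      refine ⟨(Fintype.equivFin (Mon (d + 1) K)).symm i, ?_⟩
      rw [one_mul] at hi
      rw [dl_pj (two1 U), TR.ev_sub, abs_sub_comm]
      exact hi
    have h6 := ul_mono (Sp.UB_pr (fun k ω => ¬ E k ω)) (Sp.UB_pr _) (Eventually.of_forall h5)
    rw [Sp.ul_pr_compl] at h6
    linarith
  · rw [← hio]
    refine le_trans ?_ (hE3 F hF hFE)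
    have hg' : 1 - δ - R ≤ 1 := by linarith
    by_cases hm : m ∈ f.support
    · obtain ⟨a, rfl⟩ := exists_tf hdeg hm
      have h5 := dg_le_cv (cf K f) (1 - δ - R) a
      have h6 : TR.dg (cf K f a) (1 - δ - R) = QS.dg (f.coeff (tf a)) (1 - δ - R) := rep_dg _ hg'
      rw [h6] at h5
      exact Sp.restL_mono F hF h5
    · rw [MvPolynomial.notMem_support_iff.mp hm]
      have h5 : QS.dg (0 : QS W) (1 - δ - R) = ⊥ := le_antisymm ((QS.Kn W (1 - δ - R) hg' ⊥).zero_mem) bot_le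
      rw [h5]
      exact Sp.restL_mono F hF bot_le

end

end Pool.Agent.Helper97.SL
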