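import Pool.Agent.Helper97.SL.Cls2

/-! STATIC SHEET LEMMA: a polynomial sheet whose label is (almost) blind for the base is exact, if the remaining
coordinate has a deficit on all intervals. (SSL, ns_notes_26b sect. 1) -/

set_option autoImplicit false

namespace Pool.Agent.Helper97.SL

open Finset Filter Topology
open Pool.Agent.Helper3.LF Pool.Agent.Helper69.RK Pool.Agent.Helper31.EC Pool.Agent.Helper25.EC

noncomputable section

variable {S T : Sp} {N D : ℕ}

theorem UB_sum {ι : Type} (s : Finset ι) (f : ι → ℕ → ℝ) (h : ∀ i ∈ s, UB (f i)) : UB (fun k => ∑ i ∈ s, f i k) := by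
  classical
  induction s using Finset.induction_on with
  | empty => simpa using UB_const 0
  | insert a s ha ih =>
    have h1 := (h a (Finset.mem_insert_self a s)).add (ih fun i hi => h i (Finset.mem_insert_of_mem hi))
    have e : (fun k => ∑ i ∈ insert a s, f i k) = fun k => f a k + ∑ i ∈ s, f i k := by
      funext k
      rw [Finset.sum_insert ha]
    rw [e]
    exact h1

theorem ul_sum {ι : Type} (s : Finset ι) (f : ι → ℕ → ℝ) (h : ∀ i ∈ s, UB (f i)) :
    ul (fun k => ∑ i ∈ s, f i k) = ∑ i ∈ s, ul (f i) := by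
  classical
  induction s using Finset.induction_on with
  | empty => simp [ul_const]
  | insert a s ha ih =>
    have e : (fun k => ∑ i ∈ insert a s, f i k) = fun k => f a k + ∑ i ∈ s, f i k := by
      funext k
      rw [Finset.sum_insert ha]
    rw [e, ul_add (h a (Finset.mem_insert_self a s)) (UB_sum s f fun i hi => h i (Finset.mem_insert_of_mem hi)),
      ih fun i hi => h i (Finset.mem_insert_of_mem hi), Finset.sum_insert ha]

/-- union bound -/
theorem ul_union {ι : Type} [Fintype ι] (B : ∀ k, (T.F k).Ω → Prop) (E : ι → ∀ k, (T.F k).Ω → Prop) (p : ℝ)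
    (h : ∀ᶠ k in UF, ∀ ω, (T.F k).μ ω ≠ 0 → B k ω → ∃ i, E i k ω) (hE : ∀ i, ul (T.pr (E i)) ≤ p) :
    ul (T.pr B) ≤ Fintype.card ι * p := by
  classical
  have h1 : ∀ᶠ k in UF, T.pr B k ≤ ∑ i, T.pr (E i) k := by
    filter_upwards [h] with k hk
    show mass (res (T.F k).μ (B k)) ≤ ∑ i, mass (res (T.F k).μ (E i k))
    unfold mass
    rw [Finset.sum_comm]
    refine Finset.sum_le_sum fun ω _ => ?_
    have h0 : ∀ i, 0 ≤ res (T.F k).μ (E i k) ω := fun i => (T.F k).res_nonneg (E i k) ω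
    by_cases hB : B k ω
    · by_cases hμ : (T.F k).μ ω = 0
      · have : res (T.F k).μ (B k) ω = 0 := by unfold res; rw [if_pos hB, hμ]
        rw [this]
        exact Finset.sum_nonneg fun i _ => h0 i
      · obtain ⟨i, hi⟩ := hk ω hμ hB
        have e1 : res (T.F k).μ (B k) ω = res (T.F k).μ (E i k) ω := by
          unfold res
          rw [if_pos hB, if_pos hi]
        rw [e1]
        exact Finset.single_le_sum (f := fun i => res (T.F k).μ (E i k) ω) (fun i _ => h0 i) (Finset.mem_univ i)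
    · have : res (T.F k).μ (B k) ω = 0 := by unfold res; rw [if_neg hB]
      rw [this]
      exact Finset.sum_nonneg fun i _ => h0 i
  have h2 := ul_mono (Sp.UB_pr B) (UB_sum Finset.univ (fun i => T.pr (E i)) fun i _ => Sp.UB_pr (E i)) h1
  rw [ul_sum _ _ fun i _ => Sp.UB_pr (E i)] at h2
  refine h2.trans ((Finset.sum_le_card_nsmul _ _ p fun i _ => hE i).trans (le_of_eq ?_))
  rw [nsmul_eq_mul, Finset.card_univ]

open Classical in
/-- grid of levels -/
theorem exists_grid (a : ℕ → ℝ) (t : ℝ) (J : ℕ) (h0 : t ≤ a 0) : ∃ j ≤ J, t ≤ a j ∧ (j < J → a (j + 1) < t) := by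
  by_cases h : ∃ j < J, a (j + 1) < t
  · refine ⟨Nat.find h, (Nat.find_spec h).1.le, ?_, fun _ => (Nat.find_spec h).2⟩
    rcases Nat.eq_zero_or_pos (Nat.find h) with h1 | h1
    · rw [h1]
      exact h0
    · have h2 := Nat.find_min h (show Nat.find h - 1 < Nat.find h by omega)
      push Not at h2
      have h3 := h2 (by have := (Nat.find_spec h).1; omega)
      rwa [Nat.sub_add_cancel h1] at h3
  · push Not at h
    refine ⟨J, le_rfl, ?_, fun h1 => absurd h1 (lt_irrefl _)⟩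
    rcases Nat.eq_zero_or_pos J with h1 | h1
    · rw [h1]
      exact h0
    · have h3 := h (J - 1) (by omega)
      rwa [Nat.sub_add_cancel h1] at h3

/-- STATIC SHEET LEMMA, general form: deficit on the levels from `L` on, number of classes explicit -/
theorem ssl_gen (N D : ℕ) (ρ : ℝ) (hρ : 0 < ρ) (hρ1 : ρ ≤ 1) : ∃ C : ℝ, 1 ≤ C ∧
    ∀ (J1 : ℕ) (S : Sp) (y : S.VV (N + 1)) (z : TR S) (f : Mon (N + 1) D → TR S) (Yt : S.L) (L g R p κ ε : ℝ),
    0 < R → 0 ≤ L → L + R ≤ g → (C * (1 + L / R) ≤ J1 ∨ D ≤ 1 ∧ C ≤ J1) → 0 ≤ p → C * ε ≤ R → C * κ ≤ R →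
    y.dg g ≤ Yt → TR.Ag g z (pe f (TR.cor y)) →
    Bl y ((cv f).dg g) Yt g p ε → DDL Yt z L g p ρ κ →
    ∀ (T : Sp) (a b : Pj T S),
    (∀ i, TR.Ag g (TR.cor (a.vv y) i) (TR.cor (b.vv y) i)) → TR.Ag g (a.tr z) (b.tr z) →
    ul (T.pr (fun k ω => ∃ i, T.dl (g - R) k < |TR.ev (b.tr (f i) - a.tr (f i)) k ω|)) ≤
      C * (g / R) * ((J1 + 1) ^ Fintype.card (Mon (N + 1) D)) * p := by
  classical
  obtain ⟨Cs, hCs, hsh⟩ := coeff_shift (N + 1) D
  have hD0 : (0 : ℝ) ≤ D := Nat.cast_nonneg D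
  have hN0 : (0 : ℝ) ≤ N := Nat.cast_nonneg N
  set M : ℝ := ((Fintype.card (Mon (N + 1) D) : ℕ) : ℝ) with hM
  have hM0 : 0 ≤ M := Nat.cast_nonneg _
  -- parameters
  set c : ℝ := ρ / (8 * (D + 1)) with hc
  have hc0 : 0 < c := by positivity
  have hc1 : c ≤ 1 := by
    rw [hc, div_le_one (by positivity)]
    nlinarith
  set A : ℝ := 1 + (N + 1) / c with hA
  have hA0 : 1 ≤ A := by
    have : 0 ≤ ((N : ℝ) + 1) / c := by positivity
    linarith
  obtain ⟨J, hJ⟩ := exists_nat_ge (4 * M * A / ρ + 1)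
  have hJ1 : 1 ≤ J := by
    have h1 : 0 ≤ 4 * M * A / ρ := by positivity
    have h2 : (1 : ℝ) ≤ J := by linarith
    exact_mod_cast h2
  have hJr : (1 : ℝ) ≤ J := by exact_mod_cast hJ1
  set Q : ℝ := (D + 1) * J + 4 with hQ
  have hQ0 : 4 ≤ Q := by
    have : 0 ≤ ((D : ℝ) + 1) * J := by positivity
    linarith
  refine ⟨8 * A * Q / ρ + 8 * Q / ρ + (Q + 1) + ((1 + c + D * J + Q) / c + 1), ?_, ?_⟩
  · have h1 : 0 ≤ 8 * A * Q / ρ := by positivity
    have h2 : 0 ≤ 8 * Q / ρ := by positivity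
    have h3 : 0 ≤ (1 + c + D * J + Q) / c := by positivity
    linarith
  intro J1 S y z f Yt L0 g R p κ ε hR hL0 hLR hJ1' hp hε hκ hYt hz hBl hDD T a b hy hzc
  have hRg : R ≤ g := by linarith
  have hg : 0 < g := lt_of_lt_of_le hR hRg
  set e : ℝ := R / Q with he
  have he0 : 0 < e := by positivity
  have heQ : Q * e = R := by rw [he]; field_simp
  set δ : ℝ := c * e with hδ
  have hδ0 : 0 < δ := by positivity
  have hδe : δ ≤ e := by nlinarith
  -- bounds
  obtain ⟨L, hL, hL1, hl⟩ := exists_bd (TR.cor (b.vv y))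
  obtain ⟨Kf, hKf, hKf1, hkf⟩ := exists_bd (fun i => b.tr (f i) - a.tr (f i))
  have hLD : T.Sub (fun k => L k ^ D) := by
    have h0 : ∀ d : ℕ, T.Sub (fun k => L k ^ d) := by
      intro d
      induction d with
      | zero => simpa using T.Sub_const zero_le_one
      | succ d ih =>
        refine (ih.mul hL).mono (Eventually.of_forall fun k => pow_nonneg (by linarith [hL1 k]) _)
          (Eventually.of_forall fun k => ?_)
        rw [pow_succ]
    exact h0 D
  set K : ℕ → ℝ := fun k => Cs * L k ^ D * Kf k with hK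
  have hKs : T.Sub K := ((T.Sub_const (show (0 : ℝ) ≤ Cs by linarith)).mul hLD).mul hKf
  have hLD1 : ∀ k, 1 ≤ L k ^ D := fun k => one_le_pow₀ (hL1 k)
  have hK1 : ∀ k, 1 ≤ K k := fun k => by
    show 1 ≤ Cs * L k ^ D * Kf k
    have h1 := hLD1 k
    have h2 := hKf1 k
    have h3 : 1 ≤ Cs * L k ^ D := by nlinarith
    nlinarith
  set Dv : Mon (N + 1) D → TR T := fun i => b.tr (f i) - a.tr (f i) with hDv
  set Sv : Mon (N + 1) D → TR T := sh Dv (TR.cor (b.vv y)) with hSv
  -- the classes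
  set Lt : ℕ := ⌊(g - R) / e⌋₊ + 1 with hLt
  set Ev : Fin Lt × (Mon (N + 1) D → Fin (J1 + 1)) → ∀ k, (T.F k).Ω → Prop := fun x k ω =>
    ((∃ i, T.dl (x.1 * e + e) k < |TR.ev (Dv i) k ω|) ∧ ∀ i, |TR.ev (Dv i) k ω| ≤ Kf k * T.dl (x.1 * e) k) ∧
    ∀ i, i ≠ z0 (N + 1) D → |TR.ev (Sv i) k ω| ≤ K k * T.dl (x.1 * e + (x.2 i : ℕ) * δ) k ∧
      ((x.2 i : ℕ) < J1 → K k * T.dl (x.1 * e + ((x.2 i : ℕ) + 1) * δ) k < |TR.ev (Sv i) k ω|) with hEv
  have hcov : ∀ᶠ k in UF, ∀ ω, (T.F k).μ ω ≠ 0 → (∃ i, T.dl (g - R) k < |TR.ev (Dv i) k ω|) → ∃ x, Ev x k ω := by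
    filter_upwards [hl, hkf] with k hlk hkfk ω hω hB
    obtain ⟨i0, hi0⟩ := hB
    -- the size of the difference
    have hex : ∃ l : ℕ, ∃ i, T.dl (l * e + e) k < |TR.ev (Dv i) k ω| := by
      obtain ⟨l, hl⟩ := exists_nat_ge ((g - R) / e)
      refine ⟨l, i0, lt_of_le_of_lt (T.dl_anti ?_ k) hi0⟩
      rw [div_le_iff₀ he0] at hl
      linarith
    set l := Nat.find hex with hldef
    have hl1 := Nat.find_spec hex
    have hl2 : ∀ i, |TR.ev (Dv i) k ω| ≤ Kf k * T.dl (l * e) k := by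
      intro i
      rcases Nat.eq_zero_or_pos l with h1 | h1
      · rw [h1, Nat.cast_zero, zero_mul, T.dl_zero, mul_one]
        exact hkfk ω hω i
      · have h2 := Nat.find_min hex (show l - 1 < Nat.find hex by omega)
        push Not at h2
        have h3 := h2 i
        have h4 : ((l - 1 : ℕ) : ℝ) * e + e = l * e := by
          rw [Nat.cast_sub h1]
          push_cast
          ring
        rw [h4] at h3
        refine h3.trans ?_
        have := T.dl_pos (l * e) k
        have := hKf1 k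
        nlinarith
    have hl3 : l < Lt := by
      rw [hLt, Nat.lt_succ_iff]
      refine Nat.le_floor ?_
      rw [le_div_iff₀ he0]
      rcases Nat.eq_zero_or_pos l with h1 | h1
      · rw [h1, Nat.cast_zero, zero_mul]
        linarith
      · have h2 := Nat.find_min hex (show l - 1 < Nat.find hex by omega)
        push Not at h2
        have h3 := h2 i0
        have h4 : ((l - 1 : ℕ) : ℝ) * e + e = l * e := by
          rw [Nat.cast_sub h1]
          push_cast
          ring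
        rw [h4] at h3
        by_contra hcon
        push Not at hcon
        have := T.dl_anti hcon.le k
        linarith
    have hs : ∀ i, |TR.ev (Sv i) k ω| ≤ K k * T.dl (l * e) k := by
      intro i
      have := hsh (fun i => TR.ev (Dv i) k ω) (fun i => TR.ev (Sv i) k ω) (fun i => TR.ev (TR.cor (b.vv y) i) k ω)
        (L k) (Kf k * T.dl (l * e) k) (hL1 k) (hlk ω hω) (shr_eval _ _) hl2 i
      refine this.trans (le_of_eq ?_)
      rw [hK]
      ring
    have hgr : ∀ i, ∃ j : Fin (J1 + 1), |TR.ev (Sv i) k ω| ≤ K k * T.dl (l * e + (j : ℕ) * δ) k ∧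
        ((j : ℕ) < J1 → K k * T.dl (l * e + ((j : ℕ) + 1) * δ) k < |TR.ev (Sv i) k ω|) := by
      intro i
      obtain ⟨j, hj, h5, h6⟩ := exists_grid (fun j : ℕ => K k * T.dl (l * e + j * δ) k) (|TR.ev (Sv i) k ω|) J1 (by
        rw [Nat.cast_zero, zero_mul, add_zero]
        exact hs i)
      refine ⟨⟨j, by omega⟩, h5, fun h7 => ?_⟩
      have := h6 h7
      push_cast at this
      exact this
    choose jj hjj using hgr
    exact ⟨(⟨l, hl3⟩, jj), ⟨hl1, hl2⟩, fun i _ => hjj i⟩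
  -- every class has small probability
  have hcl : ∀ x, ul (T.pr (Ev x)) ≤ p := by
    intro x
    by_contra hcon
    push Not at hcon
    have hE : 0 < ul (T.pr (Ev x)) := lt_of_le_of_lt hp hcon
    have hx : ((x.1 : ℕ) : ℝ) * e ≤ g - R := by
      have h1 : (x.1 : ℕ) ≤ ⌊(g - R) / e⌋₊ := Nat.lt_succ_iff.mp x.1.isLt
      have h2 : ((x.1 : ℕ) : ℝ) ≤ (g - R) / e :=
        (Nat.le_floor_iff (div_nonneg (by linarith) he0.le)).mp h1
      rwa [le_div_iff₀ he0] at h2
    have hx0 : 0 ≤ ((x.1 : ℕ) : ℝ) * e := by positivity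
    have hDJ : (D : ℝ) * (J * e) + 3 * e ≤ R := by
      rw [← heQ, hQ]
      have : 0 ≤ (J : ℝ) * e := by positivity
      nlinarith
    have hJe0 : 0 ≤ (J : ℝ) * e := by positivity
    have hDJe : 0 ≤ (D : ℝ) * (J * e) := by positivity
    have hJe1 : (J : ℝ) * e ≤ R := by
      rw [← heQ, hQ]
      nlinarith
    have hJ1c : max (e + δ) (L0 - (x.1 : ℕ) * e) + D * (J * e) < J1 * δ ∨ (D ≤ 1 ∧ e + δ < J1 * δ) := by
      have q1 : 0 ≤ 8 * A * Q / ρ + 8 * Q / ρ + (Q + 1) := by positivity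
      have q2 : (1 + c + D * J + Q) / c + 1 ≤ 8 * A * Q / ρ + 8 * Q / ρ + (Q + 1) + ((1 + c + D * J + Q) / c + 1) := by
        linarith
      rcases hJ1' with h1 | ⟨h0, h1⟩
      · refine Or.inl ?_
        have h2 : 0 ≤ L0 / R := div_nonneg hL0 hR.le
        have h3 : ((1 + c + D * J + Q) / c + 1) * (1 + L0 / R) ≤ J1 :=
          (mul_le_mul_of_nonneg_right q2 (by linarith)).trans h1
        have h4 : (1 + c + D * J + Q) / c * (1 + L0 / R) < J1 := by nlinarith
        rw [div_mul_eq_mul_div, div_lt_iff₀ hc0] at h4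
        have h5 : (1 + c + D * J + Q) * (1 + L0 / R) * e < J1 * c * e := mul_lt_mul_of_pos_right h4 he0
        have h6 : Q * (L0 / R) * e = L0 := by
          rw [mul_right_comm, heQ]
          field_simp
        have h7 : (1 + c + D * J + Q) * (1 + L0 / R) * e =
          e + δ + D * (J * e) + Q * e + (1 + c + D * J) * (L0 / R) * e + Q * (L0 / R) * e := by rw [hδ]; ring
        have h8 : 0 ≤ (1 + c + D * J) * (L0 / R) * e := by positivity
        have h9 : J1 * c * e = J1 * δ := by rw [hδ]; ring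
        rw [h7, h6, h9, heQ] at h5
        have h10 : max (e + δ) (L0 - (x.1 : ℕ) * e) ≤ e + δ + L0 := max_le (by linarith) (by linarith)
        linarith
      · refine Or.inr ⟨h0, ?_⟩
        have h3 : (1 + c + D * J + Q) / c < J1 := by linarith
        rw [div_lt_iff₀ hc0] at h3
        have h5 : (1 + c + D * J + Q) * e < J1 * c * e := mul_lt_mul_of_pos_right h3 he0
        have h7 : (1 + c + D * J + Q) * e = e + δ + D * (J * e) + Q * e := by rw [hδ]; ring
        have h9 : J1 * c * e = J1 * δ := by rw [hδ]; ring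
        rw [h7, h9, heQ] at h5
        linarith
    have key := clsL y z f Yt L0 g p ρ κ ε e δ δ e ((x.1 : ℕ) * e) J J1 (fun i => (x.2 i : ℕ)) hYt hz hBl hDD T a b hy hzc
      (Ev x) hE hcon.le K hKs hK1
      (Eventually.of_forall fun k ω _ hω => hω.1.1)
      (Eventually.of_forall fun k ω _ hω i hi => (hω.2 i hi).1)
      (Eventually.of_forall fun k ω _ hω i hi => (hω.2 i hi).2)
      he0 hδ0 hδ0 hδe hx0 (by omega) (by linarith) hJ1c (by linarith) (by linarith) (by linarith) (by linarith)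
    -- numerical contradiction
    have hQρ : 0 < Q / ρ := by positivity
    have hε' : 8 * A * ε ≤ ρ * e := by
      rcases le_or_gt ε 0 with h0 | h0
      · have h1 : 8 * A * ε ≤ 0 := mul_nonpos_of_nonneg_of_nonpos (by positivity) h0
        have h2 : 0 ≤ ρ * e := by positivity
        linarith
      · have h1 : 8 * A * Q / ρ * ε ≤ R := by
          refine le_trans (mul_le_mul_of_nonneg_right ?_ h0.le) hε
          have h2 : 0 ≤ 8 * Q / ρ := by positivity
          have h3 : 0 ≤ (1 + c + D * J + Q) / c := by positivity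
          linarith
        rw [← heQ] at h1
        have h2 : 8 * A * Q / ρ * ε = Q * (8 * A * ε / ρ) := by ring
        rw [h2] at h1
        have h3 := le_of_mul_le_mul_left h1 (by linarith)
        rw [div_le_iff₀ hρ] at h3
        linarith
    have hκ' : 8 * κ ≤ ρ * e := by
      rcases le_or_gt κ 0 with h0 | h0
      · have h2 : 0 ≤ ρ * e := by positivity
        linarith
      · have h1 : 8 * Q / ρ * κ ≤ R := by
          refine le_trans (mul_le_mul_of_nonneg_right ?_ h0.le) hκ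
          have h2 : 0 ≤ 8 * A * Q / ρ := by positivity
          have h3 : 0 ≤ (1 + c + D * J + Q) / c := by positivity
          linarith
        rw [← heQ] at h1
        have h2 : 8 * Q / ρ * κ = Q * (8 * κ / ρ) := by ring
        rw [h2] at h1
        have h3 := le_of_mul_le_mul_left h1 (by linarith)
        rw [div_le_iff₀ hρ] at h3
        linarith
    have hJM : M * e / J * A ≤ ρ * e / 4 := by
      have h1 : 4 * M * A / ρ ≤ J := by linarith
      rw [div_le_iff₀ hρ] at h1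
      have h2 : (0 : ℝ) < J := by linarith
      rw [div_mul_eq_mul_div, div_le_iff₀ h2]
      nlinarith
    have h1 : δ + D * δ = ρ * e / 8 := by
      rw [hδ, hc]
      field_simp
      ring
    have h2 : (N + 1) * e * ((2 * ε + M * e / J) / δ) = (2 * ε + M * e / J) * ((N + 1) / c) := by
      rw [hδ]
      field_simp
    have h3 : 2 * ε + M * e / J + (2 * ε + M * e / J) * ((N + 1) / c) = (2 * ε + M * e / J) * A := by
      rw [hA]
      ring
    have h4 : (2 * ε + M * e / J) * A = 2 * (A * ε) + M * e / J * A := by ring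
    have h5 : 0 < ρ * e := by positivity
    rw [← hM] at key
    rw [h2] at key
    linarith
  have hfin := ul_union _ Ev p hcov hcl
  refine hfin.trans ?_
  set Cl : ℝ := (J1 + 1 : ℝ) ^ Fintype.card (Mon (N + 1) D) with hCl
  have hCl0 : 0 ≤ Cl := by positivity
  have hcard : ((Fintype.card (Fin Lt × (Mon (N + 1) D → Fin (J1 + 1))) : ℕ) : ℝ) = Lt * Cl := by
    rw [Fintype.card_prod, Fintype.card_fin, Fintype.card_fun, Fintype.card_fin, Nat.cast_mul, Nat.cast_pow, hCl]
    push_cast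
    ring
  rw [hcard]
  refine mul_le_mul_of_nonneg_right ?_ hp
  have hLt' : (Lt : ℝ) ≤ (Q + 1) * (g / R) := by
    rw [hLt]
    push_cast
    have h1 : (⌊(g - R) / e⌋₊ : ℝ) ≤ (g - R) / e := Nat.floor_le (div_nonneg (by linarith) he0.le)
    have h2 : (g - R) / e ≤ Q * (g / R) := by
      rw [div_le_iff₀ he0]
      have : Q * (g / R) * e = g := by
        rw [he]
        field_simp
      rw [this]
      linarith
    have h3 : 1 ≤ g / R := (one_le_div hR).mpr hRg
    linarith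
  refine mul_le_mul_of_nonneg_right (hLt'.trans ?_) hCl0
  refine mul_le_mul_of_nonneg_right ?_ (div_pos hg hR).le
  have h1 : 0 ≤ 8 * A * Q / ρ := by positivity
  have h2 : 0 ≤ 8 * Q / ρ := by positivity
  have h3 : 0 ≤ (1 + c + D * J + Q) / c := by positivity
  linarith

/-- STATIC SHEET LEMMA (agreement on typical events). Constants depend on the number of base coordinates, the degree and the deficit `ρ`. If two
points of an extension agree in the base and in `z` up to level `g` then the two sheets agree up to level `g - R`,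
outside an event of probability at most `C (g / R) p`. -/
theorem ssl_ag (N D : ℕ) (ρ : ℝ) (hρ : 0 < ρ) (hρ1 : ρ ≤ 1) : ∃ C : ℝ, 1 ≤ C ∧
    ∀ (S : Sp) (y : S.VV (N + 1)) (z : TR S) (f : Mon (N + 1) D → TR S) (Yt : S.L) (g R p κ ε : ℝ),
    0 < R → R ≤ g → 0 ≤ p → C * ε ≤ R → C * κ ≤ R → y.dg g ≤ Yt → TR.Ag g z (pe f (TR.cor y)) →
    Bl y ((cv f).dg g) Yt g p ε → DD Yt z g p ρ κ →
    ∀ (T : Sp) (a b : Pj T S),
    (∀ i, TR.Ag g (TR.cor (a.vv y) i) (TR.cor (b.vv y) i)) → TR.Ag g (a.tr z) (b.tr z) →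
    ul (T.pr (fun k ω => ∃ i, T.dl (g - R) k < |TR.ev (b.tr (f i) - a.tr (f i)) k ω|)) ≤ C * (g / R) * p := by
  obtain ⟨C, hC, hmain⟩ := ssl_gen N D ρ hρ hρ1
  obtain ⟨J1, hJ1⟩ := exists_nat_ge C
  have h1 : (1 : ℝ) ≤ (J1 + 1) ^ Fintype.card (Mon (N + 1) D) :=
    one_le_pow₀ (by have : (0 : ℝ) ≤ J1 := Nat.cast_nonneg J1; linarith)
  refine ⟨C * (J1 + 1) ^ Fintype.card (Mon (N + 1) D), by nlinarith, ?_⟩
  intro S y z f Yt g R p κ ε hR hRg hp hε hκ hYt hz hBl hDD T a b hy hzc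
  have hle : ∀ x : ℝ, C * (J1 + 1) ^ Fintype.card (Mon (N + 1) D) * x ≤ R → C * x ≤ R := by
    intro x hx
    rcases le_or_gt x 0 with h0 | h0
    · have : C * x ≤ 0 := mul_nonpos_of_nonneg_of_nonpos (by linarith) h0
      linarith
    · refine le_trans ?_ hx
      rw [mul_right_comm]
      have : 0 < C * x := by positivity
      nlinarith
  refine (hmain J1 S y z f Yt 0 g R p κ ε hR le_rfl (by linarith) (Or.inl (by simpa using hJ1)) hp (hle ε hε) (hle κ hκ)
    hYt hz hBl (fun T π E hE hpE r s hr => hDD T π E hE hpE r s hr) T a b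
    hy hzc).trans (le_of_eq ?_)
  ring

/-- STATIC SHEET LEMMA. Constants depend on the number of base coordinates, the degree and the deficit `ρ`. If two
points of an extension agree in the base and in `z` up to level `g` then the two sheets agree up to level `g - R`,
outside an event of probability at most `C (g / R) p`. -/
theorem ssl (N D : ℕ) (ρ : ℝ) (hρ : 0 < ρ) (hρ1 : ρ ≤ 1) : ∃ C : ℝ, 1 ≤ C ∧
    ∀ (S : Sp) (y : S.VV (N + 1)) (z : TR S) (f : Mon (N + 1) D → TR S) (Yt : S.L) (g R p κ ε : ℝ),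
    0 < R → R ≤ g → 0 ≤ p → C * ε ≤ R → C * κ ≤ R → y.dg g ≤ Yt → TR.Ag g z (pe f (TR.cor y)) →
    Bl y ((cv f).dg g) Yt g p ε → DD Yt z g p ρ κ →
    ∀ (T : Sp) (a b : Pj T S),
    (∀ᶠ k in UF, ∀ ω, (T.F k).μ ω ≠ 0 → ∀ i, |(a.vv y).v k ω i - (b.vv y).v k ω i| ≤ T.dl g k) →
    (∀ᶠ k in UF, ∀ ω, (T.F k).μ ω ≠ 0 → |TR.ev (a.tr z) k ω - TR.ev (b.tr z) k ω| ≤ T.dl g k) →
    ul (T.pr (fun k ω => ∃ i, T.dl (g - R) k < |TR.ev (b.tr (f i) - a.tr (f i)) k ω|)) ≤ C * (g / R) * p := by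
  obtain ⟨C, hC, hmain⟩ := ssl_ag N D ρ hρ hρ1
  exact ⟨C, hC, fun S y z f Yt g R p κ ε hR hRg hp hε hκ hYt hz hBl hDD T a b hy hzc =>
    hmain S y z f Yt g R p κ ε hR hRg hp hε hκ hYt hz hBl hDD T a b
      (fun i => ag_of_close (hy.mono fun k hk ω hω => hk ω hω i)) (ag_of_close hzc)⟩

/-- the power of `g / R` in the static sheet lemma with lower level -/
def pw (N D : ℕ) : ℕ := if D ≤ 1 then 1 else Fintype.card (Mon (N + 1) D) + 1

/-- STATIC SHEET LEMMA with the deficit only on the levels between `L` and `g`, `L + R ≤ g`; the two points agree up to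
level `g` on a typical event -/
theorem sslA (N D : ℕ) (ρ : ℝ) (hρ : 0 < ρ) (hρ1 : ρ ≤ 1) : ∃ C : ℝ, 1 ≤ C ∧
    ∀ (S : Sp) (y : S.VV (N + 1)) (z : TR S) (f : Mon (N + 1) D → TR S) (Yt : S.L) (L g R p κ ε : ℝ),
    0 < R → 0 ≤ L → L + R ≤ g → 0 ≤ p → C * ε ≤ R → C * κ ≤ R → y.dg g ≤ Yt → TR.Ag g z (pe f (TR.cor y)) →
    Bl y ((cv f).dg g) Yt g p ε → DDL Yt z L g p ρ κ →
    ∀ (T : Sp) (a b : Pj T S),
    (∀ i, TR.Ag g (TR.cor (a.vv y) i) (TR.cor (b.vv y) i)) → TR.Ag g (a.tr z) (b.tr z) →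
    ul (T.pr (fun k ω => ∃ i, T.dl (g - R) k < |TR.ev (b.tr (f i) - a.tr (f i)) k ω|)) ≤
      C * (g / R) ^ pw N D * p := by
  obtain ⟨C, hC, hmain⟩ := ssl_gen N D ρ hρ hρ1
  set M := Fintype.card (Mon (N + 1) D) with hM
  have hC3 : 1 ≤ (3 * C) ^ M := one_le_pow₀ (by linarith)
  refine ⟨C * (3 * C) ^ M, by nlinarith, ?_⟩
  intro S y z f Yt L g R p κ ε hR hL hLR hp hε hκ hYt hz hBl hDD T a b hy hzc
  have hle : ∀ x : ℝ, C * (3 * C) ^ M * x ≤ R → C * x ≤ R := by
    intro x hx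
    rcases le_or_gt x 0 with h0 | h0
    · have : C * x ≤ 0 := mul_nonpos_of_nonneg_of_nonpos (by linarith) h0
      linarith
    · refine le_trans ?_ hx
      rw [mul_right_comm]
      have : 0 < C * x := by positivity
      nlinarith
  have hgR : 1 ≤ g / R := (one_le_div hR).mpr (by linarith)
  by_cases hD : D ≤ 1
  · have h1 := hmain ⌈C⌉₊ S y z f Yt L g R p κ ε hR hL hLR (Or.inr ⟨hD, Nat.le_ceil C⟩) hp (hle ε hε) (hle κ hκ)
      hYt hz hBl hDD T a b hy hzc
    refine h1.trans (mul_le_mul_of_nonneg_right ?_ hp)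
    have h2 : pw N D = 1 := if_pos hD
    rw [h2, pow_one, mul_right_comm]
    refine mul_le_mul_of_nonneg_right (mul_le_mul_of_nonneg_left ?_ (by linarith)) (by linarith)
    refine pow_le_pow_left₀ (by positivity) ?_ _
    have := Nat.ceil_lt_add_one (show 0 ≤ C by linarith)
    linarith
  · have h1 := hmain ⌈C * (1 + L / R)⌉₊ S y z f Yt L g R p κ ε hR hL hLR (Or.inl (Nat.le_ceil _)) hp (hle ε hε)
      (hle κ hκ) hYt hz hBl hDD T a b hy hzc
    refine h1.trans (mul_le_mul_of_nonneg_right ?_ hp)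
    have h2 : pw N D = M + 1 := if_neg hD
    have h3 : 1 + L / R ≤ g / R := by
      have h4 : (L + R) / R ≤ g / R := div_le_div_of_nonneg_right hLR hR.le
      have h5 : (L + R) / R = 1 + L / R := by field_simp; ring
      linarith
    have h4 : 0 ≤ C * (1 + L / R) := by
      have : 0 ≤ L / R := div_nonneg hL hR.le
      positivity
    have h5 : ((⌈C * (1 + L / R)⌉₊ : ℝ) + 1) ^ M ≤ (3 * C * (g / R)) ^ M := by
      refine pow_le_pow_left₀ (by positivity) ?_ _
      have h6 := Nat.ceil_lt_add_one h4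
      have h7 : C * (1 + L / R) ≤ C * (g / R) := mul_le_mul_of_nonneg_left h3 (by linarith)
      have h8 : 1 ≤ C * (g / R) := by nlinarith
      linarith
    rw [h2]
    calc C * (g / R) * ((⌈C * (1 + L / R)⌉₊ : ℝ) + 1) ^ M ≤ C * (g / R) * (3 * C * (g / R)) ^ M :=
          mul_le_mul_of_nonneg_left h5 (by positivity)
      _ = C * (3 * C) ^ M * (g / R) ^ (M + 1) := by rw [mul_pow (3 * C), pow_succ]; ring

/-- STATIC SHEET LEMMA with the deficit only on the levels between `L` and `g`, `L + R ≤ g` -/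
theorem sslL (N D : ℕ) (ρ : ℝ) (hρ : 0 < ρ) (hρ1 : ρ ≤ 1) : ∃ C : ℝ, 1 ≤ C ∧
    ∀ (S : Sp) (y : S.VV (N + 1)) (z : TR S) (f : Mon (N + 1) D → TR S) (Yt : S.L) (L g R p κ ε : ℝ),
    0 < R → 0 ≤ L → L + R ≤ g → 0 ≤ p → C * ε ≤ R → C * κ ≤ R → y.dg g ≤ Yt → TR.Ag g z (pe f (TR.cor y)) →
    Bl y ((cv f).dg g) Yt g p ε → DDL Yt z L g p ρ κ →
    ∀ (T : Sp) (a b : Pj T S),
    (∀ᶠ k in UF, ∀ ω, (T.F k).μ ω ≠ 0 → ∀ i, |(a.vv y).v k ω i - (b.vv y).v k ω i| ≤ T.dl g k) →
    (∀ᶠ k in UF, ∀ ω, (T.F k).μ ω ≠ 0 → |TR.ev (a.tr z) k ω - TR.ev (b.tr z) k ω| ≤ T.dl g k) →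
    ul (T.pr (fun k ω => ∃ i, T.dl (g - R) k < |TR.ev (b.tr (f i) - a.tr (f i)) k ω|)) ≤
      C * (g / R) ^ pw N D * p := by
  obtain ⟨C, hC, hmain⟩ := sslA N D ρ hρ hρ1
  exact ⟨C, hC, fun S y z f Yt L g R p κ ε hR hL hLR hp hε hκ hYt hz hBl hDD T a b hy hzc =>
    hmain S y z f Yt L g R p κ ε hR hL hLR hp hε hκ hYt hz hBl hDD T a b
      (fun i => ag_of_close (hy.mono fun k hk ω hω => hk ω hω i)) (ag_of_close hzc)⟩

end

end Pool.Agent.Helper97.SL
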