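import Pool.Agent.Helper80.LF.Ent
import Pool.Agent.Helper3.LF.Cap

/-! Iterated derivatives along words. A polynomial whose derivatives are all small at a point has small coefficients;
the number of cubes that contain a point where the gradient is small. (SSL, tools) -/

set_option autoImplicit false

namespace Pool.Agent.Helper97.SL

open MvPolynomial Matrix
open Pool.Agent.Helper3.LF

variable {N D : ℕ}

/-- iterated derivative along a word -/
noncomputable def wd (q : MvPolynomial (Fin N) ℝ) : List (Fin N) → MvPolynomial (Fin N) ℝ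
  | [] => q
  | i :: l => pderiv i (wd q l)

theorem wd_deg (q : MvPolynomial (Fin N) ℝ) (hq : q.totalDegree ≤ D) (l : List (Fin N)) :
    (wd q l).totalDegree ≤ D - l.length := by
  induction l with
  | nil => exact hq
  | cons i l ih =>
    show (pderiv i (wd q l)).totalDegree ≤ D - (l.length + 1)
    refine tdeg_pderiv i _ _ (ih.trans ?_)
    omega

theorem wd_deg_le (q : MvPolynomial (Fin N) ℝ) (hq : q.totalDegree ≤ D) (l : List (Fin N)) :
    (wd q l).totalDegree ≤ D := (wd_deg q hq l).trans (Nat.sub_le _ _)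

theorem wd_zero (q : MvPolynomial (Fin N) ℝ) (hq : q.totalDegree ≤ D) (l : List (Fin N)) (hl : D < l.length) :
    wd q l = 0 := by
  cases l with
  | nil => simp at hl
  | cons i l =>
    show pderiv i (wd q l) = 0
    have h1 := wd_deg q hq l
    have h2 : D - l.length = 0 := by
      simp only [List.length_cons] at hl
      omega
    rw [h2] at h1
    have h3 : (wd q l).totalDegree = 0 := Nat.le_zero.mp h1
    rw [totalDegree_eq_zero_iff_eq_C] at h3
    rw [h3]
    exact pderiv_C

/-- mean value inequality for a polynomial along a segment -/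
theorem mvt (q : MvPolynomial (Fin N) ℝ) (v y : Fin N → ℝ) (L M : ℝ) (hL : 0 ≤ L)
    (hy : ∀ i, |y i - v i| ≤ L)
    (h : ∀ w : Fin N → ℝ, (∀ i, |w i - v i| ≤ L) → ∀ i, |eval w (pderiv i q)| ≤ M) :
    |eval y q - eval v q| ≤ N * L * M := by
  set f : Polynomial ℝ := lin v (fun i => y i - v i) q with hf
  have h1 : f.eval 1 = eval y q := by
    rw [hf, eval_lin]
    congr 1
    congr 1
    funext k
    ring
  have h0 : f.eval 0 = eval v q := by
    rw [hf, eval_lin]
    congr 1
    congr 1
    funext k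
    ring
  rw [← h1, ← h0]
  have h2 : ∀ x ∈ Set.Icc (0 : ℝ) 1, HasDerivWithinAt (fun t => f.eval t) (f.derivative.eval x) (Set.Icc 0 1) x :=
    fun x _ => (f.hasDerivAt x).hasDerivWithinAt
  have h3 : ∀ x ∈ Set.Ico (0 : ℝ) 1, ‖f.derivative.eval x‖ ≤ N * L * M := by
    intro x hx
    rw [Real.norm_eq_abs, hf, deriv_lin, Polynomial.eval_finsetSum]
    refine (Finset.abs_sum_le_sum_abs _ _).trans ?_
    refine (Finset.sum_le_card_nsmul _ _ (L * M) fun i _ => ?_).trans (le_of_eq ?_)
    · rw [Polynomial.eval_mul, Polynomial.eval_C, abs_mul, eval_lin]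
      refine mul_le_mul (hy i) (h _ (fun j => ?_) i) (abs_nonneg _) hL
      have e : v j + x * (y j - v j) - v j = x * (y j - v j) := by ring
      rw [e, abs_mul, abs_of_nonneg hx.1]
      calc x * |y j - v j| ≤ 1 * |y j - v j| := mul_le_mul_of_nonneg_right hx.2.le (abs_nonneg _)
        _ ≤ L := by rw [one_mul]; exact hy j
    · rw [nsmul_eq_mul, Finset.card_univ, Fintype.card_fin]
      ring
  have h4 := norm_image_sub_le_of_norm_deriv_le_segment' (f := fun t => f.eval t) h2 h3 1 (by simp)
  rw [Real.norm_eq_abs] at h4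
  simpa using h4

/-- derivatives at one point control derivatives in the box -/
theorem wd_box (q : MvPolynomial (Fin N) ℝ) (hq : q.totalDegree ≤ D) (v : Fin N → ℝ) (L M : ℝ) (hL : 0 ≤ L)
    (hM : 0 ≤ M) (h : ∀ l : List (Fin N), l ≠ [] → |eval v (wd q l)| ≤ M) :
    ∀ (k : ℕ) (l : List (Fin N)), l ≠ [] → D < l.length + k → ∀ y : Fin N → ℝ, (∀ i, |y i - v i| ≤ L) →
      |eval y (wd q l)| ≤ (1 + N * L) ^ k * M := by
  have hNL : 0 ≤ (N : ℝ) * L := mul_nonneg (Nat.cast_nonneg _) hL
  intro k
  induction k with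
  | zero =>
    intro l _ hk y _
    rw [wd_zero q hq l (by simpa using hk), map_zero, abs_zero, pow_zero, one_mul]
    exact hM
  | succ k ih =>
    intro l hl hk y hy
    have hpk : 0 ≤ (1 + (N : ℝ) * L) ^ k * M := mul_nonneg (pow_nonneg (by linarith) _) hM
    have h1 := mvt (wd q l) v y L ((1 + N * L) ^ k * M) hL hy (fun w hw i =>
      ih (i :: l) (by simp) (by simp only [List.length_cons]; omega) w hw)
    have h2 := h l hl
    have h3 : (1 : ℝ) ≤ (1 + N * L) ^ k := one_le_pow₀ (by linarith)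
    have h4 : |eval y (wd q l)| ≤ |eval y (wd q l) - eval v (wd q l)| + |eval v (wd q l)| := by
      have := abs_add_le (eval y (wd q l) - eval v (wd q l)) (eval v (wd q l))
      rwa [sub_add_cancel] at this
    calc _ ≤ N * L * ((1 + N * L) ^ k * M) + M := h4.trans (add_le_add h1 h2)
      _ ≤ N * L * ((1 + N * L) ^ k * M) + (1 + N * L) ^ k * M :=
          add_le_add le_rfl (le_mul_of_one_le_left hM h3)
      _ = (1 + N * L) ^ (k + 1) * M := by ring

/-- the constant monomial -/
def z0 (N D : ℕ) : Mon N D := ⟨fun _ => 0, by simp⟩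

theorem vv_z0 (p : Fin N → ℝ) : vv (D := D) p (z0 N D) = 1 := by
  rw [vv_apply]
  refine Finset.prod_eq_one fun i _ => ?_
  have : (((z0 N D).1 i : Fin (D + 1)) : ℕ) = 0 := rfl
  rw [this, pow_zero]

theorem vv_at_zero (a : Mon N D) (ha : a ≠ z0 N D) : vv (D := D) (0 : Fin N → ℝ) a = 0 := by
  rw [vv_apply]
  by_contra hne
  apply ha
  apply Subtype.ext
  funext i
  apply Fin.ext
  by_contra h2
  apply hne
  refine Finset.prod_eq_zero (Finset.mem_univ i) ?_
  rw [Pi.zero_apply]
  exact zero_pow h2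

/-- small gradient on the unit box: small coefficients -/
theorem coeff_of_grad (N D : ℕ) : ∃ C : ℝ, 1 ≤ C ∧ ∀ (c : Mon N D → ℝ) (M : ℝ), 0 ≤ M →
    (∀ y : Fin N → ℝ, (∀ i, |y i| ≤ 1) → ∀ i, |eval y (pderiv i (pol c))| ≤ M) →
    ∀ a, a ≠ z0 N D → |c a| ≤ C * M := by
  classical
  obtain ⟨C, hC0, hC⟩ := exists_coeff N D
  have hnn := nn_one N D
  refine ⟨1 + C * nn N D * N ^ 2, ?_, fun c M hM h a ha => ?_⟩
  · have : 0 ≤ C * nn N D * N ^ 2 := by positivity
    linarith
  set c' : Mon N D → ℝ := fun b => if b = z0 N D then 0 else c b with hc'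
  have h1 : ∀ y : Fin N → ℝ, eval y (pol c') = eval y (pol c) - eval 0 (pol c) := by
    intro y
    rw [eval_pol, eval_pol, eval_pol]
    have e1 : c ⬝ᵥ vv (0 : Fin N → ℝ) = c (z0 N D) := by
      unfold dotProduct
      rw [Finset.sum_eq_single (z0 N D)]
      · rw [vv_z0, mul_one]
      · intro b _ hb
        rw [vv_at_zero b hb, mul_zero]
      · intro hh
        exact absurd (Finset.mem_univ _) hh
    rw [e1]
    unfold dotProduct
    have e2 : ∀ b, c' b * vv y b = c b * vv y b - (if b = z0 N D then c (z0 N D) else 0) := by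
      intro b
      rw [hc']
      by_cases hb : b = z0 N D
      · simp only [hb, if_true, vv_z0]
        ring
      · simp only [hb, if_false]
        ring
    simp_rw [e2]
    rw [Finset.sum_sub_distrib, Finset.sum_ite_eq' Finset.univ (z0 N D), if_pos (Finset.mem_univ _)]
  have h2 : ∀ j : Fin N → Fin (D + 1), |eval (nodp D 0 1 j) (pol c')| ≤ N * M := by
    intro j
    rw [h1]
    have hj : ∀ i, |nodp D (0 : Fin N → ℝ) 1 j i - (0 : Fin N → ℝ) i| ≤ 1 := by
      intro i
      unfold nodp
      rw [Pi.zero_apply, zero_add, one_mul, sub_zero, abs_of_nonneg (nod_nonneg D _)]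
      exact nod_le D _ (by have := (j i).isLt; omega)
    have := mvt (pol c) 0 (nodp D 0 1 j) 1 M zero_le_one hj (fun w hw i => h w (fun i => by simpa using hw i) i)
    rwa [mul_one] at this
  have h3 : ph D (pol c') 1 0 ≤ nn N D * (N * M) ^ 2 := by
    unfold ph
    refine (Finset.sum_le_card_nsmul _ _ ((N * M) ^ 2) fun j _ => ?_).trans (le_of_eq ?_)
    · rw [← sq_abs]
      exact pow_le_pow_left₀ (abs_nonneg _) (h2 j) 2
    · rw [nsmul_eq_mul, card_nodes]
  have h4 := hC c'
  have h5 : (c a) ^ 2 ≤ c' ⬝ᵥ c' := by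
    have e : c' a * c' a = c a ^ 2 := by rw [hc']; simp only [ha, if_false]; ring
    rw [← e]
    unfold dotProduct
    exact Finset.single_le_sum (f := fun b => c' b * c' b) (fun b _ => mul_self_nonneg _) (Finset.mem_univ a)
  have h6 : (c a) ^ 2 ≤ ((1 + C * nn N D * N ^ 2) * M) ^ 2 := by
    have hx : 0 ≤ C * nn N D * N ^ 2 := by positivity
    calc (c a) ^ 2 ≤ C * (nn N D * (N * M) ^ 2) := h5.trans (h4.trans (mul_le_mul_of_nonneg_left h3 hC0))
      _ = (C * nn N D * N ^ 2) * M ^ 2 := by ring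
      _ ≤ (1 + C * nn N D * N ^ 2) ^ 2 * M ^ 2 := by
          refine mul_le_mul_of_nonneg_right ?_ (sq_nonneg _)
          nlinarith [sq_nonneg (C * nn N D * (N : ℝ) ^ 2)]
      _ = _ := by ring
  exact abs_le_of_sq_le_sq h6 (mul_nonneg (by positivity) hM)

/-- a polynomial whose gradient at `v` is at most `ε` and for which every derivative `q'` (of positive order) satisfies
`r |∂ q'| ≤ |q'|` at `v` has coefficients of size `C K ^ D ε r ^ (-D)` -/
theorem coeff_of_bad (N D : ℕ) : ∃ C : ℝ, 1 ≤ C ∧ ∀ (c : Mon N D → ℝ) (v : Fin N → ℝ) (K r ε : ℝ), 1 ≤ K →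
    (∀ i, |v i| ≤ K) → 0 < r → r ≤ 1 → 0 ≤ ε → (∀ i, |eval v (pderiv i (pol c))| ≤ ε) →
    (∀ l : List (Fin N), l ≠ [] → l.length ≤ D → ∀ j, r * |eval v (pderiv j (wd (pol c) l))| ≤ |eval v (wd (pol c) l)|) →
    ∀ a, a ≠ z0 N D → |c a| * r ^ D ≤ C * K ^ D * ε := by
  obtain ⟨C, hC1, hC⟩ := coeff_of_grad N D
  refine ⟨C * (1 + 2 * N) ^ D, ?_, fun c v K r ε hK hv hr hr1 hε h1 h2 a ha => ?_⟩
  · have h3 : (1 : ℝ) ≤ (1 + 2 * N) ^ D := one_le_pow₀ (by have := Nat.cast_nonneg (α := ℝ) N; linarith)
    nlinarith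
  -- derivatives at v
  have h4 : ∀ l : List (Fin N), l ≠ [] → |eval v (wd (pol c) l)| * r ^ (l.length - 1) ≤ ε := by
    intro l
    induction l with
    | nil => intro h; exact absurd rfl h
    | cons i l ih =>
      intro _
      by_cases hl : l = []
      · subst hl
        simpa [wd] using h1 i
      · by_cases hlD : l.length ≤ D
        · have h5 := h2 l hl hlD i
          have h6 := ih hl
          have h7 : 0 < l.length := List.length_pos_iff.mpr hl
          have e : (i :: l).length - 1 = (l.length - 1) + 1 := by simp only [List.length_cons]; omega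
          rw [e, pow_succ]
          calc |eval v (wd (pol c) (i :: l))| * (r ^ (l.length - 1) * r)
              = r * |eval v (pderiv i (wd (pol c) l))| * r ^ (l.length - 1) := by
                show |eval v (pderiv i (wd (pol c) l))| * _ = _
                ring
            _ ≤ |eval v (wd (pol c) l)| * r ^ (l.length - 1) := mul_le_mul_of_nonneg_right h5 (by positivity)
            _ ≤ ε := h6
        · rw [wd_zero (pol c) (pol_deg c) (i :: l) (by simp only [List.length_cons]; omega), map_zero, abs_zero,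
            zero_mul]
          exact hε
  have hrD : 0 < r ^ D := pow_pos hr D
  have h5 : ∀ l : List (Fin N), l ≠ [] → |eval v (wd (pol c) l)| ≤ ε / r ^ D := by
    intro l hl
    by_cases hlD : l.length ≤ D
    · rw [le_div_iff₀ hrD]
      refine le_trans ?_ (h4 l hl)
      exact mul_le_mul_of_nonneg_left (pow_le_pow_of_le_one hr.le hr1 (by omega)) (abs_nonneg _)
    · rw [wd_zero (pol c) (pol_deg c) l (by omega), map_zero, abs_zero]
      positivity
  have hM : 0 ≤ ε / r ^ D := by positivity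
  have h6 := wd_box (pol c) (pol_deg c) v (2 * K) (ε / r ^ D) (by linarith) hM h5 D
  have h7 := hC c ((1 + N * (2 * K)) ^ D * (ε / r ^ D)) (mul_nonneg (pow_nonneg (by positivity) _) hM)
    (fun y hy i => h6 [i] (by simp) (by simp) y (fun k => by
      have a1 := abs_sub (y k) (v k)
      have a2 := hy k
      have a3 := hv k
      linarith)) a ha
  have h8 : (1 + (N : ℝ) * (2 * K)) ^ D ≤ (1 + 2 * N) ^ D * K ^ D := by
    rw [← mul_pow]
    refine pow_le_pow_left₀ (by positivity) ?_ D
    have := Nat.cast_nonneg (α := ℝ) N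
    nlinarith
  calc |c a| * r ^ D ≤ C * ((1 + N * (2 * K)) ^ D * (ε / r ^ D)) * r ^ D := mul_le_mul_of_nonneg_right h7 hrD.le
    _ = C * (1 + N * (2 * K)) ^ D * ε * (r ^ D / r ^ D) := by ring
    _ = C * (1 + N * (2 * K)) ^ D * ε := by rw [div_self hrD.ne', mul_one]
    _ ≤ C * ((1 + 2 * N) ^ D * K ^ D) * ε :=
        mul_le_mul_of_nonneg_right (mul_le_mul_of_nonneg_left h8 (by linarith)) hε
    _ = _ := by ring

end Pool.Agent.Helper97.SL
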